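import Mathlib
import Pool.Agent.helper67.IF.Susp

/-!
# Lê-Yomdin germs whose tangent cone has isolated weighted homogeneous singularities: definitions

Project LC.  Variables: `Fin m` for the affine chart (`m = n - 1`), `Fin (m + 1)` for `ℂ ^ n`; the
last variable `X (Fin.last m)` is the homogenising variable.
-/

set_option autoImplicit false

namespace Pool.Agent.helper92.LC

open MvPolynomial Filter Topology Asymptotics
open Pool.Agent.helper67.IF Pool.Agent.helper67.ND

variable {m n k : ℕ}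

/-- Order at least `K` at the origin: every monomial has degree `≥ K`. -/
abbrev Ord (K : ℕ) (φ : MvPolynomial (Fin n) ℂ) : Prop := Ge (fun _ => 1) K φ

/-- Translation `φ(y) ↦ φ(y + q)`. -/
noncomputable def tr (q : Fin n → ℂ) : MvPolynomial (Fin n) ℂ →ₐ[ℂ] MvPolynomial (Fin n) ℂ :=
  aeval fun i => X i + C (q i)

/-- The Jacobian ideal. -/
noncomputable def jac (g : MvPolynomial (Fin n) ℂ) : Ideal (MvPolynomial (Fin n) ℂ) :=
  Ideal.span (Set.range fun i => pderiv i g)

/-- The partial derivatives with respect to all variables except the last one. -/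
noncomputable def I0 (f : MvPolynomial (Fin (m + 1)) ℂ) : Ideal (MvPolynomial (Fin (m + 1)) ℂ) :=
  Ideal.span (Set.range fun i : Fin m => pderiv i.castSucc f)

/-- `h` is a Koszul relation of `g`: `h i = ∑ j, b i j * g j` with `b` antisymmetric. -/
def IsKos (g h : Fin k → MvPolynomial (Fin n) ℂ) : Prop :=
  ∃ b : Fin k → Fin k → MvPolynomial (Fin n) ℂ,
    (∀ i j, b i j = - b j i) ∧ ∀ i, h i = ∑ j, b i j * g j

/-- Dehomogenisation: the last variable becomes `1`. -/
noncomputable def dh : MvPolynomial (Fin (m + 1)) ℂ →ₐ[ℂ] MvPolynomial (Fin m) ℂ :=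
  aeval (Fin.lastCases (motive := fun _ => MvPolynomial (Fin m) ℂ) 1 fun i => X i)

/-- The point `(q, 1)`. -/
def pt (q : Fin m → ℂ) : Fin (m + 1) → ℂ := Fin.lastCases (motive := fun _ => ℂ) 1 q

/-- `(q, 1)` is a critical point of `f`. -/
def Sing (f : MvPolynomial (Fin (m + 1)) ℂ) (q : Fin m → ℂ) : Prop :=
  ∀ i, eval (pt q) (pderiv i f) = 0

/-- `J` and `B` are a Jacobian determinant and a matrix of cofactors of the polynomial map `Ψ`. -/
structure Piola (Ψ : Fin n → MvPolynomial (Fin n) ℂ) (J : MvPolynomial (Fin n) ℂ)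
    (B : Fin n → Fin n → MvPolynomial (Fin n) ℂ) : Prop where
  cof : ∀ i l, ∑ j, B i j * pderiv j (Ψ l) = if i = l then J else 0
  div : ∀ i, ∑ j, pderiv j (B i j) = 0

/-- The chart `(η, x) ↦ (x Y(η), x)` of the blow-up of the origin. -/
noncomputable def chart (Y : Fin m → MvPolynomial (Fin m) ℂ) :
    Fin (m + 1) → MvPolynomial (Fin (m + 1)) ℂ :=
  Fin.lastCases (motive := fun _ => MvPolynomial (Fin (m + 1)) ℂ) (X (Fin.last m))
    fun i => X (Fin.last m) * rename Fin.castSucc (Y i)

/-- The germ of the polynomial `F` at `q` is, in suitable analytic coordinates `Y` (with inverse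
`Z`), the polynomial `g`, which is weighted homogeneous of degree `N` for the positive weights `a`
and has the origin as its only critical point. -/
structure WH (F : MvPolynomial (Fin m) ℂ) (q : Fin m → ℂ) (a : Fin m → ℕ) (N : ℕ)
    (g : MvPolynomial (Fin m) ℂ) : Prop where
  pos : ∀ i, 1 ≤ a i
  homog : g.IsWeightedHomogeneous a N
  crit : ∀ z : Fin m → ℂ, (∀ i, eval z (pderiv i g) = 0) ↔ z = 0
  iso : ∃ Y Z : (Fin m → ℂ) → (Fin m → ℂ), AnalyticAt ℂ Y 0 ∧ AnalyticAt ℂ Z q ∧ Y 0 = q ∧
    Z q = 0 ∧ (∀ᶠ v in 𝓝 0, Z (Y v) = v) ∧ (∀ᶠ y in 𝓝 q, Y (Z y) = y) ∧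
    ∀ᶠ v in 𝓝 0, eval (Y v) F = eval v g

/-- Polynomial approximations of order `K` of the coordinate changes of `WH` (both are centred at
the origin). -/
structure Jets (F : MvPolynomial (Fin m) ℂ) (q : Fin m → ℂ) (g : MvPolynomial (Fin m) ℂ) (K : ℕ)
    (Y Z : Fin m → MvPolynomial (Fin m) ℂ) : Prop where
  Y0 : ∀ i, Ord 1 (Y i)
  Z0 : ∀ i, Ord 1 (Z i)
  YZ : ∀ i, Ord K (aeval Z (Y i) - X i)
  ZY : ∀ i, Ord K (aeval Y (Z i) - X i)
  FY : Ord K (aeval Y (tr q F) - g)

/-- The nonresonance condition at a singular point: `n / d + j` is not a spectral number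
(the spectral numbers of `g` are the `∑ a i (β i + 1) / N`, `y ^ β` not in the Jacobian ideal). -/
def NR (n d : ℕ) (a : Fin m → ℕ) (N : ℕ) (g : MvPolynomial (Fin m) ℂ) : Prop :=
  ∀ j : ℕ, 1 ≤ j → ∀ β : Fin m →₀ ℕ, (monomial β (1 : ℂ)) ∉ jac g →
    d * ∑ i, a i * (β i + 1) ≠ (n + j * d) * N

/-! ### Small facts -/

@[simp] lemma dh_X_castSucc (i : Fin m) : dh (X i.castSucc) = (X i : MvPolynomial (Fin m) ℂ) := by
  simp [dh]

@[simp] lemma dh_X_last : dh (X (Fin.last m)) = (1 : MvPolynomial (Fin m) ℂ) := by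
  simp [dh]

@[simp] lemma pt_castSucc (q : Fin m → ℂ) (i : Fin m) : pt q i.castSucc = q i := by
  simp [pt]

@[simp] lemma pt_last (q : Fin m → ℂ) : pt q (Fin.last m) = 1 := by
  simp [pt]

@[simp] lemma chart_castSucc (Y : Fin m → MvPolynomial (Fin m) ℂ) (i : Fin m) :
    chart Y i.castSucc = X (Fin.last m) * rename Fin.castSucc (Y i) := by
  simp [chart]

@[simp] lemma chart_last (Y : Fin m → MvPolynomial (Fin m) ℂ) :
    chart Y (Fin.last m) = X (Fin.last m) := by
  simp [chart]

lemma eval_dh (q : Fin m → ℂ) (f : MvPolynomial (Fin (m + 1)) ℂ) :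
    eval q (dh f) = eval (pt q) f := by
  induction f using MvPolynomial.induction_on with
  | C a => rw [dh, aeval_C]; simp
  | add p q hp hq => simp only [map_add, hp, hq]
  | mul_X p i hp =>
    rw [map_mul, map_mul, hp, map_mul, eval_X]
    congr 1
    refine Fin.lastCases ?_ (fun i => ?_) i <;> simp

lemma eval_tr (q z : Fin n → ℂ) (f : MvPolynomial (Fin n) ℂ) :
    eval z (tr q f) = eval (fun i => z i + q i) f := by
  induction f using MvPolynomial.induction_on with
  | C a => rw [tr, aeval_C]; simp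
  | add p q hp hq => simp only [map_add, hp, hq]
  | mul_X p i hp =>
    rw [map_mul, map_mul, hp, map_mul, eval_X, tr, aeval_X]
    simp

lemma pderiv_tr (q : Fin n → ℂ) (j : Fin n) (f : MvPolynomial (Fin n) ℂ) :
    pderiv j (tr q f) = tr q (pderiv j f) := by
  classical
  induction f using MvPolynomial.induction_on with
  | C a => rw [tr, aeval_C]; simp
  | add p q hp hq => simp only [map_add, hp, hq]
  | mul_X p i hp =>
    rw [map_mul, Derivation.leibniz, hp, Derivation.leibniz, tr, aeval_X, map_add, pderiv_C,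
      pderiv_X, add_zero, smul_eq_mul, smul_eq_mul, smul_eq_mul, smul_eq_mul, map_add, map_mul,
      map_mul, aeval_X]
    congr 2
    by_cases h : i = j
    · subst h; simp
    · simp [Pi.single_eq_of_ne, h]

lemma IsKos.syz {g h : Fin k → MvPolynomial (Fin n) ℂ} (hk : IsKos g h) :
    ∑ i, h i * g i = 0 := by
  obtain ⟨b, hb, hh⟩ := hk
  have h1 : ∑ i, h i * g i = ∑ i, ∑ j, b i j * g j * g i := by
    refine Finset.sum_congr rfl fun i _ => ?_
    rw [hh i, Finset.sum_mul]
  have h2 : ∑ i, ∑ j, b i j * g j * g i = - ∑ i, ∑ j, b i j * g j * g i := by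
    conv_lhs => rw [Finset.sum_comm]
    rw [← Finset.sum_neg_distrib]
    refine Finset.sum_congr rfl fun i _ => ?_
    rw [← Finset.sum_neg_distrib]
    refine Finset.sum_congr rfl fun j _ => ?_
    rw [hb j i]; ring
  rw [h1]
  exact self_eq_neg.1 h2

end Pool.Agent.helper92.LC
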