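import Mathlib
import Pool.Agent.helper92.LC.Defs

/-!
# Project LC, module PiolaId: the Piola identity for polynomial maps

Independent of the other modules (only Defs).  (proofs: helper41)
-/

set_option autoImplicit false

namespace Pool.Agent.helper92.LC

open MvPolynomial

variable {n : ℕ}

lemma PiolaId_prod {R : Type} [CommRing R] [Algebra ℂ R] (D : Derivation ℂ R R) {ι : Type}
    [DecidableEq ι] (s : Finset ι) (a : ι → R) :
    D (∏ i ∈ s, a i) = ∑ k ∈ s, (∏ i ∈ s.erase k, a i) * D (a k) := by
  induction s using Finset.induction_on with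
  | empty => simp
  | insert x s hx ih =>
    rw [Finset.prod_insert hx, D.leibniz, ih, Finset.sum_insert hx, Finset.erase_insert hx,
      smul_eq_mul, smul_eq_mul, add_comm, Finset.mul_sum]
    congr 1
    refine Finset.sum_congr rfl fun k hk => ?_
    have hne : x ≠ k := fun h => hx (h ▸ hk)
    rw [Finset.erase_insert_of_ne hne, Finset.prod_insert (fun h => hx (Finset.mem_of_mem_erase h)),
      mul_assoc]

/-- **Jacobi's formula** for a derivation.
PROOF.  `det M = ∑ σ, sign σ • ∏ i, M (σ i) i`; a derivation of a product is the sum over `i` of the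
product with the factor `i` replaced by its derivative, so
`D (det M) = ∑ k, det (M.updateCol k (fun i => D (M i k)))`, and
`det (M.updateCol k c) = ∑ i, adjugate M k i * c i` (`Matrix.cramer_apply`,
`Matrix.cramer_eq_adjugate_mulVec`). -/
theorem derivation_det {R : Type} [CommRing R] [Algebra ℂ R] (D : Derivation ℂ R R)
    (M : Matrix (Fin n) (Fin n) R) :
    D M.det = ∑ k, ∑ i, M.adjugate k i * D (M i k) := by
  classical
  have h1 : ∀ k, ∑ i, M.adjugate k i * D (M i k) = (M.updateCol k (fun i => D (M i k))).det := by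
    intro k
    rw [← Matrix.cramer_apply, Matrix.cramer_eq_adjugate_mulVec]
    rfl
  have h2 : ∀ k, (M.updateCol k (fun i => D (M i k))).det = ∑ σ : Equiv.Perm (Fin n),
      ((Equiv.Perm.sign σ : ℤ) : R) *
        ((∏ i ∈ Finset.univ.erase k, M (σ i) i) * D (M (σ k) k)) := by
    intro k
    rw [Matrix.det_apply']
    refine Finset.sum_congr rfl fun σ _ => ?_
    congr 1
    rw [← Finset.prod_erase_mul Finset.univ _ (Finset.mem_univ k)]
    congr 1
    · refine Finset.prod_congr rfl fun i hi => ?_
      rw [Matrix.updateCol_ne (Finset.ne_of_mem_erase hi)]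
    · rw [Matrix.updateCol_self]
  rw [Finset.sum_congr rfl fun k _ => h1 k, Finset.sum_congr rfl fun k _ => h2 k,
    Finset.sum_comm, Matrix.det_apply', map_sum]
  refine Finset.sum_congr rfl fun σ _ => ?_
  rw [D.leibniz, D.map_intCast, smul_zero, add_zero, smul_eq_mul, PiolaId_prod, Finset.mul_sum]

/-- The Jacobian matrix `(∂_j Y_i)`. -/
noncomputable def jacM (Y : Fin n → MvPolynomial (Fin n) ℂ) :
    Matrix (Fin n) (Fin n) (MvPolynomial (Fin n) ℂ) := Matrix.of fun i j => pderiv j (Y i)

lemma PiolaId_comm (i j : Fin n) (p : MvPolynomial (Fin n) ℂ) :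
    pderiv i (pderiv j p) = pderiv j (pderiv i p) := by
  have h : ⁅(pderiv i : Derivation ℂ (MvPolynomial (Fin n) ℂ) (MvPolynomial (Fin n) ℂ)),
      (pderiv j : Derivation ℂ (MvPolynomial (Fin n) ℂ) (MvPolynomial (Fin n) ℂ))⁆ = 0 := by
    refine derivation_ext fun k => ?_
    rw [Derivation.commutator_apply, pderiv_X, pderiv_X]
    by_cases h1 : j = k <;> by_cases h2 : i = k <;> simp [h1, h2]
  have h2 := congrArg (fun D => D p) h
  simp only [Derivation.commutator_apply, Derivation.zero_apply] at h2
  exact sub_eq_zero.1 h2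

/-- **Piola identity.**
PROOF.  Let `M = jacM Y`, `A = adjugate M`, `B i j = A j i`.  `cof`: `∑_j (∂_j Y_l) A_{ji} = (M A)_{li} =
det M` if `l = i` and `0` otherwise (`Matrix.mul_adjugate`).  `div`: apply `∂_j` to `M A = det M • 1`:
`(∂_j M) A + M (∂_j A) = (∂_j det M) 1`; multiply by `A` on the left (`A M = det M • 1`):
`det M • ∂_j A = (∂_j det M) A - A (∂_j M) A`.  Take the entry `(j, i)` and sum over `j`:
`det M * ∑_j ∂_j A_{ji} = ∑_j (∂_j det M) A_{ji} - ∑_j ∑_{a,b} A_{ja} (∂_j M_{ab}) A_{bi}`.
With `derivation_det` the first sum is `∑_{j,a,b} A_{ab} (∂_j ∂_a Y_b) A_{ji}` and the second is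
`∑_{j,a,b} A_{ja} (∂_j ∂_b Y_a) A_{bi}`; renaming `(j, a, b) → (a, b, j)` and symmetry of second
derivatives (prove `pderiv i (pderiv j p) = pderiv j (pderiv i p)` if it is not in Mathlib, e.g. on
monomials) show they are equal.  Cancel `det M ≠ 0` (domain). -/
theorem piola (Y : Fin n → MvPolynomial (Fin n) ℂ) (hdet : (jacM Y).det ≠ 0) :
    Piola Y (jacM Y).det (fun i j => (jacM Y).adjugate j i) := by
  classical
  have hM : ∀ a b, jacM Y a b = pderiv b (Y a) := fun a b => rfl
  have hMA : ∀ l i, ∑ j, jacM Y l j * (jacM Y).adjugate j i = if l = i then (jacM Y).det else 0 := by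
    intro l i
    have h := congrFun (congrFun (Matrix.mul_adjugate (jacM Y)) l) i
    rw [Matrix.mul_apply, Matrix.smul_apply, Matrix.one_apply, smul_eq_mul, mul_ite, mul_one,
      mul_zero] at h
    exact h
  have hAM : ∀ j b, ∑ a, (jacM Y).adjugate j a * jacM Y a b =
      if j = b then (jacM Y).det else 0 := by
    intro j b
    have h := congrFun (congrFun (Matrix.adjugate_mul (jacM Y)) j) b
    rw [Matrix.mul_apply, Matrix.smul_apply, Matrix.one_apply, smul_eq_mul, mul_ite, mul_one,
      mul_zero] at h
    exact h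
  refine ⟨fun i l => ?_, fun i => ?_⟩
  · rw [← (show (if l = i then (jacM Y).det else 0) = if i = l then (jacM Y).det else 0 by
      simp only [eq_comm]), ← hMA l i]
    refine Finset.sum_congr rfl fun j _ => ?_
    rw [hM, mul_comm]
  · have key : ∀ j, (jacM Y).det * pderiv j ((jacM Y).adjugate j i) =
        (jacM Y).adjugate j i * pderiv j (jacM Y).det -
          ∑ a, ∑ b, (jacM Y).adjugate j a * (pderiv j (jacM Y a b) * (jacM Y).adjugate b i) := by
      intro j
      have h1 : ∀ a, ∑ b, (pderiv j (jacM Y a b) * (jacM Y).adjugate b i +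
          jacM Y a b * pderiv j ((jacM Y).adjugate b i)) =
          if a = i then pderiv j (jacM Y).det else 0 := by
        intro a
        have h2 := congrArg (pderiv j) (hMA a i)
        rw [map_sum, apply_ite (pderiv j), map_zero] at h2
        rw [← h2]
        refine Finset.sum_congr rfl fun b _ => ?_
        rw [Derivation.leibniz, smul_eq_mul, smul_eq_mul]
        ring
      have h3 : ∑ a, (jacM Y).adjugate j a * (∑ b, (pderiv j (jacM Y a b) *
          (jacM Y).adjugate b i + jacM Y a b * pderiv j ((jacM Y).adjugate b i))) =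
          (jacM Y).adjugate j i * pderiv j (jacM Y).det := by
        rw [Finset.sum_congr rfl fun a _ => by rw [h1 a]]
        simp
      have h4 : ∑ a, (jacM Y).adjugate j a * (∑ b, (pderiv j (jacM Y a b) *
          (jacM Y).adjugate b i + jacM Y a b * pderiv j ((jacM Y).adjugate b i))) =
          ∑ a, ∑ b, (jacM Y).adjugate j a * (pderiv j (jacM Y a b) * (jacM Y).adjugate b i) +
          ∑ b, (∑ a, (jacM Y).adjugate j a * jacM Y a b) *
            pderiv j ((jacM Y).adjugate b i) := by
        simp only [Finset.sum_add_distrib, mul_add, Finset.mul_sum, Finset.sum_mul]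
        refine congrArg₂ (· + ·) rfl ?_
        rw [Finset.sum_comm]
        refine Finset.sum_congr rfl fun b _ => Finset.sum_congr rfl fun a _ => ?_
        ring
      have h5 : ∑ b, (∑ a, (jacM Y).adjugate j a * jacM Y a b) *
            pderiv j ((jacM Y).adjugate b i) =
          (jacM Y).det * pderiv j ((jacM Y).adjugate j i) := by
        rw [Finset.sum_congr rfl fun b _ => by rw [hAM j b]]
        simp
      rw [h4, h5] at h3
      linear_combination h3
    have hsum : (jacM Y).det * ∑ j, pderiv j ((jacM Y).adjugate j i) = 0 := by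
      rw [Finset.mul_sum, Finset.sum_congr rfl fun j _ => key j, Finset.sum_sub_distrib,
        sub_eq_zero]
      have h6 : ∀ j, (jacM Y).adjugate j i * pderiv j (jacM Y).det =
          ∑ k, ∑ l, (jacM Y).adjugate k l * ((jacM Y).adjugate j i * pderiv j (pderiv k (Y l))) := by
        intro j
        rw [derivation_det, Finset.mul_sum]
        refine Finset.sum_congr rfl fun k _ => ?_
        rw [Finset.mul_sum]
        refine Finset.sum_congr rfl fun l _ => ?_
        rw [hM]
        ring
      rw [Finset.sum_congr rfl fun j _ => h6 j, Finset.sum_comm]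
      refine Finset.sum_congr rfl fun k _ => ?_
      rw [Finset.sum_comm]
      refine Finset.sum_congr rfl fun l _ => Finset.sum_congr rfl fun j _ => ?_
      rw [hM, PiolaId_comm j k]
      ring
    exact (mul_eq_zero.1 hsum).resolve_left hdet

/-- Chain rule. (Induction on `φ` with `MvPolynomial.induction_on`.) -/
theorem pderiv_aeval {k : ℕ} (Y : Fin k → MvPolynomial (Fin n) ℂ) (φ : MvPolynomial (Fin k) ℂ)
    (j : Fin n) :
    pderiv j (aeval Y φ) = ∑ i, aeval Y (pderiv i φ) * pderiv j (Y i) := by
  classical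
  induction φ using MvPolynomial.induction_on with
  | C a => simp [algebraMap_eq]
  | add p q hp hq =>
    rw [map_add, map_add, hp, hq, ← Finset.sum_add_distrib]
    refine Finset.sum_congr rfl fun i _ => ?_
    rw [map_add, map_add, add_mul]
  | mul_X p i hp =>
    rw [map_mul, aeval_X, Derivation.leibniz, hp, smul_eq_mul, smul_eq_mul, Finset.mul_sum]
    have h1 : ∀ l, aeval Y (pderiv l (p * X i)) * pderiv j (Y l) =
        (if l = i then aeval Y p * pderiv j (Y i) else 0) +
          Y i * (aeval Y (pderiv l p) * pderiv j (Y l)) := by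
      intro l
      rw [Derivation.leibniz, pderiv_X, smul_eq_mul, smul_eq_mul, map_add, map_mul, map_mul,
        aeval_X]
      by_cases h : l = i
      · subst h
        simp
        ring
      · rw [if_neg h, Pi.single_eq_of_ne (Ne.symm h)]
        simp
        ring
    rw [Finset.sum_congr rfl fun l _ => h1 l, Finset.sum_add_distrib]
    simp

lemma PiolaId_eval0 {φ : MvPolynomial (Fin n) ℂ} (h : Ord 1 φ) : eval 0 φ = 0 := by
  rw [eval_zero, constantCoeff_eq]
  by_contra h1
  have h2 := h 0 (mem_support_iff.2 h1)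
  rw [map_zero] at h2
  omega

lemma PiolaId_ev {K : ℕ} (hK : 2 ≤ K) {φ : MvPolynomial (Fin n) ℂ} (h : Ord K φ) (j : Fin n) :
    eval 0 (pderiv j φ) = 0 := by
  rw [eval_zero, constantCoeff_eq, coeff_pderiv]
  have h1 : coeff (0 + Finsupp.single j 1) φ = 0 := by
    by_contra h1
    have h2 := h _ (mem_support_iff.2 h1)
    rw [zero_add, Finsupp.weight_single] at h2
    simp at h2
    omega
  rw [h1, zero_mul]

/-- The determinant of the jets of a coordinate change does not vanish at the origin.
PROOF.  Differentiate `Z_i(Y(v)) = v_i + O(|v|^K)`, `K ≥ 2` (`h.ZY`), with `pderiv_aeval` and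
evaluate at `0`: `∑_k (∂_k Z_i)(0) (∂_j Y_k)(0) = δ_ij` (`Y k` vanishes at `0`, so
`eval 0 (aeval Y ψ) = eval 0 ψ`; derivatives of `Ord K` are `Ord (K - 1)`, which vanish at `0`).
So the matrix `(eval 0 (∂_j Y_k))` is invertible and `eval 0 (det) = det (eval 0 ...)`
(`RingHom.map_det`). -/
theorem jets_det {F g : MvPolynomial (Fin n) ℂ} {q : Fin n → ℂ} {K : ℕ} (hK : 2 ≤ K)
    {Y Z : Fin n → MvPolynomial (Fin n) ℂ} (h : Jets F q g K Y Z) :
    eval 0 (jacM Y).det ≠ 0 := by
  classical
  have hY0 : ∀ k, eval 0 (Y k) = 0 := fun k => PiolaId_eval0 (h.Y0 k)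
  have hev : ∀ ψ : MvPolynomial (Fin n) ℂ, eval 0 (aeval Y ψ) = eval 0 ψ := by
    intro ψ
    induction ψ using MvPolynomial.induction_on with
    | C a => simp [algebraMap_eq]
    | add p q hp hq => rw [map_add, map_add, map_add, hp, hq]
    | mul_X p i hp => rw [map_mul, map_mul, map_mul, hp, aeval_X, hY0, eval_X]; rfl
  have h1 : (Matrix.of fun i k => eval (0 : Fin n → ℂ) (pderiv k (Z i))) *
      ((eval (0 : Fin n → ℂ)).mapMatrix (jacM Y)) = 1 := by
    ext i j
    rw [Matrix.mul_apply, Matrix.one_apply]
    have h2 := PiolaId_ev hK (h.ZY i) j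
    rw [map_sub, pderiv_aeval, map_sub, map_sum, sub_eq_zero, pderiv_X] at h2
    have h3 : eval (0 : Fin n → ℂ) ((Pi.single j 1 : Fin n → MvPolynomial (Fin n) ℂ) i) =
        if i = j then 1 else 0 := by
      by_cases hij : i = j
      · subst hij
        simp
      · rw [if_neg hij, Pi.single_eq_of_ne hij, map_zero]
    rw [← h3, ← h2]
    refine Finset.sum_congr rfl fun k _ => ?_
    rw [map_mul, hev]
    rfl
  rw [RingHom.map_det]
  intro h0
  have h4 := congrArg Matrix.det h1
  rw [Matrix.det_mul, h0, mul_zero, Matrix.det_one] at h4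
  exact zero_ne_one h4

end Pool.Agent.helper92.LC
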