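import Mathlib
import Pool.Agent.helper92.LC.Defs
import Pool.Agent.helper92.LC.PiolaId

/-!
# Project LC, module Pull: pull-back of vector fields and divergences, the chart of the blow-up

Imports `PiolaId` through its stub (only `pderiv_aeval` is needed).
-/

set_option autoImplicit false

namespace Pool.Agent.helper92.LC

open MvPolynomial

variable {n m : ℕ} {Ψ : Fin n → MvPolynomial (Fin n) ℂ} {J : MvPolynomial (Fin n) ℂ}
  {B : Fin n → Fin n → MvPolynomial (Fin n) ℂ}

/-- `J (∂_i φ)(Ψ) = ∑_j B_ij ∂_j (φ(Ψ))`. (Chain rule and `cof`.) -/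
theorem Piola.mul_pderiv (h : Piola Ψ J B) (φ : MvPolynomial (Fin n) ℂ) (i : Fin n) :
    J * aeval Ψ (pderiv i φ) = ∑ j, B i j * pderiv j (aeval Ψ φ) := by
  classical
  have h1 : ∀ j, B i j * pderiv j (aeval Ψ φ) =
      ∑ l, aeval Ψ (pderiv l φ) * (B i j * pderiv j (Ψ l)) := by
    intro j
    rw [pderiv_aeval, Finset.mul_sum]
    refine Finset.sum_congr rfl fun l _ => ?_
    ring
  rw [Finset.sum_congr rfl fun j _ => h1 j, Finset.sum_comm]
  have h2 : ∀ l, ∑ j, aeval Ψ (pderiv l φ) * (B i j * pderiv j (Ψ l)) =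
      if i = l then aeval Ψ (pderiv l φ) * J else 0 := by
    intro l
    rw [← Finset.mul_sum, h.cof i l]
    split_ifs <;> simp
  rw [Finset.sum_congr rfl fun l _ => h2 l, Finset.sum_ite_eq]
  simp [mul_comm]

/-- `J (∂_i φ)(Ψ) = ∑_j ∂_j (B_ij φ(Ψ))`. (The previous statement and `div`.) -/
theorem Piola.mul_pderiv' (h : Piola Ψ J B) (φ : MvPolynomial (Fin n) ℂ) (i : Fin n) :
    J * aeval Ψ (pderiv i φ) = ∑ j, pderiv j (B i j * aeval Ψ φ) := by
  rw [h.mul_pderiv φ i]
  have h1 : ∀ j, pderiv j (B i j * aeval Ψ φ) =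
      B i j * pderiv j (aeval Ψ φ) + aeval Ψ φ * pderiv j (B i j) := by
    intro j
    rw [Derivation.leibniz, smul_eq_mul, smul_eq_mul]
  rw [Finset.sum_congr rfl fun j _ => h1 j, Finset.sum_add_distrib, ← Finset.mul_sum, h.div i,
    mul_zero, add_zero]

/-- Pull-back of a vector field: action on functions. -/
theorem Piola.field (h : Piola Ψ J B) (c : Fin n → MvPolynomial (Fin n) ℂ)
    (F : MvPolynomial (Fin n) ℂ) :
    ∑ j, (∑ i, B i j * aeval Ψ (c i)) * pderiv j (aeval Ψ F) =
      J * aeval Ψ (∑ i, c i * pderiv i F) := by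
  have h1 : ∀ j, (∑ i, B i j * aeval Ψ (c i)) * pderiv j (aeval Ψ F) =
      ∑ i, aeval Ψ (c i) * (B i j * pderiv j (aeval Ψ F)) := by
    intro j
    rw [Finset.sum_mul]
    refine Finset.sum_congr rfl fun i _ => ?_
    ring
  rw [Finset.sum_congr rfl fun j _ => h1 j, Finset.sum_comm, map_sum, Finset.mul_sum]
  refine Finset.sum_congr rfl fun i _ => ?_
  rw [← Finset.mul_sum, ← h.mul_pderiv F i, map_mul]
  ring

/-- Pull-back of a vector field: divergence. -/
theorem Piola.divergence (h : Piola Ψ J B) (c : Fin n → MvPolynomial (Fin n) ℂ) :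
    ∑ j, pderiv j (∑ i, B i j * aeval Ψ (c i)) = J * aeval Ψ (∑ i, pderiv i (c i)) := by
  have h1 : ∀ j, pderiv j (∑ i, B i j * aeval Ψ (c i)) =
      ∑ i, pderiv j (B i j * aeval Ψ (c i)) := fun j => map_sum _ _ _
  rw [Finset.sum_congr rfl fun j _ => h1 j, Finset.sum_comm, map_sum, Finset.mul_sum]
  refine Finset.sum_congr rfl fun i _ => ?_
  rw [h.mul_pderiv' (c i) i]

lemma pull_pderiv_last (p : MvPolynomial (Fin m) ℂ) :
    pderiv (Fin.last m) (rename Fin.castSucc p) = 0 := by
  classical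
  refine pderiv_eq_zero_of_notMem_vars fun hmem => ?_
  have h2 := vars_rename Fin.castSucc p hmem
  rw [Finset.mem_image] at h2
  obtain ⟨i, _, hi⟩ := h2
  exact (Fin.castSucc_lt_last i).ne hi

lemma pull_pderiv_castSucc (j : Fin m) (p : MvPolynomial (Fin m) ℂ) :
    pderiv j.castSucc (rename Fin.castSucc p) = rename Fin.castSucc (pderiv j p) :=
  pderiv_rename (Fin.castSucc_injective m) j p

lemma pull_pderiv_x (j : Fin m) (k : ℕ) :
    pderiv j.castSucc ((X (Fin.last m) : MvPolynomial (Fin (m + 1)) ℂ) ^ k) = 0 := by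
  rw [Derivation.leibniz_pow, pderiv_X_of_ne (Fin.castSucc_lt_last j).ne', smul_zero, smul_zero]

lemma pull_pderiv_xmul (j : Fin m) (k : ℕ) (p : MvPolynomial (Fin m) ℂ) :
    pderiv j.castSucc ((X (Fin.last m) : MvPolynomial (Fin (m + 1)) ℂ) ^ k *
      rename Fin.castSucc p) = X (Fin.last m) ^ k * rename Fin.castSucc (pderiv j p) := by
  rw [Derivation.leibniz, pull_pderiv_x, smul_zero, add_zero, smul_eq_mul, pull_pderiv_castSucc]

/-- The matrix of cofactors of the chart. -/
noncomputable def pullB (Y : Fin m → MvPolynomial (Fin m) ℂ) (u : MvPolynomial (Fin m) ℂ)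
    (C : Fin m → Fin m → MvPolynomial (Fin m) ℂ) :
    Fin (m + 1) → Fin (m + 1) → MvPolynomial (Fin (m + 1)) ℂ :=
  Fin.lastCases (motive := fun _ => Fin (m + 1) → MvPolynomial (Fin (m + 1)) ℂ)
    (Fin.lastCases (motive := fun _ => MvPolynomial (Fin (m + 1)) ℂ)
      (X (Fin.last m) ^ m * rename Fin.castSucc u)
      fun j => X (Fin.last m) ^ (m - 1) * rename Fin.castSucc (- ∑ i, Y i * C i j))
    fun i => Fin.lastCases (motive := fun _ => MvPolynomial (Fin (m + 1)) ℂ) 0
      fun j => X (Fin.last m) ^ (m - 1) * rename Fin.castSucc (C i j)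

lemma pullB_ll (Y : Fin m → MvPolynomial (Fin m) ℂ) (u : MvPolynomial (Fin m) ℂ)
    (C : Fin m → Fin m → MvPolynomial (Fin m) ℂ) :
    pullB Y u C (Fin.last m) (Fin.last m) = X (Fin.last m) ^ m * rename Fin.castSucc u := by
  simp [pullB]

lemma pullB_lc (Y : Fin m → MvPolynomial (Fin m) ℂ) (u : MvPolynomial (Fin m) ℂ)
    (C : Fin m → Fin m → MvPolynomial (Fin m) ℂ) (j : Fin m) :
    pullB Y u C (Fin.last m) j.castSucc =
      X (Fin.last m) ^ (m - 1) * rename Fin.castSucc (- ∑ i, Y i * C i j) := by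
  simp [pullB]

lemma pullB_cl (Y : Fin m → MvPolynomial (Fin m) ℂ) (u : MvPolynomial (Fin m) ℂ)
    (C : Fin m → Fin m → MvPolynomial (Fin m) ℂ) (i : Fin m) :
    pullB Y u C i.castSucc (Fin.last m) = 0 := by
  simp [pullB]

lemma pullB_cc (Y : Fin m → MvPolynomial (Fin m) ℂ) (u : MvPolynomial (Fin m) ℂ)
    (C : Fin m → Fin m → MvPolynomial (Fin m) ℂ) (i j : Fin m) :
    pullB Y u C i.castSucc j.castSucc =
      X (Fin.last m) ^ (m - 1) * rename Fin.castSucc (C i j) := by
  simp [pullB]

/-- **The chart of the blow-up.**  `Ψ = (x Y(η), x)`, `x = X (Fin.last m)`.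
PROOF.  Let `u, C` be the data of `Y` (all renamed by `Fin.castSucc` below), `i, j, l < m`:
`B (castSucc i) (castSucc j) = x ^ (m - 1) C_ij`, `B (castSucc i) last = 0`,
`B last last = x ^ m u`, `B last (castSucc j) = - x ^ (m - 1) ∑_i Y_i C_ij`.
`cof`: `(castSucc i, castSucc l)`: `∑_j x^(m-1) C_ij x ∂_j Y_l = x^m δ_il u`;
`(castSucc i, last)`: `∂_j x = 0` and `0 * 1`; `(last, castSucc l)`:
`x^m u Y_l - ∑_j x^(m-1) ∑_i Y_i C_ij x ∂_j Y_l = x^m u Y_l - x^m ∑_i Y_i δ_il u = 0`;
`(last, last)`: `x^m u`.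
`div`: row `castSucc i`: `∑_j x^(m-1) ∂_j C_ij = 0`; row `last`:
`m x^(m-1) u - x^(m-1) ∑_i ∑_j (∂_j Y_i) C_ij - x^(m-1) ∑_i Y_i ∑_j ∂_j C_ij =
m x^(m-1) u - x^(m-1) m u - 0`.  (`Fin.sum_univ_castSucc`, `MvPolynomial.pderiv_rename`,
and `pderiv (Fin.last m) (rename Fin.castSucc p) = 0`, see `Split.pderiv2_zero` in
`Pool.Agent.helper67.IF.Susp`, `LY.split_castSucc` for the case of three variables.) -/
theorem piola_chart (hm : 1 ≤ m) {Y : Fin m → MvPolynomial (Fin m) ℂ}
    {u : MvPolynomial (Fin m) ℂ} {C : Fin m → Fin m → MvPolynomial (Fin m) ℂ}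
    (h : Piola Y u C) :
    ∃ B, Piola (chart Y) (X (Fin.last m) ^ m * rename Fin.castSucc u) B := by
  classical
  obtain ⟨k, rfl⟩ : ∃ k, m = k + 1 := ⟨m - 1, by omega⟩
  have hx : ∀ j : Fin (k + 1),
      pderiv j.castSucc (X (Fin.last (k + 1)) : MvPolynomial (Fin (k + 1 + 1)) ℂ) = 0 :=
    fun j => pderiv_X_of_ne (Fin.castSucc_lt_last j).ne'
  have hY : ∀ j l : Fin (k + 1), pderiv j.castSucc (chart Y l.castSucc) =
      X (Fin.last (k + 1)) * rename Fin.castSucc (pderiv j (Y l)) := by
    intro j l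
    have := pull_pderiv_xmul j 1 (Y l)
    rw [pow_one] at this
    rw [chart_castSucc, this]
  have hYl : ∀ l : Fin (k + 1), pderiv (Fin.last (k + 1)) (chart Y l.castSucc) =
      rename Fin.castSucc (Y l) := by
    intro l
    rw [chart_castSucc, Derivation.leibniz, pull_pderiv_last, smul_zero, zero_add, pderiv_X_self,
      smul_eq_mul, mul_one]
  refine ⟨pullB Y u C, ?_, ?_⟩
  · intro i l
    rw [Fin.sum_univ_castSucc]
    refine Fin.lastCases ?_ (fun i => ?_) i
    · refine Fin.lastCases ?_ (fun l => ?_) l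
      · rw [if_pos rfl, pullB_ll, chart_last, pderiv_X_self, mul_one]
        rw [Finset.sum_eq_zero fun j _ => by rw [hx j, mul_zero], zero_add]
      · rw [if_neg (Fin.castSucc_lt_last l).ne', pullB_ll, hYl]
        have h1 : ∀ j : Fin (k + 1), pullB Y u C (Fin.last (k + 1)) j.castSucc *
            pderiv j.castSucc (chart Y l.castSucc) =
            X (Fin.last (k + 1)) ^ (k + 1) *
              rename Fin.castSucc (- ∑ i, Y i * (C i j * pderiv j (Y l))) := by
          intro j
          have h2 : (- ∑ i, Y i * (C i j * pderiv j (Y l)) : MvPolynomial (Fin (k + 1)) ℂ) =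
              (- ∑ i, Y i * C i j) * pderiv j (Y l) := by
            rw [neg_mul, Finset.sum_mul]
            congr 1
            exact Finset.sum_congr rfl fun i _ => (mul_assoc _ _ _).symm
          rw [pullB_lc, hY, h2, map_mul, Nat.add_sub_cancel, pow_succ]
          ring
        rw [Finset.sum_congr rfl fun j _ => h1 j, ← Finset.mul_sum, ← map_sum,
          Finset.sum_neg_distrib, Finset.sum_comm]
        have h3 : ∀ i : Fin (k + 1), ∑ j, Y i * (C i j * pderiv j (Y l)) =
            if i = l then Y i * u else 0 := by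
          intro i
          rw [← Finset.mul_sum, h.cof i l]
          split_ifs <;> simp
        rw [Finset.sum_congr rfl fun i _ => h3 i, Finset.sum_ite_eq', if_pos (Finset.mem_univ _),
          map_neg, map_mul]
        ring
    · rw [pullB_cl, zero_mul, add_zero]
      refine Fin.lastCases ?_ (fun l => ?_) l
      · rw [if_neg (Fin.castSucc_lt_last i).ne, chart_last]
        exact Finset.sum_eq_zero fun j _ => by rw [hx j, mul_zero]
      · have h1 : ∀ j : Fin (k + 1), pullB Y u C i.castSucc j.castSucc *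
            pderiv j.castSucc (chart Y l.castSucc) =
            X (Fin.last (k + 1)) ^ (k + 1) * rename Fin.castSucc (C i j * pderiv j (Y l)) := by
          intro j
          rw [pullB_cc, hY, map_mul, Nat.add_sub_cancel, pow_succ]
          ring
        rw [Finset.sum_congr rfl fun j _ => h1 j, ← Finset.mul_sum, ← map_sum, h.cof i l]
        by_cases hil : i = l
        · rw [if_pos hil, if_pos (by rw [hil])]
        · rw [if_neg hil, if_neg (fun hc => hil (Fin.castSucc_injective _ hc)), map_zero, mul_zero]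
  · intro i
    rw [Fin.sum_univ_castSucc]
    refine Fin.lastCases ?_ (fun i => ?_) i
    · have h1 : ∀ j : Fin (k + 1), pderiv j.castSucc (pullB Y u C (Fin.last (k + 1)) j.castSucc) =
          X (Fin.last (k + 1)) ^ k * rename Fin.castSucc
            (- ∑ i, (C i j * pderiv j (Y i) + Y i * pderiv j (C i j))) := by
        intro j
        rw [pullB_lc, pull_pderiv_xmul, map_neg, map_sum, Nat.add_sub_cancel]
        congr 3
        refine Finset.sum_congr rfl fun i _ => ?_
        rw [Derivation.leibniz, smul_eq_mul, smul_eq_mul]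
        ring
      rw [Finset.sum_congr rfl fun j _ => h1 j, ← Finset.mul_sum, ← map_sum,
        Finset.sum_neg_distrib, Finset.sum_comm]
      have h3 : ∀ i : Fin (k + 1), ∑ j, (C i j * pderiv j (Y i) + Y i * pderiv j (C i j)) =
          u := by
        intro i
        rw [Finset.sum_add_distrib, ← Finset.mul_sum, h.cof i i, h.div i, if_pos rfl, mul_zero,
          add_zero]
      rw [Finset.sum_congr rfl fun i _ => h3 i, Finset.sum_const, Finset.card_univ,
        Fintype.card_fin, pullB_ll, Derivation.leibniz, pull_pderiv_last, smul_zero, zero_add,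
        Derivation.leibniz_pow, pderiv_X_self, map_neg, map_nsmul]
      simp only [smul_eq_mul, nsmul_eq_mul, mul_one, Nat.add_sub_cancel]
      ring
    · rw [pullB_cl, map_zero, add_zero]
      have h1 : ∀ j : Fin (k + 1), pderiv j.castSucc (pullB Y u C i.castSucc j.castSucc) =
          X (Fin.last (k + 1)) ^ k * rename Fin.castSucc (pderiv j (C i j)) := by
        intro j
        rw [pullB_cc, pull_pderiv_xmul, Nat.add_sub_cancel]
      rw [Finset.sum_congr rfl fun j _ => h1 j, ← Finset.mul_sum, ← map_sum, h.div i, map_zero,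
        mul_zero]

end Pool.Agent.helper92.LC
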