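import Mathlib
import Pool.Agent.helper92.LC.Defs
import Pool.Agent.helper92.LC.Pull

/-!
# Project LC, module CoreMap: the algebraic core of the initial form theorem along a polynomial map

Generalises `Pool.Agent.helper67.IF.Core`; copy and adapt that file.  Uses `Piola.mul_pderiv'` and
`Piola.mul_pderiv` of `Pull` through their stubs.
-/

set_option autoImplicit false

namespace Pool.Agent.helper92.LC

open MvPolynomial
open Pool.Agent.helper67.ND Pool.Agent.helper14.CND Pool.Agent.helper67.IF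

variable {n : ℕ} {a : Fin n → ℕ}

/-- The functional attached to `F0 + g` with the weight shifted by `r`, truncated at `B`. -/
noncomputable def LamR (a : Fin n → ℕ) (N r : ℕ) (G : MvPolynomial (Fin n) ℂ →ₗ[ℂ] ℂ)
    (g : MvPolynomial (Fin n) ℂ) (B j : ℕ) : MvPolynomial (Fin n) ℂ →ₗ[ℂ] ℂ :=
  ∑ k ∈ Finset.range B, ((-1 : ℂ) ^ k / (k.factorial : ℂ)) •
    (G ∘ₗ cmp a (N * (k + j) + r) ∘ₗ LinearMap.mulRight ℂ (g ^ k))

lemma LamR_apply (a : Fin n → ℕ) (N r : ℕ) (G : MvPolynomial (Fin n) ℂ →ₗ[ℂ] ℂ)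
    (g : MvPolynomial (Fin n) ℂ) (B j : ℕ) (φ : MvPolynomial (Fin n) ℂ) :
    LamR a N r G g B j φ = ∑ k ∈ Finset.range B, ((-1 : ℂ) ^ k / (k.factorial : ℂ)) *
      G (cmp a (N * (k + j) + r) (φ * g ^ k)) := by
  simp [LamR, LinearMap.sum_apply]

section LamR

variable {N : ℕ} {f0 g : MvPolynomial (Fin n) ℂ} (hf0 : f0.IsWeightedHomogeneous a N)
  (r : ℕ) (hg : Ge a (N + 1) g)
  {G : MvPolynomial (Fin n) ℂ →ₗ[ℂ] ℂ}

include hg

lemma LamR_ge (B j w : ℕ) (hw : N * j + r < w) (φ : MvPolynomial (Fin n) ℂ) (hφ : Ge a w φ) :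
    LamR a N r G g B j φ = 0 := by
  rw [LamR_apply]
  refine Finset.sum_eq_zero fun k _ => ?_
  have h1 : Ge a (w + k * (N + 1)) (φ * g ^ k) := hφ.mul (hg.pow k)
  rw [h1.cmp_eq_zero (by nlinarith), map_zero, mul_zero]

variable (hG : ∀ (i : Fin n) (φ : MvPolynomial (Fin n) ℂ), G (pderiv i φ) = G (φ * pderiv i f0))

include hf0 hG

lemma LamR_mul (hN : 1 ≤ N) (B j : ℕ) (hB : N * (j + 1) + r + 1 < B)
    (φ : MvPolynomial (Fin n) ℂ) :
    LamR a N r G g B (j + 1) ((f0 + g) * φ) =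
      ((j : ℂ) + ((r : ℂ) + ∑ i, (a i : ℂ)) / N) * LamR a N r G g B j φ := by
  have hNC : (N : ℂ) ≠ 0 := by exact_mod_cast (by omega : N ≠ 0)
  set y : ℕ → ℂ := fun k => G (cmp a (N * (k + j) + r) (φ * g ^ k)) with hy
  have hyB : y B = 0 := by
    have h1 : Ge a (B * (N + 1)) (φ * g ^ B) := by
      have := (Ge.zero φ).mul (hg.pow B)
      rwa [zero_add] at this
    simp only [hy]
    rw [h1.cmp_eq_zero (by nlinarith), map_zero]
  rw [LamR_apply, LamR_apply, Finset.mul_sum]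
  have h2 : ∀ k, G (cmp a (N * (k + (j + 1)) + r) ((f0 + g) * φ * g ^ k)) =
      ((j : ℂ) + ((r : ℂ) + ∑ i, (a i : ℂ)) / N) * y k + (k : ℂ) * y k + y (k + 1) := by
    intro k
    have e1 : (f0 + g) * φ * g ^ k = (φ * g ^ k) * f0 + φ * g ^ (k + 1) := by ring
    have e2 : N * (k + (j + 1)) + r = (N * (k + j) + r) + N := by ring
    have e3 : N * (k + 1 + j) + r = (N * (k + j) + r) + N := by ring
    rw [e1, map_add, map_add]
    simp only [hy]
    rw [e3, e2, G2 hf0 hG hN]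
    push_cast
    field_simp
    ring
  rw [Finset.sum_congr rfl fun k _ => by rw [h2 k]]
  rw [abel_sum B (fun k => ((j : ℂ) + ((r : ℂ) + ∑ i, (a i : ℂ)) / N) * y k) y hyB]
  refine Finset.sum_congr rfl fun k _ => ?_
  ring

lemma LamR_pderiv (B j : ℕ) (hB : N * (j + 1) + r + 1 < B) (i : Fin n)
    (φ : MvPolynomial (Fin n) ℂ) :
    LamR a N r G g B (j + 1) (φ * pderiv i (f0 + g)) = LamR a N r G g B j (pderiv i φ) := by
  set y : ℕ → ℂ := fun k => G (cmp a (N * (k + j) + r) (φ * pderiv i g * g ^ (k - 1))) with hy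
  have hyB : y B = 0 := by
    have h1 : Ge a ((B - 1) * (N + 1)) (φ * pderiv i g * g ^ (B - 1)) := by
      have := (Ge.zero (φ * pderiv i g)).mul (hg.pow (B - 1))
      rwa [zero_add] at this
    simp only [hy]
    obtain ⟨B', rfl⟩ : ∃ B', B = B' + 1 := ⟨B - 1, by omega⟩
    rw [h1.cmp_eq_zero (by simp only [Nat.add_sub_cancel]; nlinarith), map_zero]
  rw [LamR_apply, LamR_apply]
  have h2 : ∀ k, G (cmp a (N * (k + (j + 1)) + r) (φ * pderiv i (f0 + g) * g ^ k)) =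
      G (cmp a (N * (k + j) + r) (pderiv i φ * g ^ k)) + (k : ℂ) * y k + y (k + 1) := by
    intro k
    have e1 : φ * pderiv i (f0 + g) * g ^ k = (φ * g ^ k) * pderiv i f0 +
        φ * pderiv i g * g ^ k := by
      rw [map_add]; ring
    have e2 : N * (k + (j + 1)) + r = (N * (k + j) + r) + N := by ring
    have e3 : N * (k + 1 + j) + r = (N * (k + j) + r) + N := by ring
    rw [e1, map_add, map_add]
    simp only [hy]
    rw [e3, e2, G1 hf0 hG, Nat.add_sub_cancel]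
    congr 1
    rw [Derivation.leibniz, Derivation.leibniz_pow, smul_eq_mul, smul_eq_mul, smul_eq_mul,
      nsmul_eq_mul]
    have e4 : φ * ((k : MvPolynomial (Fin n) ℂ) * (g ^ (k - 1) * pderiv i g)) +
        g ^ k * pderiv i φ = pderiv i φ * g ^ k + (k : ℂ) • (φ * pderiv i g * g ^ (k - 1)) := by
      rw [smul_eq_C_mul, map_natCast]; ring
    rw [e4, map_add, map_add, map_smul, map_smul, smul_eq_mul]
  rw [Finset.sum_congr rfl fun k _ => by rw [h2 k]]
  rw [abel_sum B (fun k => G (cmp a (N * (k + j) + r) (pderiv i φ * g ^ k))) y hyB]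

end LamR

lemma sub_add_Ge {r : ℕ} {J J0 : MvPolynomial (Fin n) ℂ} (hJ0 : J0.IsWeightedHomogeneous a r)
    (hJ : Ge a (r + 1) (J - J0)) : Ge a r J := by
  have h := (Ge.of_homog hJ0).add (hJ.mono (Nat.le_succ r))
  rwa [add_sub_cancel] at h

/-- `aeval Ψ` maps polynomials of order `K` to polynomials of weight `≥ K`. -/
lemma Ge_aeval {Ψ : Fin n → MvPolynomial (Fin n) ℂ} (hΨ : ∀ i, Ge a 1 (Ψ i)) {K : ℕ}
    {φ : MvPolynomial (Fin n) ℂ} (h : Ord K φ) : Ge a K (aeval Ψ φ) := by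
  classical
  have hprod : ∀ (s : Finset (Fin n)) (m : Fin n →₀ ℕ),
      Ge a (∑ i ∈ s, m i) (∏ i ∈ s, Ψ i ^ m i) := by
    intro s m
    induction s using Finset.induction_on with
    | empty => rw [Finset.sum_empty]; exact Ge.zero _
    | insert i s hi ih =>
      rw [Finset.sum_insert hi, Finset.prod_insert hi]
      have h1 := (hΨ i).pow (m i)
      rw [mul_one] at h1
      exact h1.mul ih
  have hsum : ∀ (s : Finset (Fin n →₀ ℕ)) (c : (Fin n →₀ ℕ) → MvPolynomial (Fin n) ℂ),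
      (∀ m ∈ s, Ge a K (c m)) → Ge a K (∑ m ∈ s, c m) := by
    intro s c
    induction s using Finset.induction_on with
    | empty => intro _; rw [Finset.sum_empty]; intro m hm; simp at hm
    | insert m s hm ih =>
      intro hc
      rw [Finset.sum_insert hm]
      exact (hc m (Finset.mem_insert_self _ _)).add
        (ih fun m' hm' => hc m' (Finset.mem_insert_of_mem hm'))
  rw [aeval_def, eval₂_eq']
  refine hsum _ _ fun m hm => ?_
  have h1 := h m hm
  have h2 : Finsupp.weight (fun _ : Fin n => 1) m = ∑ i, m i := by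
    rw [Finsupp.weight_apply, Finsupp.sum_fintype _ _ (by simp)]
    simp
  rw [h2] at h1
  have h3 := (Ge.zero (a := a) (algebraMap ℂ (MvPolynomial (Fin n) ℂ) (coeff m φ))).mul
    (hprod Finset.univ m)
  rw [zero_add] at h3
  exact h3.mono h1

/-- A family of functionals representing the integration of `φ (F0 + g) ^ (s - l)`,
`s = - (r + ∑ a_i) / N`.
PROOF.  As `exists_T` in `Pool.Agent.helper67.IF.Core` (the case `r = 0`) with the weight `N * (k + j)` replaced
everywhere by `N * (k + j) + r`: `Lam' r B j φ = ∑_{k < B} (-1)^k / k! G (cmp a (N * (k + j) + r) (φ g^k))`,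
`Lam' (j+1) ((F0 + g) φ) = (j + (r + ∑ a_i) / N) Lam' j φ`, `Lam' (j+1) (φ ∂_i (F0 + g)) = Lam' j (∂_i φ)`,
`Lam' j φ = 0` if `φ ∈ Ge a w` with `w > N j + r`, `T l = c_l • Lam' l`,
`c_{l+1} (l + (r + ∑ a_i) / N) = c_l`, `c_0 = 1`.  `T 0 J = G J0`: only `k = 0` contributes,
`cmp a r J = J0`. (Take `B = N * (M + 1) + r + 2`.) -/
theorem exists_T_shift (ha : ∀ i, 1 ≤ a i) (hn : 1 ≤ n) {N : ℕ} (hN : 1 ≤ N)
    {F0 g : MvPolynomial (Fin n) ℂ} (hF0 : F0.IsWeightedHomogeneous a N) (hg : Ge a (N + 1) g)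
    {G : MvPolynomial (Fin n) ℂ →ₗ[ℂ] ℂ}
    (hG : ∀ (i : Fin n) (φ : MvPolynomial (Fin n) ℂ), G (pderiv i φ) = G (φ * pderiv i F0))
    (r : ℕ) {J J0 : MvPolynomial (Fin n) ℂ} (hJ0 : J0.IsWeightedHomogeneous a r)
    (hJ : Ge a (r + 1) (J - J0)) (M : ℕ) :
    ∃ T : ℕ → MvPolynomial (Fin n) ℂ →ₗ[ℂ] ℂ,
      (∀ l < M, ∀ φ, T (l + 1) ((F0 + g) * φ) = T l φ) ∧
      (∀ l < M, ∀ i φ, T (l + 1) ((F0 + g) * pderiv i φ +
        C (-((r : ℂ) + ∑ i, (a i : ℂ)) / N - l) * (pderiv i (F0 + g) * φ)) = 0) ∧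
      (∀ φ, T 0 ((F0 + g) * (J * φ)) = 0) ∧ T 0 J = G J0 ∧
      ∀ w φ, N * M + r < w → Ge a w φ → T M φ = 0 := by
  have hNC : (N : ℂ) ≠ 0 := by exact_mod_cast (by omega : N ≠ 0)
  set σ : ℂ := ((r : ℂ) + ∑ i, (a i : ℂ)) / N with hσ
  have hpos : ∀ m : ℕ, (m : ℂ) + σ ≠ 0 := by
    intro m h
    have h1 : ((m * N + (r + ∑ i, a i) : ℕ) : ℂ) = 0 := by
      rw [hσ] at h
      field_simp at h
      push_cast
      linear_combination h
    have h2 : m * N + (r + ∑ i, a i) = 0 := by exact_mod_cast h1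
    have h3 : a ⟨0, hn⟩ ≤ ∑ i, a i :=
      Finset.single_le_sum (fun _ _ => Nat.zero_le _) (Finset.mem_univ (⟨0, hn⟩ : Fin n))
    have := ha ⟨0, hn⟩
    omega
  set c : ℕ → ℂ := fun m => ∏ j ∈ Finset.range m, ((j : ℂ) + σ)⁻¹ with hc
  have hcs : ∀ m, c (m + 1) * ((m : ℂ) + σ) = c m := by
    intro m
    simp only [hc]
    rw [Finset.prod_range_succ, mul_assoc, inv_mul_cancel₀ (hpos m), mul_one]
  set B : ℕ := N * (M + 1) + r + 2 with hB
  have hBm : ∀ m < M, N * (m + 1) + r + 1 < B := by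
    intro m hm
    have h1 : N * (m + 1) ≤ N * (M + 1) := Nat.mul_le_mul_left _ (by omega)
    omega
  have hJr : Ge a r J := sub_add_Ge hJ0 hJ
  refine ⟨fun m => c m • LamR a N r G g B m, ?_, ?_, ?_, ?_, ?_⟩
  · intro m hm φ
    rw [LinearMap.smul_apply, LinearMap.smul_apply, LamR_mul hF0 r hg hG hN B m (hBm m hm),
      smul_eq_mul, smul_eq_mul, ← hcs m]
    ring
  · intro m hm i φ
    have h1 := LamR_mul hF0 r hg hG hN B m (hBm m hm) (pderiv i φ)
    have h2 := LamR_pderiv hF0 r hg hG B m (hBm m hm) i φ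
    have e1 : C (-((r : ℂ) + ∑ i, (a i : ℂ)) / N - m) * (pderiv i (F0 + g) * φ) =
        (-((m : ℂ) + σ)) • (φ * pderiv i (F0 + g)) := by
      rw [smul_eq_C_mul, hσ]
      have : -((r : ℂ) + ∑ i, (a i : ℂ)) / N - m =
          -((m : ℂ) + ((r : ℂ) + ∑ i, (a i : ℂ)) / N) := by ring
      rw [this]; ring
    rw [LinearMap.smul_apply, e1, map_add, map_smul, h1, h2, smul_eq_mul, smul_eq_mul, ← hσ]
    ring
  · intro φ
    have h1 : Ge a (N + (r + 0)) ((F0 + g) * (J * φ)) :=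
      ((Ge.of_homog hF0).add (hg.mono (Nat.le_succ _))).mul (hJr.mul (Ge.zero φ))
    rw [LinearMap.smul_apply, LamR_ge r hg B 0 (N + (r + 0)) (by omega) _ h1, smul_zero]
  · have h1 : (c 0 : ℂ) = 1 := by simp [hc]
    have h2 : cmp a r J = J0 := by
      have e : J = J0 + (J - J0) := by ring
      rw [e, map_add, hJ.cmp_eq_zero (Nat.lt_succ_self r), add_zero]
      exact hJ0.weightedHomogeneousComponent_same
    rw [LinearMap.smul_apply, h1, one_smul, LamR_apply,
      Finset.sum_eq_single_of_mem 0 (Finset.mem_range.2 (by omega))]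
    · simp only [pow_zero, Nat.factorial_zero, Nat.cast_one, div_one, one_mul, mul_one,
        Nat.add_zero, Nat.mul_zero, zero_add]
      rw [h2]
    · intro k _ hk
      have h3 : Ge a (r + k * (N + 1)) (J * g ^ k) := hJr.mul (hg.pow k)
      have hk1 : 1 ≤ k := Nat.one_le_iff_ne_zero.2 hk
      rw [h3.cmp_eq_zero (by nlinarith), map_zero, mul_zero]
  · intro w φ hw hφ
    rw [LinearMap.smul_apply, LamR_ge r hg B M w hw _ hφ, smul_zero]

/-- **The conclusion from the functional equation modulo high order.**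
PROOF.  As `core_alg` in `Pool.Agent.helper67.IF.Core`, with the functionals `L l φ = T l (J * aeval Ψ φ)` on
polynomials in the variables of `P` (`T` from `exists_T_shift` for `aeval Ψ P = F0 + g`):
* `L (l + 1) (P * φ) = L l φ`;
* `L (l + 1) (P * ∂_i φ + C (s - l) * (∂_i P * φ)) = 0`: by `Piola.mul_pderiv'` and `Piola.mul_pderiv`
  `J * aeval Ψ (P * ∂_i φ + C (s - l) * (∂_i P * φ)) = ∑_j ((F0 + g) * ∂_j (B_ij * aeval Ψ φ) +
  C (s - l) * (∂_j (F0 + g) * (B_ij * aeval Ψ φ)))`;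
* `L 0 (P * φ) = 0`, `L 0 1 = G J0`;
* `L M E = 0` for the expression `E` in `h` (`h : Ord K (E * P)`): `aeval Ψ` maps `Ord K` into `Ge a K` (as `Ψ i ∈ Ge a 1`),
  so `aeval Ψ E * (F0 + g) ∈ Ge a K`, hence `aeval Ψ E ∈ Ge a (K - N)` (the argument `hEge` of `core_alg`,
  `F0 ≠ 0`), `J ∈ Ge a r`, and `K - N + r > N M + r`.
Then `β * G J0 = 0` as in `core_alg`. -/
theorem core_map (ha : ∀ i, 1 ≤ a i) (hn : 1 ≤ n) {N : ℕ} (hN : 1 ≤ N)
    {Ψ : Fin n → MvPolynomial (Fin n) ℂ} {J : MvPolynomial (Fin n) ℂ}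
    {B : Fin n → Fin n → MvPolynomial (Fin n) ℂ} (hP : Piola Ψ J B) (hΨ : ∀ i, Ge a 1 (Ψ i))
    {P F0 g : MvPolynomial (Fin n) ℂ} (hPF : aeval Ψ P = F0 + g)
    (hF0 : F0.IsWeightedHomogeneous a N) (hF00 : F0 ≠ 0) (hg : Ge a (N + 1) g)
    {r : ℕ} {J0 : MvPolynomial (Fin n) ℂ} (hJ0 : J0.IsWeightedHomogeneous a r)
    (hJ : Ge a (r + 1) (J - J0)) {G : MvPolynomial (Fin n) ℂ →ₗ[ℂ] ℂ}
    (hG : ∀ (i : Fin n) (φ : MvPolynomial (Fin n) ℂ), G (pderiv i φ) = G (φ * pderiv i F0))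
    (hG1 : G J0 ≠ 0) (M : ℕ) (T : Finset (List (Fin n) × ℕ)) (hT : ∀ t ∈ T, t.1.length ≤ M)
    (A : List (Fin n) × ℕ → MvPolynomial (Fin n) ℂ) (β : ℂ) (K : ℕ) (hK : N * M + N < K)
    (h : Ord K ((∑ t ∈ T, A t * C ((-((r : ℂ) + ∑ i, (a i : ℂ)) / N) ^ t.2) *
      Nw P (-((r : ℂ) + ∑ i, (a i : ℂ)) / N) t.1 * P ^ (M - t.1.length) -
      C β * P ^ M) * P)) : β = 0 := by
  classical
  obtain ⟨L₀, hL1', hL2', hL3', hL4', hL5'⟩ := exists_T_shift ha hn hN hF0 hg hG r hJ0 hJ M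
  have hJr : Ge a r J := sub_add_Ge hJ0 hJ
  set L : ℕ → MvPolynomial (Fin n) ℂ →ₗ[ℂ] ℂ := fun l =>
    L₀ l ∘ₗ LinearMap.mulLeft ℂ J ∘ₗ (aeval Ψ).toLinearMap with hLdef
  have hLap : ∀ l φ, L l φ = L₀ l (J * aeval Ψ φ) := fun l φ => rfl
  set s0 : ℂ := -((r : ℂ) + ∑ i, (a i : ℂ)) / N with hs0
  have hPm : ∀ φ, aeval Ψ (P * φ) = (F0 + g) * aeval Ψ φ := by
    intro φ
    rw [map_mul, hPF]
  have hL1 : ∀ l < M, ∀ φ, L (l + 1) (P * φ) = L l φ := by
    intro l hl φ
    rw [hLap, hLap, hPm, ← hL1' l hl]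
    congr 1
    ring
  have hL2 : ∀ l < M, ∀ i φ, L (l + 1) (P * pderiv i φ +
      C (s0 - l) * (pderiv i P * φ)) = 0 := by
    intro l hl i φ
    have e1 : J * aeval Ψ (P * pderiv i φ + C (s0 - l) * (pderiv i P * φ)) =
        ∑ j, ((F0 + g) * pderiv j (B i j * aeval Ψ φ) +
          C (s0 - l) * (pderiv j (F0 + g) * (B i j * aeval Ψ φ))) := by
      have h1 := hP.mul_pderiv' φ i
      have h2 := hP.mul_pderiv P i
      rw [hPF] at h2
      rw [Finset.sum_add_distrib, ← Finset.mul_sum, ← Finset.mul_sum, ← h1]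
      have h3 : ∑ j, pderiv j (F0 + g) * (B i j * aeval Ψ φ) =
          (∑ j, B i j * pderiv j (F0 + g)) * aeval Ψ φ := by
        rw [Finset.sum_mul]
        exact Finset.sum_congr rfl fun j _ => by ring
      rw [h3, ← h2]
      have h4 : aeval Ψ (C (s0 - l) : MvPolynomial (Fin n) ℂ) =
          (C (s0 - l) : MvPolynomial (Fin n) ℂ) := by
        rw [aeval_C]; rfl
      simp only [map_add, map_mul, hPF, h4]
      ring
    rw [hLap, e1, map_sum]
    exact Finset.sum_eq_zero fun j _ => hL2' l hl j _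
  have hL3 : ∀ φ, L 0 (P * φ) = 0 := by
    intro φ
    rw [hLap, hPm]
    have e1 : J * ((F0 + g) * aeval Ψ φ) = (F0 + g) * (J * aeval Ψ φ) := by ring
    rw [e1]
    exact hL3' _
  have hL4 : L 0 1 = G J0 := by
    rw [hLap, map_one, mul_one]
    exact hL4'
  set E := ∑ t ∈ T, A t * C (s0 ^ t.2) * Nw P s0 t.1 * P ^ (M - t.1.length) - C β * P ^ M with hE
  have h' : Ge a K (aeval Ψ E * (F0 + g)) := by
    have h1 := Ge_aeval hΨ h
    rwa [map_mul, hPF] at h1
  -- `E(Ψ)` has only monomials of high weight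
  have hEge : ∀ w, w + N < K → Ge a w (aeval Ψ E) → Ge a (w + 1) (aeval Ψ E) := by
    intro w hw hwE
    have h1 : cmp a (w + N) (aeval Ψ E * (F0 + g)) = 0 := h'.cmp_eq_zero hw
    rw [mul_add, map_add, cmp_mul_homog w N (aeval Ψ E) F0 hF0] at h1
    have h2 : Ge a (w + (N + 1)) (aeval Ψ E * g) := hwE.mul hg
    rw [h2.cmp_eq_zero (by omega), add_zero] at h1
    have h3 : cmp a w (aeval Ψ E) = 0 := (mul_eq_zero.1 h1).resolve_right hF00
    intro m hm
    have h4 := hwE m hm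
    rcases Nat.eq_or_lt_of_le h4 with h5 | h5
    · exfalso
      have h6 := congrArg (coeff m) h3
      rw [coeff_weightedHomogeneousComponent, if_pos h5.symm, coeff_zero] at h6
      exact (mem_support_iff.1 hm) h6
    · exact h5
  have hEge' : ∀ w, w + N ≤ K → Ge a w (aeval Ψ E) := by
    intro w
    induction w with
    | zero => intro _; exact Ge.zero _
    | succ w ih => intro hw; exact hEge w (by omega) (ih (by omega))
  have hE0 : L M E = 0 := by
    rw [hLap]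
    exact hL5' (r + (K - N)) _ (by omega) (hJr.mul (hEge' (K - N) (by omega)))
  -- powers
  have hpow : ∀ (m j : ℕ) (p : MvPolynomial (Fin n) ℂ), j + m ≤ M →
      L (j + m) (p * P ^ m) = L j p := by
    intro m
    induction m with
    | zero => intro j p _; simp
    | succ m ih =>
      intro j p hj
      have e1 : p * P ^ (m + 1) = P * (p * P ^ m) := by ring
      rw [← add_assoc, e1, hL1 (j + m) (by omega), ih j p (by omega)]
  have hNw : ∀ (w : List (Fin n)) (p : MvPolynomial (Fin n) ℂ), w.length ≤ M →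
      L w.length (p * Nw P s0 w) = 0 := by
    intro w
    induction w with
    | nil =>
      intro p _
      rw [Nw_nil, mul_comm]
      exact hL3 p
    | cons i w ih =>
      intro p hw
      rw [List.length_cons] at hw
      rw [List.length_cons]
      have h1 := hL2 w.length (by omega) i (p * Nw P s0 w)
      have h2 := hL1 w.length (by omega) (pderiv i p * Nw P s0 w)
      rw [ih _ (by omega)] at h2
      have e1 : p * Nw P s0 (i :: w) = (P * pderiv i (p * Nw P s0 w) +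
          C (s0 - w.length) * (pderiv i P * (p * Nw P s0 w))) -
          P * (pderiv i p * Nw P s0 w) := by
        rw [Nw_cons, Derivation.leibniz, smul_eq_mul, smul_eq_mul]
        ring
      rw [e1, map_sub, h1, h2, sub_zero]
  rw [hE, map_sub, map_sum] at hE0
  have h1 : ∑ t ∈ T, L M (A t * C (s0 ^ t.2) * Nw P s0 t.1 * P ^ (M - t.1.length)) = 0 := by
    refine Finset.sum_eq_zero fun t ht => ?_
    have hle := hT t ht
    have e2 : t.1.length + (M - t.1.length) = M := by omega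
    have h2 := hpow (M - t.1.length) t.1.length (A t * C (s0 ^ t.2) * Nw P s0 t.1) (by omega)
    rw [e2] at h2
    rw [h2]
    exact hNw t.1 _ hle
  have h2 : L M (C β * P ^ M) = β * G J0 := by
    have h3 := hpow M 0 (C β) (by omega)
    rw [zero_add] at h3
    rw [h3]
    have e3 : (C β : MvPolynomial (Fin n) ℂ) = β • 1 := by rw [smul_eq_C_mul, mul_one]
    rw [e3, map_smul, hL4, smul_eq_mul]
  rw [h1, h2, zero_sub, neg_eq_zero] at hE0
  exact (mul_eq_zero.1 hE0).resolve_right hG1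

end Pool.Agent.helper92.LC
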