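import Mathlib
import Pool.Agent.helper92.LC.Defs
import Pool.Agent.helper92.LC.CoreMap

/-!
# Project LC, module MapInit: the initial form theorem along a polynomial map

Generalises `initial_form` in `Pool.Agent.helper67.IF.Main`; imports `CoreMap` through its stub.
(author: helper59)
-/

set_option autoImplicit false

namespace Pool.Agent.helper92.LC

open MvPolynomial Filter Topology Asymptotics
open Pool.Agent.helper67.ND Pool.Agent.helper14.CND Pool.Agent.helper67.IF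

variable {n : ℕ}

/-- Along the weighted scaling a polynomial of weight `≥ 1` is `O(‖t‖)`. -/
lemma mapInit_comp_isBigO {a : Fin n → ℕ} {Ψ : Fin n → MvPolynomial (Fin n) ℂ}
    (hΨ : ∀ i, Ge a 1 (Ψ i)) (z : Fin n → ℂ) :
    (fun t : ℂ => (fun i => eval (scal a t z) (Ψ i) : Fin n → ℂ)) =O[𝓝 0]
      (fun t : ℂ => ‖t‖) := by
  rw [isBigO_pi]
  intro i
  have h0 : (scalP a (Ψ i) z).coeff 0 = 0 := by
    rw [coeff_scalP]
    have h1 : cmp a 0 (Ψ i) = 0 := (hΨ i).cmp_eq_zero (by omega)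
    have h2 : weightedHomogeneousComponent a 0 (Ψ i) = 0 := h1
    rw [h2, map_zero]
  obtain ⟨q, hq⟩ := Polynomial.X_dvd_iff.2 h0
  have h3 : (fun t : ℂ => eval (scal a t z) (Ψ i)) = fun t : ℂ => t * q.eval t := by
    funext t
    rw [← eval_scalP, hq, Polynomial.eval_mul, Polynomial.eval_X]
  rw [h3]
  have h4 : (fun t : ℂ => q.eval t) =O[𝓝 0] (fun _ : ℂ => (1 : ℝ)) :=
    (q.continuous.continuousAt (x := (0 : ℂ))).isBigO_one ℝ
  have h5 : (fun t : ℂ => t) =O[𝓝 0] (fun t : ℂ => ‖t‖) :=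
    (isBigO_refl (fun t : ℂ => t) (𝓝 0)).norm_right
  have h6 := h5.mul h4
  simpa only [mul_one] using h6

/-- A germ which is `O(‖y‖ ^ K)` is `O(‖t‖ ^ K)` along the image of the weighted scaling. -/
lemma mapInit_isBigO {a : Fin n → ℕ} {Ψ : Fin n → MvPolynomial (Fin n) ℂ}
    (hΨ : ∀ i, Ge a 1 (Ψ i)) {g : (Fin n → ℂ) → ℂ} {K : ℕ}
    (h : g =O[𝓝 0] (fun z : Fin n → ℂ => ‖z‖ ^ K)) (z : Fin n → ℂ) :
    (fun t : ℂ => g (fun i => eval (scal a t z) (Ψ i))) =O[𝓝 0] (fun t : ℂ => ‖t‖ ^ K) := by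
  have hO := mapInit_comp_isBigO hΨ z
  have ht : Tendsto (fun t : ℂ => (fun i => eval (scal a t z) (Ψ i) : Fin n → ℂ)) (𝓝 0)
      (𝓝 0) := by
    refine hO.trans_tendsto ?_
    have : Tendsto (fun t : ℂ => ‖t‖) (𝓝 0) (𝓝 ‖(0 : ℂ)‖) := continuous_norm.tendsto 0
    rwa [norm_zero] at this
  have h1 := h.comp_tendsto ht
  refine h1.trans ?_
  have h2 := hO.norm_left.pow K
  exact h2

/-- Evaluation of a composition with a polynomial map. -/
lemma mapInit_eval_aeval (Ψ : Fin n → MvPolynomial (Fin n) ℂ) (P : MvPolynomial (Fin n) ℂ)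
    (ξ : Fin n → ℂ) : eval ξ (aeval Ψ P) = eval (fun i => eval ξ (Ψ i)) P := by
  induction P using MvPolynomial.induction_on with
  | C c => rw [aeval_C]; simp
  | add p q hp hq => simp only [map_add, hp, hq]
  | mul_X p i hp => simp only [map_mul, hp, aeval_X, eval_X]

/-- **Initial form theorem along a polynomial map.**  `Ψ` is a polynomial map with `Ψ(0) = 0`, `J` its
Jacobian determinant, with initial form `J0` of weight `r`; `f ∘ Ψ` has the initial form `F0` of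
weight `N` and `G` is a Stokes functional of `F0` with `G J0 ≠ 0`.  Then `- (r + ∑ a_i) / N` is a root.
PROOF.  As `initial_form` in `Pool.Agent.helper67.IF.Main` (`Ψ = id`): choose a polynomial `P` approximating `f`
to order `K + M` with `K = N * M + N + 1` (make it larger if convenient, at least `N + 1`), polynomials `Q t`
approximating the coefficients, and apply `core_map`; `aeval Ψ P - F0 ∈ Ge a (N + 1)` follows from
`Ge_of_scal`, `eval ξ (aeval Ψ P) = eval (fun i => eval ξ (Ψ i)) P`, `hin` and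
`f (Ψ ξ) - P (Ψ ξ) = O(‖Ψ ξ‖^K)`, `‖Ψ (scal a t z)‖ = O(|t|)` (`hΨ`).  The hypothesis `h` of `core_map` is
`Ge_of_scal` for the weights `1`, exactly as at the end of the proof of `initial_form`. -/
theorem initial_form_map (hn : 1 ≤ n) {a : Fin n → ℕ} (ha : ∀ i, 1 ≤ a i) {N : ℕ} (hN : 1 ≤ N)
    {f : (Fin n → ℂ) → ℂ} (hf : AnalyticAt ℂ f 0)
    {Ψ : Fin n → MvPolynomial (Fin n) ℂ} {J : MvPolynomial (Fin n) ℂ}
    {B : Fin n → Fin n → MvPolynomial (Fin n) ℂ} (hP : Piola Ψ J B) (hΨ : ∀ i, Ge a 1 (Ψ i))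
    {F0 : MvPolynomial (Fin n) ℂ} (hF0 : F0.IsWeightedHomogeneous a N) (hF00 : F0 ≠ 0)
    (hin : HasInitialForm a N (fun ξ => f (fun i => eval ξ (Ψ i))) F0)
    {r : ℕ} {J0 : MvPolynomial (Fin n) ℂ} (hJ0 : J0.IsWeightedHomogeneous a r)
    (hJ : Ge a (r + 1) (J - J0)) {G : MvPolynomial (Fin n) ℂ →ₗ[ℂ] ℂ}
    (hG : ∀ (i : Fin n) (φ : MvPolynomial (Fin n) ℂ), G (pderiv i φ) = G (φ * pderiv i F0))
    (hG1 : G J0 ≠ 0) {b : Polynomial ℂ} (hb : IsBernstein f b) :
    b.eval (-((r : ℂ) + ∑ i, (a i : ℂ)) / N) = 0 := by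
  obtain ⟨T, A, M, hA, hlen, hid⟩ := bernstein_identity hf hb
  set s : ℂ := -((r : ℂ) + ∑ i, (a i : ℂ)) / N with hs
  set K : ℕ := N * M + N + 1 with hK
  obtain ⟨P, hPa⟩ := Apx.exists hf (K + M)
  have hA' : ∀ t : List (Fin n) × ℕ, ∃ Q : MvPolynomial (Fin n) ℂ, t ∈ T → Apx K (A t) Q := by
    intro t
    by_cases ht : t ∈ T
    · obtain ⟨Q, hQ⟩ := Apx.exists (hA t ht) K
      exact ⟨Q, fun _ => hQ⟩
    · exact ⟨0, fun h => absurd h ht⟩
  choose Q hQ using hA'
  have hg : Ge a (N + 1) (aeval Ψ P - F0) := by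
    refine Ge_of_scal (N + 1) _ fun z => ?_
    have h1 : (fun t : ℂ => f (fun i => eval (scal a t z) (Ψ i)) -
        eval (fun i => eval (scal a t z) (Ψ i)) P) =O[𝓝 0] (fun t : ℂ => ‖t‖ ^ (N + 1)) := by
      refine mapInit_isBigO hΨ (g := fun z => f z - eval z P) ?_ z
      exact hPa.2.trans (isBigO_norm_pow_mono (by
        have : N * 0 ≤ N * M := Nat.mul_le_mul_left _ (Nat.zero_le _)
        omega))
    have h2 := hin z
    refine (h2.sub h1).congr_left fun t => ?_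
    have e : (fun i => t ^ a i * z i) = scal a t z := rfl
    rw [map_sub, eval_scal_homog hF0, mapInit_eval_aeval]
    simp only [e]
    ring
  have hPf : aeval Ψ P = F0 + (aeval Ψ P - F0) := by ring
  refine core_map ha hn hN hP hΨ hPf hF0 hF00 hg hJ0 hJ hG hG1 M T hlen Q (b.eval s) K
    (by omega) ?_
  rw [← hs]
  have h5 : Apx K (fun z => (∑ t ∈ T, A t z * s ^ t.2 * Nf f s t.1 z * f z ^ (M - t.1.length) -
          b.eval s * f z ^ M) * f z) ((∑ t ∈ T, Q t * C (s ^ t.2) *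
      Nw P s t.1 * P ^ (M - t.1.length) - C (b.eval s) * P ^ M) * P) := by
    have hfP : Apx K f P := hPa.mono (by omega)
    refine (((Apx.sum T fun t ht => ?_).sub ((Apx.const K _).mul (hfP.pow M)))).mul hfP
    refine (((hQ t ht).mul (Apx.const K _)).mul (Nf_apx s t.1 K (hPa.mono ?_))).mul (hfP.pow _)
    have := hlen t ht
    omega
  refine Ge_of_scal K _ fun z => ?_
  have h6 : (fun y : Fin n → ℂ => eval y ((∑ t ∈ T, Q t * C (s ^ t.2) *
      Nw P s t.1 * P ^ (M - t.1.length) - C (b.eval s) * P ^ M) * P)) =O[𝓝 0]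
      (fun y : Fin n → ℂ => ‖y‖ ^ K) := by
    refine h5.2.neg_left.congr' ?_ EventuallyEq.rfl
    filter_upwards [hid s] with y hy
    rw [hy]; ring
  exact isBigO_scal (fun _ => le_rfl) h6 z

end Pool.Agent.helper92.LC
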