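import Mathlib
import Pool.Agent.helper92.LC.Defs

/-!
# Project LC, module ChartInit: the initial form of a Lê-Yomdin germ in the chart of the blow-up

Independent of the other modules (only Defs).
-/

set_option autoImplicit false

namespace Pool.Agent.helper92.LC

open MvPolynomial Filter Topology Asymptotics
open Pool.Agent.helper67.ND Pool.Agent.helper67.IF

variable {m : ℕ}

/-- The weights: `N` for the variable `x` of the exceptional divisor, `k a_i` for the others. -/
def wt (k N : ℕ) (a : Fin m → ℕ) : Fin (m + 1) → ℕ :=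
  Fin.lastCases (motive := fun _ => ℕ) N fun i => k * a i

lemma ChartInit_wt_last (k N : ℕ) (a : Fin m → ℕ) : wt k N a (Fin.last m) = N := by
  simp [wt]

lemma ChartInit_wt_castSucc (k N : ℕ) (a : Fin m → ℕ) (i : Fin m) :
    wt k N a i.castSucc = k * a i := by
  simp [wt]

lemma ChartInit_rename {k N : ℕ} {a : Fin m → ℕ} {g : MvPolynomial (Fin m) ℂ}
    (hg : g.IsWeightedHomogeneous a N) :
    (rename Fin.castSucc g : MvPolynomial (Fin (m + 1)) ℂ).IsWeightedHomogeneous (wt k N a)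
      (k * N) := by
  intro u hu
  obtain ⟨v, hv, hc⟩ := coeff_rename_ne_zero _ _ _ hu
  have h1 := hg hc
  rw [← hv, ← h1, Finsupp.weight_apply, Finsupp.weight_apply,
    Finsupp.sum_mapDomain_index (by simp) (by intro b m1 m2; rw [add_smul]), Finsupp.sum,
    Finsupp.sum, Finset.mul_sum]
  refine Finset.sum_congr rfl fun i _ => ?_
  rw [ChartInit_wt_castSucc, smul_eq_mul, smul_eq_mul]
  ring

/-- Homogeneity of the initial form. -/
theorem wt_homog {k N d : ℕ} {a : Fin m → ℕ} {g : MvPolynomial (Fin m) ℂ}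
    (hg : g.IsWeightedHomogeneous a N) (κ : ℂ) :
    (X (Fin.last m) ^ d * (rename Fin.castSucc g + C κ * X (Fin.last m) ^ k) :
      MvPolynomial (Fin (m + 1)) ℂ).IsWeightedHomogeneous (wt k N a) ((d + k) * N) := by
  have h0 : ∀ e : ℕ, (X (Fin.last m) ^ e : MvPolynomial (Fin (m + 1)) ℂ).IsWeightedHomogeneous
      (wt k N a) (e * N) := by
    intro e
    have h1 := (isWeightedHomogeneous_X ℂ (wt k N a) (Fin.last m)).pow e
    rw [ChartInit_wt_last, smul_eq_mul] at h1
    exact h1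
  have h2 : (C κ * X (Fin.last m) ^ k : MvPolynomial (Fin (m + 1)) ℂ).IsWeightedHomogeneous
      (wt k N a) (k * N) := by
    have h3 := (isWeightedHomogeneous_C (wt k N a) κ).mul (h0 k)
    rwa [zero_add] at h3
  have h4 := (h0 d).mul ((ChartInit_rename (k := k) hg).add h2)
  rw [add_mul]
  exact h4

lemma ChartInit_pow_mono {N N' : ℕ} (h : N' ≤ N) :
    (fun t : ℂ => ‖t‖ ^ N) =O[𝓝 0] (fun t : ℂ => ‖t‖ ^ N') := by
  refine IsBigO.of_bound 1 ?_
  filter_upwards [Metric.ball_mem_nhds (0 : ℂ) one_pos] with t ht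
  have ht' : ‖t‖ ≤ 1 := by simpa using (mem_ball_zero_iff.1 ht).le
  rw [one_mul, norm_pow, norm_pow, norm_norm]
  exact pow_le_pow_of_le_one (norm_nonneg _) ht' h

lemma ChartInit_pow (N : ℕ) : (fun t : ℂ => t ^ N) =O[𝓝 0] (fun t : ℂ => ‖t‖ ^ N) := by
  refine IsBigO.of_bound 1 (Eventually.of_forall fun t => ?_)
  simp

lemma ChartInit_pow_mul_sub (N : ℕ) {φ : ℂ → ℂ} (hφ : DifferentiableAt ℂ φ 0) :
    (fun t : ℂ => t ^ N * (φ t - φ 0)) =O[𝓝 0] (fun t : ℂ => ‖t‖ ^ (N + 1)) := by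
  have h1 : (fun t => φ t - φ 0) =O[𝓝 0] (fun t : ℂ => t - 0) := hφ.isBigO_sub
  have h3 : (fun t : ℂ => t - 0) =O[𝓝 0] (fun t : ℂ => ‖t‖) := by
    refine IsBigO.of_bound 1 (Eventually.of_forall fun t => ?_)
    simp
  simpa [pow_succ] using (ChartInit_pow N).mul (h1.trans h3)

lemma ChartInit_ge {n w : ℕ} {b : Fin n → ℕ} {φ : MvPolynomial (Fin n) ℂ} (h : Ge b w φ)
    (z : Fin n → ℂ) :
    (fun t : ℂ => eval (scal b t z) φ) =O[𝓝 0] (fun t : ℂ => ‖t‖ ^ w) := by
  have h1 : (fun t : ℂ => eval (scal b t z) φ) = fun t : ℂ =>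
      ∑ u ∈ φ.support, (coeff u φ * ∏ i, z i ^ u i) * t ^ (Finsupp.weight b u) := by
    funext t
    rw [← eval_scalP, scalP, Polynomial.eval_finsetSum]
    refine Finset.sum_congr rfl fun u _ => ?_
    simp only [Polynomial.eval_mul, Polynomial.eval_C, Polynomial.eval_pow, Polynomial.eval_X]
  rw [h1]
  have h2 : ∀ u ∈ φ.support, (fun t : ℂ => (coeff u φ * ∏ i, z i ^ u i) *
      t ^ (Finsupp.weight b u)) =O[𝓝 0] (fun t : ℂ => ‖t‖ ^ w) := fun u hu =>
    ((ChartInit_pow (Finsupp.weight b u)).trans (ChartInit_pow_mono (h u hu))).const_mul_left _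
  have h3 := IsBigO.sum h2
  refine h3.congr_left fun t => ?_
  rw [Finset.sum_apply]

/-- **Initial form in the chart.**  `f = f0 + h + O(|z|^(d+k+1))`, `Ψ = chart (Y + q)`.
PROOF.  Fix `ξ = (η, x)`, put `η_t = (t^(k a_i) η_i)`, `x_t = t^N x`, `w_t = Y(η_t) + q` (a polynomial in `t`,
bounded near `t = 0`), so that `Ψ(scal ξ) = x_t (w_t, 1)` and
`f(Ψ) = f0(Ψ) + h(Ψ) + O(|Ψ|^(d+k+1))` with `|Ψ| = O(|t|^N)`, `N (d + k + 1) ≥ (d + k) N + 1`.
`f0(Ψ) = x_t^d f0(w_t, 1) = t^(dN) x^d (F^q(Y(η_t)))` with `F^q = tr q (dh f0)` (`eval_dh`, `eval_tr`), and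
`F^q(Y(η)) = g(η) + R(η)`, `R ∈ Ord (N + 1)`, so this is `t^(dN + kN) x^d g(η) + t^(dN) O(|t|^(k (N + 1)))`
(every monomial of `R` has degree `≥ N + 1` and `a_i ≥ 1`), and `dN + k(N+1) ≥ (d + k) N + 1`.
`h(Ψ) = t^((d+k)N) x^(d+k) h(w_t, 1)` and `h(w_t, 1) = h(q, 1) + O(|t|)` (polynomial in `t` with value
`h(q, 1)` at `t = 0`, as `Y(0) = 0`, `k a_i ≥ 1`; see `pow_mul_sub_isBigO` in
`Pool.Agent.helper67.LY.Init`).  The target is `t^((d+k)N) x^d (g(η) + κ x^k)`, `κ = h(q, 1)`. -/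
theorem chart_init {d k : ℕ} (hk : 1 ≤ k) {f0 h : MvPolynomial (Fin (m + 1)) ℂ}
    (hf0 : f0.IsHomogeneous d) (hh : h.IsHomogeneous (d + k)) {f : (Fin (m + 1) → ℂ) → ℂ}
    (hO : (fun z => f z - (eval z f0 + eval z h)) =O[𝓝 0]
      (fun z : Fin (m + 1) → ℂ => ‖z‖ ^ (d + k + 1)))
    {q : Fin m → ℂ} {Y : Fin m → MvPolynomial (Fin m) ℂ} (hY : ∀ i, Ord 1 (Y i))
    {a : Fin m → ℕ} {N : ℕ} (ha : ∀ i, 1 ≤ a i) (hN : 1 ≤ N) {g : MvPolynomial (Fin m) ℂ}
    (hg : g.IsWeightedHomogeneous a N) (hFY : Ord (N + 1) (aeval Y (tr q (dh f0)) - g)) :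
    HasInitialForm (wt k N a) ((d + k) * N)
      (fun ξ => f (fun i => eval ξ (chart (fun j => Y j + C (q j)) i)))
      (X (Fin.last m) ^ d * (rename Fin.castSucc g + C (eval (pt q) h) * X (Fin.last m) ^ k)) := by
  intro ξ
  set x : ℂ := ξ (Fin.last m) with hx
  set η : Fin m → ℂ := fun i => ξ i.castSucc with hη
  -- the small variables
  set b : Fin m → ℕ := fun i => k * a i with hb
  have hb1 : ∀ i, 1 ≤ b i := fun i => Nat.mul_pos hk (ha i)
  set W : ℂ → Fin m → ℂ := fun t i => eval (scal b t η) (Y i) + q i with hW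
  set Ψ : ℂ → Fin (m + 1) → ℂ := fun t => scal (fun _ => 1) (t ^ N * x) (pt (W t)) with hΨ
  have hchart : ∀ t : ℂ, (fun i => eval (fun i => t ^ wt k N a i * ξ i)
      (chart (fun j => Y j + C (q j)) i)) = Ψ t := by
    intro t
    funext i
    refine Fin.lastCases ?_ (fun i => ?_) i
    · rw [chart_last, eval_X, ChartInit_wt_last, hΨ]
      simp only [scal, pt_last, pow_one, mul_one]
      rfl
    · rw [chart_castSucc, map_mul, eval_X, ChartInit_wt_last, eval_rename, map_add, eval_C, hΨ]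
      simp only [scal, pt_castSucc, pow_one]
      have e1 : ((fun i => t ^ wt k N a i * ξ i) ∘ Fin.castSucc) = scal b t η := by
        funext j
        simp only [Function.comp_apply, ChartInit_wt_castSucc, scal, hb, hη]
      rw [e1]
  -- differentiability
  have hscal : ∀ i, DifferentiableAt ℂ (fun t : ℂ => scal b t η i) 0 := by
    intro i
    change DifferentiableAt ℂ (fun t : ℂ => t ^ b i * η i) 0
    fun_prop
  have hscal0 : scal b 0 η = 0 := by
    funext i
    simp only [scal, Pi.zero_apply]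
    rw [zero_pow (by have := hb1 i; omega), zero_mul]
  have hWd : ∀ i, DifferentiableAt ℂ (fun t : ℂ => W t i) 0 := by
    intro i
    have h1 : DifferentiableAt ℂ (fun y : Fin m → ℂ => eval y (Y i)) (scal b 0 η) :=
      (analyticAt_eval (Y i) _).differentiableAt
    have h2 : DifferentiableAt ℂ (fun t : ℂ => scal b t η) 0 := differentiableAt_pi.2 hscal
    exact (DifferentiableAt.comp (𝕜 := ℂ) (g := fun y : Fin m → ℂ => eval y (Y i))
      (f := fun t : ℂ => scal b t η) 0 h1 h2).add_const _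
  have hPd : DifferentiableAt ℂ (fun t : ℂ => pt (W t)) 0 := by
    refine differentiableAt_pi.2 fun i => ?_
    refine Fin.lastCases ?_ (fun i => ?_) i
    · simp [pt_last]
    · simp only [pt_castSucc]
      exact hWd i
  have hW0 : W 0 = q := by
    funext i
    have h1 : eval (scal b 0 η) (Y i) = 0 := by
      rw [hscal0]
      have h2 : coeff 0 (Y i) = 0 := by
        by_contra hne
        have h3 := hY i 0 (mem_support_iff.2 hne)
        simp at h3
      have h4 : eval (0 : Fin m → ℂ) (Y i) = constantCoeff (Y i) := by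
        rw [eval_zero]
      rw [h4]
      exact h2
    simp only [hW, h1, zero_add]
  -- first form
  have hf : ∀ t, eval (Ψ t) f0 = (t ^ N * x) ^ d *
      (t ^ (k * N) * eval η g + eval (scal b t η) (aeval Y (tr q (dh f0)) - g)) := by
    intro t
    have hf0' : f0.IsWeightedHomogeneous (fun _ => 1) d := hf0
    rw [hΨ]
    simp only []
    rw [eval_scal_homog hf0', ← eval_dh]
    congr 1
    have e1 : eval (scal b t η) g = t ^ (k * N) * eval η g := by
      have e2 : scal b t η = scal a (t ^ k) η := by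
        funext i
        simp only [scal, hb, pow_mul]
      rw [e2, eval_scal_homog hg, ← pow_mul]
    rw [map_sub, e1]
    have e3 : eval (scal b t η) (aeval Y (tr q (dh f0))) = eval (W t) (dh f0) := by
      have e4 : ∀ P : MvPolynomial (Fin m) ℂ, eval (scal b t η) (aeval Y P) =
          eval (fun i => eval (scal b t η) (Y i)) P := by
        intro P
        induction P using MvPolynomial.induction_on with
        | C c => simp
        | add p r hp hr => simp only [map_add, hp, hr]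
        | mul_X p i hp => rw [map_mul, map_mul, hp, map_mul, aeval_X, eval_X]
      rw [e4, eval_tr]
    rw [e3]
    ring
  -- second form
  have hhf : ∀ t, eval (Ψ t) h = (t ^ N * x) ^ (d + k) * eval (pt (W t)) h := by
    intro t
    have hh' : h.IsWeightedHomogeneous (fun _ => 1) (d + k) := hh
    rw [hΨ]
    simp only []
    rw [eval_scal_homog hh']
  -- the three error terms
  have hE1 : (fun t : ℂ => (t ^ N * x) ^ d *
      eval (scal b t η) (aeval Y (tr q (dh f0)) - g)) =O[𝓝 0]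
      (fun t : ℂ => ‖t‖ ^ ((d + k) * N + 1)) := by
    have h1 : Ge b (k * (N + 1)) (aeval Y (tr q (dh f0)) - g) := by
      intro u hu
      have h2 := hFY u hu
      rw [Finsupp.weight_apply, Finsupp.sum] at h2 ⊢
      refine (Nat.mul_le_mul_left k h2).trans ?_
      rw [Finset.mul_sum]
      refine Finset.sum_le_sum fun i _ => ?_
      simp only [smul_eq_mul, mul_one, hb]
      have := ha i
      calc k * u i = u i * (k * 1) := by ring
        _ ≤ u i * (k * a i) := Nat.mul_le_mul_left _ (Nat.mul_le_mul_left _ this)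
    have h2 := ChartInit_ge h1 η
    have h3 : (fun t : ℂ => (t ^ N * x) ^ d) =O[𝓝 0] (fun t : ℂ => ‖t‖ ^ (N * d)) := by
      have h4 := (ChartInit_pow (N * d)).const_mul_left (x ^ d)
      refine h4.congr_left fun t => ?_
      rw [mul_pow, ← pow_mul]
      ring
    have h5 := h3.mul h2
    have h6 : (fun t : ℂ => ‖t‖ ^ (N * d) * ‖t‖ ^ (k * (N + 1))) =O[𝓝 0]
        (fun t : ℂ => ‖t‖ ^ ((d + k) * N + 1)) := by
      simp only [← pow_add]
      refine ChartInit_pow_mono ?_
      nlinarith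
    exact h5.trans h6
  have hE2 : (fun t : ℂ => x ^ (d + k) * (t ^ ((d + k) * N) *
      (eval (pt (W t)) h - eval (pt q) h))) =O[𝓝 0]
      (fun t : ℂ => ‖t‖ ^ ((d + k) * N + 1)) := by
    have h1 : DifferentiableAt ℂ (fun t : ℂ => eval (pt (W t)) h) 0 :=
      DifferentiableAt.comp (𝕜 := ℂ) (g := fun y : Fin (m + 1) → ℂ => eval y h)
        (f := fun t : ℂ => pt (W t)) 0 (analyticAt_eval h _).differentiableAt hPd
    have h2 := (ChartInit_pow_mul_sub ((d + k) * N) h1).const_mul_left (x ^ (d + k))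
    simp only [hW0] at h2
    exact h2
  have hE3 : (fun t : ℂ => f (Ψ t) - (eval (Ψ t) f0 + eval (Ψ t) h)) =O[𝓝 0]
      (fun t : ℂ => ‖t‖ ^ ((d + k) * N + 1)) := by
    have hΨn : ∀ t, ‖Ψ t‖ = ‖t‖ ^ N * (‖x‖ * ‖pt (W t)‖) := by
      intro t
      have e1 : Ψ t = (t ^ N * x) • pt (W t) := by
        funext i
        simp only [hΨ, scal, pow_one, Pi.smul_apply, smul_eq_mul]
      rw [e1, norm_smul, norm_mul, norm_pow, mul_assoc]
    have hPc : ContinuousAt (fun t : ℂ => ‖x‖ * ‖pt (W t)‖) 0 :=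
      continuousAt_const.mul hPd.continuousAt.norm
    have hbd : (fun t : ℂ => ‖x‖ * ‖pt (W t)‖) =O[𝓝 0] (fun _ : ℂ => (1 : ℝ)) :=
      hPc.isBigO_one ℝ
    have h1 : (fun t : ℂ => ‖Ψ t‖) =O[𝓝 0] (fun t : ℂ => ‖t‖ ^ N) := by
      have h2 : (fun t : ℂ => ‖t‖ ^ N) =O[𝓝 0] (fun t : ℂ => ‖t‖ ^ N) := isBigO_refl _ _
      have h3 := h2.mul hbd
      simp only [mul_one] at h3
      exact h3.congr_left fun t => (hΨn t).symm
    have h0 : Tendsto Ψ (𝓝 0) (𝓝 0) := by
      rw [tendsto_zero_iff_norm_tendsto_zero]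
      have h4 : Tendsto (fun t : ℂ => ‖t‖ ^ N) (𝓝 0) (𝓝 0) := by
        have h5 : ContinuousAt (fun t : ℂ => ‖t‖ ^ N) 0 := by fun_prop
        have h6 := h5.tendsto
        rw [norm_zero, zero_pow (by omega)] at h6
        exact h6
      exact h1.trans_tendsto h4
    have h7 := (hO.comp_tendsto h0).trans (h1.pow (d + k + 1))
    refine h7.trans ?_
    have h8 : (fun t : ℂ => (‖t‖ ^ N) ^ (d + k + 1)) = fun t : ℂ => ‖t‖ ^ (N * (d + k + 1)) := by
      funext t
      rw [pow_mul]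
    rw [h8]
    refine ChartInit_pow_mono ?_
    nlinarith
  refine ((hE3.add hE1).add hE2).congr_left fun t => ?_
  change _ = f (fun i => eval (fun i => t ^ wt k N a i * ξ i)
      (chart (fun j => Y j + C (q j)) i)) - _
  rw [hchart, hf, hhf]
  have e5 : eval ξ (X (Fin.last m) ^ d * (rename Fin.castSucc g +
      C (eval (pt q) h) * X (Fin.last m) ^ k)) = x ^ d * (eval η g + eval (pt q) h * x ^ k) := by
    rw [map_mul, map_pow, eval_X, map_add, eval_rename, map_mul, eval_C, map_pow, eval_X]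
    rfl
  rw [e5]
  have e6 : t ^ ((d + k) * N) = (t ^ N) ^ d * (t ^ N) ^ k := by
    rw [← pow_add, ← pow_mul, mul_comm]
  have e7 : t ^ (k * N) = (t ^ N) ^ k := by rw [← pow_mul, mul_comm]
  rw [e6, e7, mul_pow, mul_pow, pow_add, pow_add]
  ring

end Pool.Agent.helper92.LC
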