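import Mathlib
import Pool.Agent.helper92.LC.Defs

/-!
# Project LC, module Chain: existence of a Stokes functional by shortening chains

Independent of the other modules (only Defs).
-/

set_option autoImplicit false

namespace Pool.Agent.helper92.LC

open MvPolynomial
open Pool.Agent.helper67.IF

variable {n : ℕ}

/-- `HasStokes f0` means that `1` is not of the form `∑_i (∂_i φ_i - φ_i ∂_i f0)`.
PROOF.  Let `V` be the subspace (over `ℂ`) of all such sums (range of a linear map on
`Fin n → MvPolynomial`).  If `1 ∉ V`, there is a linear functional `G` with `G 1 ≠ 0` and `V ≤ ker G`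
(`Submodule.exists_le_ker_of_notMem` or `Submodule.exists_dual_map_eq_bot_of_notMem`); apply it to
`φ = Pi.single i φ`. -/
theorem hasStokes_of_notMem (f0 : MvPolynomial (Fin n) ℂ)
    (h : ∀ φ : Fin n → MvPolynomial (Fin n) ℂ,
      ∑ i, (pderiv i (φ i) - φ i * pderiv i f0) ≠ 1) : HasStokes f0 := by
  classical
  let T : (Fin n → MvPolynomial (Fin n) ℂ) →ₗ[ℂ] MvPolynomial (Fin n) ℂ :=
    { toFun := fun φ => ∑ i, (pderiv i (φ i) - φ i * pderiv i f0)
      map_add' := by
        intro φ ψ
        rw [← Finset.sum_add_distrib]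
        refine Finset.sum_congr rfl fun i _ => ?_
        rw [Pi.add_apply, map_add]
        ring
      map_smul' := by
        intro c φ
        rw [RingHom.id_apply, Finset.smul_sum]
        refine Finset.sum_congr rfl fun i _ => ?_
        rw [Pi.smul_apply, (pderiv i).map_smul, smul_sub, smul_mul_assoc] }
  have hT : ∀ φ, T φ = ∑ i, (pderiv i (φ i) - φ i * pderiv i f0) := fun _ => rfl
  have h1 : (1 : MvPolynomial (Fin n) ℂ) ∉ LinearMap.range T := by
    rintro ⟨φ, hφ⟩
    exact h φ ((hT φ).symm.trans hφ)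
  obtain ⟨G, hG1, hG⟩ := Submodule.exists_le_ker_of_notMem h1
  refine ⟨G, fun i φ => ?_, hG1⟩
  have h2 : T (Pi.single i φ) = pderiv i φ - φ * pderiv i f0 := by
    rw [hT, Finset.sum_eq_single i]
    · rw [Pi.single_eq_same]
    · intro j _ hj
      rw [Pi.single_eq_of_ne hj, map_zero, zero_mul, sub_zero]
    · intro hi
      exact absurd (Finset.mem_univ i) hi
  have h3 : G (T (Pi.single i φ)) = 0 := hG (LinearMap.mem_range_self T _)
  rw [h2, map_sub, sub_eq_zero] at h3
  exact h3

lemma chain_anti_sum (F : Fin n → Fin n → MvPolynomial (Fin n) ℂ) (hF : ∀ i k, F i k = - F k i) :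
    ∑ i, ∑ k, F i k = 0 := by
  have h1 : ∑ i, ∑ k, F i k = - ∑ i, ∑ k, F i k := by
    conv_lhs => rw [Finset.sum_comm]
    rw [← Finset.sum_neg_distrib]
    refine Finset.sum_congr rfl fun i _ => ?_
    rw [← Finset.sum_neg_distrib]
    exact Finset.sum_congr rfl fun k _ => hF k i
  exact self_eq_neg.1 h1

lemma chain_pderiv_comm (i k : Fin n) (φ : MvPolynomial (Fin n) ℂ) :
    pderiv i (pderiv k φ) = pderiv k (pderiv i φ) := by
  classical
  by_cases hik : i = k
  · rw [hik]
  · ext m
    rw [coeff_pderiv, coeff_pderiv, coeff_pderiv, coeff_pderiv, Finsupp.add_apply,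
      Finsupp.add_apply, Finsupp.single_eq_of_ne (Ne.symm hik), Finsupp.single_eq_of_ne hik,
      add_right_comm m]
    push_cast
    ring

/-- **A Koszul field can be replaced by its divergence.**
If `h = b · ∇f0` with `b` antisymmetric and `u_k = ∑_i ∂_i b_ik`, then `div h = ∑_k u_k ∂_k f0` and
`div u = 0`.  If `h_i` is homogeneous of weight `(j+1) N + a_i`, then `b_ik` may be taken homogeneous of weight
`j N + a_i + a_k` and then `u_k` is homogeneous of weight `j N + a_k`.
PROOF.  `∂_k f0` is homogeneous of weight `N - a_k` (`IsWeightedHomogeneous.pderiv`), so taking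
components of weight `(j+1) N + a_i = (j N + a_i + a_k) + (N - a_k)` in `h_i = ∑_k b_ik ∂_k f0`
(`cmp_mul_homog` in `Pool.Agent.helper67.IF.Core`) we may replace `b_ik` by
`cmp a (j N + a_i + a_k) (b_ik)`, still antisymmetric.  `div h = ∑_{i,k} (∂_i b_ik) ∂_k f0 +
∑_{i,k} b_ik ∂_i ∂_k f0`, the second sum vanishes (antisymmetric times symmetric);
`div u = ∑_{i,k} ∂_k ∂_i b_ik = 0` for the same reason. -/
theorem kos_shorten {a : Fin n → ℕ} {N : ℕ} (haN : ∀ i, a i ≤ N)
    {f0 : MvPolynomial (Fin n) ℂ} (hf0 : f0.IsWeightedHomogeneous a N) (j : ℕ)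
    (h : Fin n → MvPolynomial (Fin n) ℂ)
    (hh : ∀ i, (h i).IsWeightedHomogeneous a ((j + 1) * N + a i))
    (hk : IsKos (fun i => pderiv i f0) h) :
    ∃ u : Fin n → MvPolynomial (Fin n) ℂ, (∀ k, (u k).IsWeightedHomogeneous a (j * N + a k)) ∧
      ∑ i, pderiv i (h i) = ∑ k, u k * pderiv k f0 ∧ ∑ k, pderiv k (u k) = 0 := by
  classical
  obtain ⟨b0, hb0, hh0⟩ := hk
  set b : Fin n → Fin n → MvPolynomial (Fin n) ℂ :=
    fun i k => cmp a (j * N + a i + a k) (b0 i k) with hb_def
  have hb : ∀ i k, b i k = - b k i := by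
    intro i k
    simp only [hb_def]
    rw [hb0 i k, map_neg]
    congr 2
    congr 1
    ring
  have hbw : ∀ i k, (b i k).IsWeightedHomogeneous a (j * N + a i + a k) := fun i k =>
    weightedHomogeneousComponent_isWeightedHomogeneous _ _
  have hhb : ∀ i, h i = ∑ k, b i k * pderiv k f0 := by
    intro i
    have h1 : cmp a ((j + 1) * N + a i) (h i) = h i :=
      (hh i).weightedHomogeneousComponent_same
    rw [← h1, hh0 i, map_sum]
    refine Finset.sum_congr rfl fun k _ => ?_
    have h2 : (pderiv k f0).IsWeightedHomogeneous a (N - a k) :=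
      hf0.pderiv (by have := haN k; omega)
    have h3 := cmp_mul_homog (j * N + a i + a k) (N - a k) (b0 i k) _ h2
    have h4 : j * N + a i + a k + (N - a k) = (j + 1) * N + a i := by
      have := haN k
      have h5 : (j + 1) * N = j * N + N := by ring
      omega
    rw [h4] at h3
    exact h3
  refine ⟨fun k => ∑ i, pderiv i (b i k), ?_, ?_, ?_⟩
  · intro k
    refine IsWeightedHomogeneous.sum _ _ _ fun i _ => ?_
    exact (hbw i k).pderiv (by ring)
  · have h1 : ∀ i, pderiv i (h i) =
        (∑ k, pderiv i (b i k) * pderiv k f0) + ∑ k, b i k * pderiv i (pderiv k f0) := by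
      intro i
      rw [hhb i, map_sum, ← Finset.sum_add_distrib]
      refine Finset.sum_congr rfl fun k _ => ?_
      rw [Derivation.leibniz, smul_eq_mul, smul_eq_mul]
      ring
    have h2 : ∑ i, ∑ k, b i k * pderiv i (pderiv k f0) = 0 := by
      refine chain_anti_sum _ fun i k => ?_
      rw [hb i k, chain_pderiv_comm i k]
      ring
    rw [Finset.sum_congr rfl fun i _ => h1 i, Finset.sum_add_distrib, h2, add_zero,
      Finset.sum_comm]
    refine Finset.sum_congr rfl fun k _ => ?_
    rw [Finset.sum_mul]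
  · have h1 : ∀ k, pderiv k (∑ i, pderiv i (b i k)) = ∑ i, pderiv k (pderiv i (b i k)) :=
      fun k => map_sum _ _ _
    rw [Finset.sum_congr rfl fun k _ => h1 k]
    refine chain_anti_sum _ fun i k => ?_
    rw [hb k i, chain_pderiv_comm i k, map_neg, map_neg]

/-- **Chain lemma.**  Suppose that (K) every homogeneous vector field `h` of weight `j N`, `j ≥ 1`,
which kills `f0` and whose divergence is in the Jacobian ideal is a Koszul field, and that (V) every
vector field of weight `0` which kills `f0` has divergence `0`.  Then `f0` has a Stokes functional.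
PROOF.  By `hasStokes_of_notMem` suppose `1 = ∑_i (∂_i φ_i - φ_i ∂_i f0)`.  Put
`h_j,i = cmp a (j N + a_i) φ_i` for `j ≥ 0`.  Taking components of weight `0` and of weight
`(j + 1) N` (`cmp_pderiv`, `cmp_mul_homog` in `Pool.Agent.helper67.IF.Core`; `∂_i f0` is homogeneous of
weight `N - a_i > 0`, so `φ_i ∂_i f0` has no component of weight `0`):
  `div h_0 = 1`,  `div h_(j+1) = ∑_i h_j,i ∂_i f0`.
For `J` large `h_(J+1) = 0`, hence `∑_i h_J,i ∂_i f0 = 0`.
Let `S(J)` be: there are `h_0, ..., h_J` (a function `ℕ → Fin n → MvPolynomial`) with `h_j,i` homogeneous of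
weight `j N + a_i`, `div h_0 = 1`, `div h_(j+1) = ∑_i h_j,i ∂_i f0` for `j < J` and
`∑_i h_J,i ∂_i f0 = 0`.  `S(J + 1) ⇒ S(J)`: `div h_(J+1) = ∑_i h_J,i ∂_i f0` is in the Jacobian ideal, so
`h_(J+1)` is Koszul by (K); take `u` from `kos_shorten` and replace `h_J` by `h_J - u`:
`∑_i (h_J - u)_i ∂_i f0 = div h_(J+1) - div h_(J+1) = 0` and `div (h_J - u) = div h_J`.
`S(0)` contradicts (V). -/
theorem hasStokes_of_chain {a : Fin n → ℕ} {N : ℕ} (haN : ∀ i, a i < N)
    {f0 : MvPolynomial (Fin n) ℂ} (hf0 : f0.IsWeightedHomogeneous a N)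
    (hK : ∀ (j : ℕ) (h : Fin n → MvPolynomial (Fin n) ℂ), 1 ≤ j →
      (∀ i, (h i).IsWeightedHomogeneous a (j * N + a i)) → ∑ i, h i * pderiv i f0 = 0 →
      ∑ i, pderiv i (h i) ∈ jac f0 → IsKos (fun i => pderiv i f0) h)
    (hV : ∀ h : Fin n → MvPolynomial (Fin n) ℂ, (∀ i, (h i).IsWeightedHomogeneous a (a i)) →
      ∑ i, h i * pderiv i f0 = 0 → ∑ i, pderiv i (h i) = 0) :
    HasStokes f0 := by
  classical
  refine hasStokes_of_notMem f0 fun φ hφ => ?_
  -- `N` is positive
  have hN : 0 < N := by
    by_contra hN0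
    have h1 : IsEmpty (Fin n) := ⟨fun i => by have := haN i; omega⟩
    rw [Finset.univ_eq_empty, Finset.sum_empty] at hφ
    exact zero_ne_one hφ
  have hdw : ∀ i, (pderiv i f0).IsWeightedHomogeneous a (N - a i) := fun i =>
    hf0.pderiv (by have := haN i; omega)
  set H : ℕ → Fin n → MvPolynomial (Fin n) ℂ := fun j i => cmp a (j * N + a i) (φ i) with hH
  have hHw : ∀ j i, (H j i).IsWeightedHomogeneous a (j * N + a i) := fun j i =>
    weightedHomogeneousComponent_isWeightedHomogeneous _ _
  have hone : (1 : MvPolynomial (Fin n) ℂ).IsWeightedHomogeneous a 0 := isWeightedHomogeneous_one _ _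
  have h0 : ∑ i, pderiv i (H 0 i) = 1 := by
    have h1 := congrArg (cmp a 0) hφ
    rw [hone.weightedHomogeneousComponent_same, map_sum] at h1
    rw [← h1]
    refine Finset.sum_congr rfl fun i _ => ?_
    have h2 : cmp a 0 (φ i * pderiv i f0) = 0 :=
      ((Ge.zero (a := a) (φ i)).mul (Ge.of_homog (hdw i))).cmp_eq_zero
        (by have := haN i; omega)
    rw [map_sub, h2, sub_zero, cmp_pderiv, hH]
    simp only [zero_mul]
  have hs : ∀ j, ∑ i, pderiv i (H (j + 1) i) = ∑ i, H j i * pderiv i f0 := by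
    intro j
    have h1 := congrArg (cmp a ((j + 1) * N)) hφ
    have h2 : cmp a ((j + 1) * N) (1 : MvPolynomial (Fin n) ℂ) = 0 :=
      hone.weightedHomogeneousComponent_ne _ (by positivity)
    rw [h2, map_sum] at h1
    rw [← sub_eq_zero, ← h1, ← Finset.sum_sub_distrib]
    refine Finset.sum_congr rfl fun i _ => ?_
    have h3 := cmp_mul_homog (j * N + a i) (N - a i) (φ i) _ (hdw i)
    have h4 : j * N + a i + (N - a i) = (j + 1) * N := by
      have := haN i
      have h5 : (j + 1) * N = j * N + N := by ring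
      omega
    rw [h4] at h3
    rw [map_sub, h3, cmp_pderiv]
  -- termination
  have hfin : ∃ J, ∀ i, H J i = 0 := by
    refine ⟨(∑ i, weightedTotalDegree a (φ i)) + 1, fun i => ?_⟩
    refine weightedHomogeneousComponent_eq_zero _ _ ?_
    have h1 : weightedTotalDegree a (φ i) ≤ ∑ i, weightedTotalDegree a (φ i) :=
      Finset.single_le_sum (f := fun i => weightedTotalDegree a (φ i))
        (fun _ _ => Nat.zero_le _) (Finset.mem_univ i)
    have h2 : (∑ i, weightedTotalDegree a (φ i)) + 1 ≤
        ((∑ i, weightedTotalDegree a (φ i)) + 1) * N := Nat.le_mul_of_pos_right _ hN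
    omega
  -- the statement `S(J)`
  let S : ℕ → Prop := fun J => ∃ h : ℕ → Fin n → MvPolynomial (Fin n) ℂ,
    (∀ j i, (h j i).IsWeightedHomogeneous a (j * N + a i)) ∧
    ∑ i, pderiv i (h 0 i) = 1 ∧
    (∀ j, j < J → ∑ i, pderiv i (h (j + 1) i) = ∑ i, h j i * pderiv i f0) ∧
    ∑ i, h J i * pderiv i f0 = 0
  have hstep : ∀ J, S (J + 1) → S J := by
    rintro J ⟨h, hw, hz, hd, hl⟩
    have h1 : ∑ i, pderiv i (h (J + 1) i) = ∑ i, h J i * pderiv i f0 := hd J (Nat.lt_succ_self J)
    have h2 : ∑ i, pderiv i (h (J + 1) i) ∈ jac f0 := by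
      rw [h1]
      exact Submodule.sum_mem _ fun i _ =>
        Ideal.mul_mem_left _ _ (Ideal.subset_span ⟨i, rfl⟩)
    have h3 := hK (J + 1) (h (J + 1)) (by omega) (hw (J + 1)) hl h2
    obtain ⟨u, hu, hu1, hu2⟩ := kos_shorten (fun i => (haN i).le) hf0 J (h (J + 1)) (hw (J + 1)) h3
    refine ⟨Function.update h J (fun i => h J i - u i), ?_, ?_, ?_, ?_⟩
    · intro j i
      by_cases hj : j = J
      · subst hj
        rw [Function.update_self]
        exact IsWeightedHomogeneous.sub (hw j i) (hu i)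
      · rw [Function.update_of_ne hj]
        exact hw j i
    · by_cases hj : (0 : ℕ) = J
      · subst hj
        rw [Function.update_self]
        have h4 : ∀ i, pderiv i (h 0 i - u i) = pderiv i (h 0 i) - pderiv i (u i) :=
          fun i => map_sub _ _ _
        rw [Finset.sum_congr rfl fun i _ => h4 i, Finset.sum_sub_distrib, hu2, sub_zero, hz]
      · rw [Function.update_of_ne hj]
        exact hz
    · intro j hj
      rw [Function.update_of_ne hj.ne]
      by_cases hj1 : j + 1 = J
      · subst hj1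
        rw [Function.update_self]
        have h4 : ∀ i, pderiv i (h (j + 1) i - u i) = pderiv i (h (j + 1) i) - pderiv i (u i) :=
          fun i => map_sub _ _ _
        rw [Finset.sum_congr rfl fun i _ => h4 i, Finset.sum_sub_distrib, hu2, sub_zero]
        exact hd j (by omega)
      · rw [Function.update_of_ne hj1]
        exact hd j (by omega)
    · rw [Function.update_self]
      have h4 : ∀ i, (h J i - u i) * pderiv i f0 = h J i * pderiv i f0 - u i * pderiv i f0 :=
        fun i => sub_mul _ _ _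
      rw [Finset.sum_congr rfl fun i _ => h4 i, Finset.sum_sub_distrib, ← h1, ← hu1, sub_self]
  obtain ⟨J, hJ⟩ := hfin
  have hSJ : S J := by
    refine ⟨H, hHw, h0, fun j _ => hs j, ?_⟩
    refine Finset.sum_eq_zero fun i _ => ?_
    rw [hJ i, zero_mul]
  have hS0 : S 0 := by
    clear hJ
    induction J with
    | zero => exact hSJ
    | succ J ih => exact ih (hstep J hSJ)
  obtain ⟨h, hw, hz, -, hl⟩ := hS0
  have h5 := hV (h 0) (fun i => by have := hw 0 i; rwa [zero_mul, zero_add] at this) hl
  rw [h5] at hz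
  exact zero_ne_one hz

end Pool.Agent.helper92.LC
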