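import Mathlib

/-!
# Project LC, module Kz: vanishing of the first Koszul homology (depth sensitivity)

Independent of everything else.
-/

set_option autoImplicit false

namespace Pool.Agent.helper92.LC

/-! ### A recursive model of the Koszul complex -/

/-- The exterior algebra of `R ^ r`: `Kz (r + 1) = Kz r ⊕ e ∧ Kz r`. -/
def Kz (R : Type) : ℕ → Type
  | 0 => R
  | r + 1 => Kz R r × Kz R r

instance kzACG (R : Type) [CommRing R] : ∀ r, AddCommGroup (Kz R r)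
  | 0 => inferInstanceAs (AddCommGroup R)
  | r + 1 =>
    letI := kzACG R r
    inferInstanceAs (AddCommGroup (Kz R r × Kz R r))

instance kzMod (R : Type) [CommRing R] : ∀ r, Module R (Kz R r)
  | 0 => inferInstanceAs (Module R R)
  | r + 1 =>
    letI := kzMod R r
    inferInstanceAs (Module R (Kz R r × Kz R r))

section

variable {R : Type} [CommRing R]

/-- First part. -/
def kzFst (r : ℕ) : Kz R (r + 1) →ₗ[R] Kz R r := LinearMap.fst R (Kz R r) (Kz R r)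

/-- Second part. -/
def kzSnd (r : ℕ) : Kz R (r + 1) →ₗ[R] Kz R r := LinearMap.snd R (Kz R r) (Kz R r)

/-- Pairing. -/
def kzMk (r : ℕ) (a b : Kz R r) : Kz R (r + 1) := (a, b)

@[simp] lemma kzFst_mk (r : ℕ) (a b : Kz R r) : kzFst r (kzMk r a b) = a := rfl
@[simp] lemma kzSnd_mk (r : ℕ) (a b : Kz R r) : kzSnd r (kzMk r a b) = b := rfl

lemma kz_ext {r : ℕ} {x y : Kz R (r + 1)} (h1 : kzFst r x = kzFst r y)
    (h2 : kzSnd r x = kzSnd r y) : x = y := Prod.ext h1 h2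

/-- The Koszul differential. -/
def kzD : ∀ (r : ℕ) (_ : Fin r → R), Kz R r →ₗ[R] Kz R r
  | 0, _ => 0
  | r + 1, g =>
    LinearMap.prod
      ((kzD r (fun i => g i.succ)).comp (kzFst r) + g 0 • kzSnd r)
      (-((kzD r (fun i => g i.succ)).comp (kzSnd r)))

/-- Multiplication by a vector. -/
def kzW : ∀ (r : ℕ) (_ : Fin r → R), Kz R r →ₗ[R] Kz R r
  | 0, _ => 0
  | r + 1, v =>
    LinearMap.prod
      ((kzW r (fun i => v i.succ)).comp (kzFst r))
      (v 0 • kzFst r - (kzW r (fun i => v i.succ)).comp (kzSnd r))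

@[simp] lemma kzD_zero (g : Fin 0 → R) (x : Kz R 0) : kzD 0 g x = 0 := rfl
@[simp] lemma kzW_zero (g : Fin 0 → R) (x : Kz R 0) : kzW 0 g x = 0 := rfl

@[simp] lemma kzD_fst (r : ℕ) (g : Fin (r + 1) → R) (x : Kz R (r + 1)) :
    kzFst r (kzD (r + 1) g x) = kzD r (fun i => g i.succ) (kzFst r x) + g 0 • kzSnd r x := rfl

@[simp] lemma kzD_snd (r : ℕ) (g : Fin (r + 1) → R) (x : Kz R (r + 1)) :
    kzSnd r (kzD (r + 1) g x) = - kzD r (fun i => g i.succ) (kzSnd r x) := rfl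

@[simp] lemma kzW_fst (r : ℕ) (v : Fin (r + 1) → R) (x : Kz R (r + 1)) :
    kzFst r (kzW (r + 1) v x) = kzW r (fun i => v i.succ) (kzFst r x) := rfl

@[simp] lemma kzW_snd (r : ℕ) (v : Fin (r + 1) → R) (x : Kz R (r + 1)) :
    kzSnd r (kzW (r + 1) v x) = v 0 • kzFst r x - kzW r (fun i => v i.succ) (kzSnd r x) := rfl

lemma kzD_kzW : ∀ (r : ℕ) (g v : Fin r → R) (x : Kz R r),
    kzD r g (kzW r v x) = (∑ i, v i * g i) • x - kzW r v (kzD r g x)
  | 0, g, v, x => by simp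
  | r + 1, g, v, x => by
    have ih1 := kzD_kzW r (fun i => g i.succ) (fun i => v i.succ) (kzFst r x)
    have ih2 := kzD_kzW r (fun i => g i.succ) (fun i => v i.succ) (kzSnd r x)
    rw [Fin.sum_univ_succ]
    apply kz_ext
    · simp only [kzD_fst, kzW_fst, kzW_snd, ih1, map_sub, map_smul, map_add]
      module
    · simp only [kzD_snd, kzW_snd, kzD_fst, ih2, map_sub, map_smul, map_neg]
      module

lemma kzD_kzD : ∀ (r : ℕ) (g : Fin r → R) (x : Kz R r), kzD r g (kzD r g x) = 0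
  | 0, _, _ => rfl
  | r + 1, g, x => by
    apply kz_ext
    · simp only [kzD_fst, kzD_snd, map_add, map_smul, kzD_kzD r, map_zero]
      module
    · simp only [kzD_snd, map_neg, kzD_kzD r]
      simp

/-- The unit. -/
def kzOne : ∀ r : ℕ, Kz R r
  | 0 => (1 : R)
  | r + 1 => kzMk r (kzOne r) 0

lemma kzD_one : ∀ (r : ℕ) (g : Fin r → R), kzD r g (kzOne r) = 0
  | 0, g => rfl
  | r + 1, g => by
    apply kz_ext
    · simp [kzOne, kzD_one r]
    · simp [kzOne]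

lemma kzOne_inj : ∀ (r : ℕ) (c c' : R), c • (kzOne r : Kz R r) = c' • kzOne r → c = c'
  | 0, c, c', h => by
    have h1 : c * 1 = c' * 1 := h
    simpa using h1
  | r + 1, c, c', h => by
    have h1 := congrArg (kzFst r) h
    simp only [map_smul, kzOne, kzFst_mk] at h1
    exact kzOne_inj r c c' h1

lemma kzW_one_inj : ∀ (r : ℕ) (h h' : Fin r → R),
    kzW r h (kzOne r) = kzW r h' (kzOne r) → h = h'
  | 0, h, h', _ => by funext i; exact i.elim0
  | r + 1, h, h', e => by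
    have e1 := congrArg (kzFst r) e
    have e2 := congrArg (kzSnd r) e
    simp only [kzW_fst, kzOne, kzFst_mk] at e1
    simp only [kzW_snd, kzOne, kzFst_mk, kzSnd_mk, map_zero, sub_zero] at e2
    have e3 := kzW_one_inj r _ _ e1
    have e4 := kzOne_inj r _ _ e2
    funext i
    refine Fin.cases e4 (fun j => ?_) i
    exact congrFun e3 j

/-- Homogeneous of degree `p`. -/
def kzDeg : ∀ (r : ℕ) (_ : ℕ), Kz R r → Prop
  | 0, 0, _ => True
  | 0, _ + 1, x => x = (0 : Kz R 0)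
  | r + 1, 0, x => kzDeg r 0 (kzFst r x) ∧ kzSnd r x = 0
  | r + 1, p + 1, x => kzDeg r (p + 1) (kzFst r x) ∧ kzDeg r p (kzSnd r x)

lemma kzDeg_zero : ∀ (r p : ℕ), kzDeg r p (0 : Kz R r)
  | 0, 0 => trivial
  | 0, p + 1 => rfl
  | r + 1, 0 => ⟨by simpa using kzDeg_zero r 0, by simp⟩
  | r + 1, p + 1 => ⟨by simpa using kzDeg_zero r (p + 1), by simpa using kzDeg_zero r p⟩

lemma kzDeg_add : ∀ (r p : ℕ) (x y : Kz R r), kzDeg r p x → kzDeg r p y → kzDeg r p (x + y)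
  | 0, 0, _, _, _, _ => trivial
  | 0, p + 1, x, y, hx, hy => by
    have hx' : x = 0 := hx
    have hy' : y = 0 := hy
    rw [hx', hy', add_zero]
    exact rfl
  | r + 1, 0, x, y, hx, hy => by
    refine ⟨?_, ?_⟩
    · rw [map_add]; exact kzDeg_add r 0 _ _ hx.1 hy.1
    · rw [map_add, hx.2, hy.2, add_zero]
  | r + 1, p + 1, x, y, hx, hy => by
    refine ⟨?_, ?_⟩
    · rw [map_add]; exact kzDeg_add r (p + 1) _ _ hx.1 hy.1
    · rw [map_add]; exact kzDeg_add r p _ _ hx.2 hy.2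

lemma kzDeg_smul : ∀ (r p : ℕ) (c : R) (x : Kz R r), kzDeg r p x → kzDeg r p (c • x)
  | 0, 0, _, _, _ => trivial
  | 0, p + 1, c, x, hx => by
    have hx' : x = 0 := hx
    rw [hx', smul_zero]
    exact rfl
  | r + 1, 0, c, x, hx => by
    refine ⟨?_, ?_⟩
    · rw [map_smul]; exact kzDeg_smul r 0 c _ hx.1
    · rw [map_smul, hx.2, smul_zero]
  | r + 1, p + 1, c, x, hx => by
    refine ⟨?_, ?_⟩
    · rw [map_smul]; exact kzDeg_smul r (p + 1) c _ hx.1
    · rw [map_smul]; exact kzDeg_smul r p c _ hx.2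

lemma kzDeg_neg (r p : ℕ) (x : Kz R r) (hx : kzDeg r p x) : kzDeg r p (-x) := by
  have := kzDeg_smul r p (-1) x hx
  rwa [neg_one_smul] at this

lemma kzDeg_sub (r p : ℕ) (x y : Kz R r) (hx : kzDeg r p x) (hy : kzDeg r p y) :
    kzDeg r p (x - y) := by
  rw [sub_eq_add_neg]
  exact kzDeg_add r p _ _ hx (kzDeg_neg r p _ hy)

lemma kzDeg_big : ∀ (r p : ℕ) (x : Kz R r), r < p → kzDeg r p x → x = 0
  | 0, 0, _, h, _ => absurd h (lt_irrefl 0)
  | 0, p + 1, x, _, hx => hx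
  | r + 1, 0, _, h, _ => absurd h (by omega)
  | r + 1, p + 1, x, h, hx => by
    apply kz_ext
    · rw [kzDeg_big r (p + 1) _ (by omega) hx.1, map_zero]
    · rw [kzDeg_big r p _ (by omega) hx.2, map_zero]

lemma kzDeg_W : ∀ (r p : ℕ) (v : Fin r → R) (x : Kz R r), kzDeg r p x →
    kzDeg r (p + 1) (kzW r v x)
  | 0, p, v, x, _ => rfl
  | r + 1, 0, v, x, hx => by
    refine ⟨?_, ?_⟩
    · rw [kzW_fst]; exact kzDeg_W r 0 _ _ hx.1
    · rw [kzW_snd, hx.2, map_zero, sub_zero]; exact kzDeg_smul r 0 _ _ hx.1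
  | r + 1, p + 1, v, x, hx => by
    refine ⟨?_, ?_⟩
    · rw [kzW_fst]; exact kzDeg_W r (p + 1) _ _ hx.1
    · rw [kzW_snd]
      exact kzDeg_sub r (p + 1) _ _ (kzDeg_smul r (p + 1) _ _ hx.1) (kzDeg_W r p _ _ hx.2)

lemma kzDeg_D_zero : ∀ (r : ℕ) (g : Fin r → R) (x : Kz R r), kzDeg r 0 x → kzD r g x = 0
  | 0, _, _, _ => rfl
  | r + 1, g, x, hx => by
    apply kz_ext
    · rw [kzD_fst, kzDeg_D_zero r _ _ hx.1, hx.2, smul_zero, add_zero, map_zero]
    · rw [kzD_snd, hx.2, map_zero, neg_zero, map_zero]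

lemma kzDeg_D : ∀ (r p : ℕ) (g : Fin r → R) (x : Kz R r), kzDeg r (p + 1) x →
    kzDeg r p (kzD r g x)
  | 0, p, g, x, _ => by rw [kzD_zero]; exact kzDeg_zero 0 p
  | r + 1, 0, g, x, hx => by
    refine ⟨?_, ?_⟩
    · rw [kzD_fst]
      exact kzDeg_add r 0 _ _ (kzDeg_D r 0 _ _ hx.1) (kzDeg_smul r 0 _ _ hx.2)
    · rw [kzD_snd, kzDeg_D_zero r _ _ hx.2, neg_zero]
  | r + 1, p + 1, g, x, hx => by
    refine ⟨?_, ?_⟩
    · rw [kzD_fst]
      exact kzDeg_add r (p + 1) _ _ (kzDeg_D r (p + 1) _ _ hx.1) (kzDeg_smul r (p + 1) _ _ hx.2)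
    · rw [kzD_snd]
      exact kzDeg_neg r p _ (kzDeg_D r p _ _ hx.2)

lemma kzDeg_one : ∀ r : ℕ, kzDeg r 0 (kzOne r : Kz R r)
  | 0 => trivial
  | r + 1 => ⟨by simpa [kzOne] using kzDeg_one r, by simp [kzOne]⟩

/-- All coordinates in the ideal `I`. -/
def kzMem (I : Ideal R) : ∀ (r : ℕ), Kz R r → Prop
  | 0, x => (show R from x) ∈ I
  | r + 1, x => kzMem I r (kzFst r x) ∧ kzMem I r (kzSnd r x)

lemma kzMem_zero (I : Ideal R) : ∀ (r : ℕ), kzMem I r (0 : Kz R r)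
  | 0 => I.zero_mem
  | r + 1 => ⟨by simpa using kzMem_zero I r, by simpa using kzMem_zero I r⟩

lemma kzMem_add (I : Ideal R) : ∀ (r : ℕ) (x y : Kz R r), kzMem I r x → kzMem I r y →
    kzMem I r (x + y)
  | 0, _, _, hx, hy => I.add_mem hx hy
  | r + 1, x, y, hx, hy => by
    refine ⟨?_, ?_⟩
    · rw [map_add]; exact kzMem_add I r _ _ hx.1 hy.1
    · rw [map_add]; exact kzMem_add I r _ _ hx.2 hy.2

lemma kzMem_smul (I : Ideal R) : ∀ (r : ℕ) (c : R) (x : Kz R r), kzMem I r x →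
    kzMem I r (c • x)
  | 0, c, _, hx => I.mul_mem_left c hx
  | r + 1, c, x, hx => by
    refine ⟨?_, ?_⟩
    · rw [map_smul]; exact kzMem_smul I r c _ hx.1
    · rw [map_smul]; exact kzMem_smul I r c _ hx.2

lemma kzMem_neg (I : Ideal R) (r : ℕ) (x : Kz R r) (hx : kzMem I r x) : kzMem I r (-x) := by
  have := kzMem_smul I r (-1) x hx
  rwa [neg_one_smul] at this

lemma kzMem_sub (I : Ideal R) (r : ℕ) (x y : Kz R r) (hx : kzMem I r x) (hy : kzMem I r y) :
    kzMem I r (x - y) := by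
  rw [sub_eq_add_neg]
  exact kzMem_add I r _ _ hx (kzMem_neg I r _ hy)

lemma kzMem_W (I : Ideal R) : ∀ (r : ℕ) (v : Fin r → R) (x : Kz R r), kzMem I r x →
    kzMem I r (kzW r v x)
  | 0, _, _, _ => I.zero_mem
  | r + 1, v, x, hx => by
    refine ⟨?_, ?_⟩
    · rw [kzW_fst]; exact kzMem_W I r _ _ hx.1
    · rw [kzW_snd]; exact kzMem_sub I r _ _ (kzMem_smul I r _ _ hx.1) (kzMem_W I r _ _ hx.2)

lemma kzMem_D (I : Ideal R) : ∀ (r : ℕ) (g : Fin r → R) (x : Kz R r), kzMem I r x →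
    kzMem I r (kzD r g x)
  | 0, _, _, _ => I.zero_mem
  | r + 1, g, x, hx => by
    refine ⟨?_, ?_⟩
    · rw [kzD_fst]; exact kzMem_add I r _ _ (kzMem_D I r _ _ hx.1) (kzMem_smul I r _ _ hx.2)
    · rw [kzD_snd]; exact kzMem_neg I r _ (kzMem_D I r _ _ hx.2)

lemma kzMem_mono {I J : Ideal R} (hIJ : I ≤ J) : ∀ (r : ℕ) (x : Kz R r), kzMem I r x →
    kzMem J r x
  | 0, _, hx => hIJ hx
  | r + 1, _, hx => ⟨kzMem_mono hIJ r _ hx.1, kzMem_mono hIJ r _ hx.2⟩

lemma kzMem_smul_mem (I : Ideal R) (c : R) (hc : c ∈ I) : ∀ (r : ℕ) (x : Kz R r),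
    kzMem I r (c • x)
  | 0, _ => I.mul_mem_right _ hc
  | r + 1, x => by
    refine ⟨?_, ?_⟩
    · rw [map_smul]; exact kzMem_smul_mem I c hc r _
    · rw [map_smul]; exact kzMem_smul_mem I c hc r _

lemma kzMem_bot : ∀ (r : ℕ) (x : Kz R r), kzMem (⊥ : Ideal R) r x → x = 0
  | 0, _, hx => (Submodule.mem_bot R).mp hx
  | r + 1, x, hx => by
    apply kz_ext
    · rw [kzMem_bot r _ hx.1, map_zero]
    · rw [kzMem_bot r _ hx.2, map_zero]

/-- Nonzerodivisors modulo `I` act coordinatewise. -/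
lemma kzMem_cancel (I : Ideal R) (y : R) (hy : ∀ r : R, y * r ∈ I → r ∈ I) :
    ∀ (r : ℕ) (x : Kz R r), kzMem I r (y • x) → kzMem I r x
  | 0, x, hx => hy x hx
  | r + 1, x, hx => by
    have h1 := hx.1
    have h2 := hx.2
    rw [map_smul] at h1 h2
    exact ⟨kzMem_cancel I y hy r _ h1, kzMem_cancel I y hy r _ h2⟩

/-- Splitting an element with coordinates in `I ⊔ (y)`. -/
lemma kzMem_split (I : Ideal R) (y : R) : ∀ (r p : ℕ) (x : Kz R r),
    kzMem (I ⊔ Ideal.span {y}) r x → kzDeg r p x →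
    ∃ ρ θ : Kz R r, kzMem I r ρ ∧ kzDeg r p θ ∧ x = ρ + y • θ
  | 0, 0, x, hx, _ => by
    have hx' : (show R from x) ∈ I ⊔ Ideal.span {y} := hx
    obtain ⟨a, ha, b, hb, hab⟩ := Submodule.mem_sup.mp hx'
    obtain ⟨c, hc⟩ := Ideal.mem_span_singleton'.mp hb
    refine ⟨a, c, ha, trivial, ?_⟩
    have h1 : (show R from x) = a + y * c := by rw [mul_comm y c, hc]; exact hab.symm
    exact h1
  | 0, p + 1, x, _, hd => by
    have hd' : x = 0 := hd
    refine ⟨0, 0, kzMem_zero I 0, rfl, ?_⟩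
    rw [hd', smul_zero, add_zero]
  | r + 1, 0, x, hx, hd => by
    obtain ⟨ρ, θ, h1, h2, h3⟩ := kzMem_split I y r 0 (kzFst r x) hx.1 hd.1
    refine ⟨kzMk r ρ 0, kzMk r θ 0, ⟨h1, kzMem_zero I r⟩, ⟨h2, rfl⟩, ?_⟩
    apply kz_ext
    · rw [map_add, map_smul, kzFst_mk, kzFst_mk]; exact h3
    · rw [map_add, map_smul, kzSnd_mk, kzSnd_mk, hd.2, smul_zero, add_zero]
  | r + 1, p + 1, x, hx, hd => by
    obtain ⟨ρ, θ, h1, h2, h3⟩ := kzMem_split I y r (p + 1) (kzFst r x) hx.1 hd.1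
    obtain ⟨ρ', θ', h1', h2', h3'⟩ := kzMem_split I y r p (kzSnd r x) hx.2 hd.2
    refine ⟨kzMk r ρ ρ', kzMk r θ θ', ⟨h1, h1'⟩, ⟨h2, h2'⟩, ?_⟩
    apply kz_ext
    · rw [map_add, map_smul, kzFst_mk, kzFst_mk]; exact h3
    · rw [map_add, map_smul, kzSnd_mk, kzSnd_mk]; exact h3'

lemma kzDeg0_eq : ∀ (r : ℕ) (x : Kz R r), kzDeg r 0 x → ∃ c : R, x = c • kzOne r
  | 0, x, _ => ⟨x, by
      have h1 : (show R from x) = (show R from x) * 1 := (mul_one _).symm
      exact h1⟩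
  | r + 1, x, hx => by
    obtain ⟨c, hc⟩ := kzDeg0_eq r _ hx.1
    refine ⟨c, kz_ext ?_ ?_⟩
    · rw [map_smul, kzOne, kzFst_mk, hc]
    · rw [map_smul, kzOne, kzSnd_mk, smul_zero, hx.2]

lemma kzDeg1_eq : ∀ (r : ℕ) (x : Kz R r), kzDeg r 1 x → ∃ u : Fin r → R, x = kzW r u (kzOne r)
  | 0, x, hx => ⟨fun i => i.elim0, hx⟩
  | r + 1, x, hx => by
    obtain ⟨u, hu⟩ := kzDeg1_eq r _ hx.1
    obtain ⟨c, hc⟩ := kzDeg0_eq r _ hx.2
    refine ⟨Fin.cons c u, kz_ext ?_ ?_⟩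
    · rw [kzW_fst, kzOne, kzFst_mk, hu]
      simp only [Fin.cons_succ]
    · rw [kzW_snd, kzOne, kzFst_mk, kzSnd_mk, map_zero, sub_zero, hc, Fin.cons_zero]

lemma kzW_add_aux : ∀ (r : ℕ) (u v : Fin r → R) (c : R) (z : Kz R r),
    kzW r (fun i => u i * c + v i) z = c • kzW r u z + kzW r v z
  | 0, _, _, _, _ => by simp
  | r + 1, u, v, c, z => by
    apply kz_ext
    · simp only [kzW_fst, map_add, map_smul]
      exact kzW_add_aux r _ _ c _
    · simp only [kzW_snd, map_add, map_smul]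
      rw [kzW_add_aux r (fun i => u i.succ) (fun i => v i.succ) c (kzSnd r z)]
      module

/-- The differential of an element of degree two is a Koszul relation. -/
lemma kzDeg2_eq : ∀ (r : ℕ) (g : Fin r → R) (x : Kz R r), kzDeg r 2 x →
    ∃ b : Fin r → Fin r → R, (∀ i j, b i j = - b j i) ∧ (∀ i, b i i = 0) ∧
      kzD r g x = kzW r (fun i => ∑ j, b i j * g j) (kzOne r)
  | 0, _, _, _ => ⟨fun i => i.elim0, fun i => i.elim0, fun i => i.elim0, rfl⟩
  | r + 1, g, x, hx => by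
    obtain ⟨b, hb1, hb2, hb3⟩ := kzDeg2_eq r (fun i => g i.succ) _ hx.1
    obtain ⟨u, hu⟩ := kzDeg1_eq r _ hx.2
    refine ⟨Fin.cons (Fin.cons 0 fun j => - u j) fun i => Fin.cons (u i) (b i), ?_, ?_, ?_⟩
    · intro i j
      refine Fin.cases ?_ (fun i => ?_) i
      · refine Fin.cases ?_ (fun j => ?_) j
        · simp
        · simp
      · refine Fin.cases ?_ (fun j => ?_) j
        · simp
        · simpa using hb1 i j
    · intro i
      refine Fin.cases ?_ (fun i => ?_) i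
      · simp
      · simpa using hb2 i
    · have hadd : ∀ (u v : Fin r → R) (c : R) (z : Kz R r),
          kzW r (fun i => u i * c + v i) z = c • kzW r u z + kzW r v z := by
        intro u v c z
        exact kzW_add_aux r u v c z
      apply kz_ext
      · rw [kzD_fst, kzW_fst, kzOne, kzFst_mk, hb3, hu]
        simp only [Fin.cons_succ, Fin.sum_univ_succ, Fin.cons_zero]
        rw [hadd]
        abel
      · rw [kzD_snd, kzW_snd, kzOne, kzFst_mk, kzSnd_mk, map_zero, sub_zero, hu, kzD_kzW,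
          kzD_one, map_zero, sub_zero]
        simp only [Fin.cons_succ, Fin.sum_univ_succ, Fin.cons_zero, zero_mul, zero_add]
        rw [← neg_smul, ← Finset.sum_neg_distrib]
        simp only [neg_mul]

end

/-- **Depth sensitivity of the Koszul complex, in degree one.**  If the ideal `(g_0, ..., g_{n-1})`
contains a regular sequence `y_0, ..., y_{n-1}` of the same length `n`, then every relation
`∑ h_i g_i = 0` is a Koszul relation.

PROOF.  Let `Λ = ⊕ Λ^p` be the Koszul complex of `g` over `R` (free module with basis `e_S`,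
`S ⊆ {0..n-1}`, `e_S` of degree `|S|`), `d : Λ^{p+1} → Λ^p` its differential (`d e_i = g_i`),
and for a vector `v ∈ R^n` let `v ∧ : Λ^p → Λ^{p+1}`.  Facts: `d ∘ d = 0`,
`d (v ∧ ω) = g(v) ω - v ∧ d ω` with `g(v) = ∑ v_i g_i`, `Λ^p = 0` for `p > n`.
Let `I_k = (y_0, ..., y_{k-1})`.  Claim `Q(k)`, for `0 ≤ k ≤ n`: if `p > k`, `ω ∈ Λ^p` and
`d ω ∈ I_k Λ`, then `ω ∈ d Λ^{p+1} + I_k Λ`.  `Q(n)` is trivial (`Λ^p = 0`).
`Q(k) ⇒ Q(k-1)`: write `y = y_{k-1} = g(v)`.  Let `p ≥ k`, `ω ∈ Λ^p`, `d ω ∈ I_{k-1} Λ`.  Then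
`d (v ∧ ω) = y ω - v ∧ d ω ∈ I_k Λ` and `v ∧ ω ∈ Λ^{p+1}`, `p + 1 > k`, so by `Q(k)`:
`v ∧ ω = d η + (element of I_{k-1} Λ^{p+1}) + y θ`, `θ ∈ Λ^{p+1}`.  Apply `d`:
`y ω - v ∧ d ω = (element of I_{k-1} Λ) + y d θ`, so `y (ω - d θ) ∈ I_{k-1} Λ`.  `Λ` is free and
`y` is a nonzerodivisor mod `I_{k-1}` (hypothesis `hreg`), hence coordinatewise
`ω - d θ ∈ I_{k-1} Λ`.  `Q(0)` with `p = 1`, `ω = ∑ h_i e_i`, `d ω = 0` gives `ω = d θ`,
`θ ∈ Λ²`, which is a Koszul relation.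

IMPLEMENTATION.  Any model of the Koszul complex will do.  (a) Recursive model: `K 0 = R`,
`K (r + 1) = K r × K r`, `(α, β) = α + e_r ∧ β`, `d (α, β) = (d α + g_r β, - d β)`,
`v ∧ (α, β) = (v' ∧ α, v_r α - v' ∧ β)`, `(α, β)` of degree `p` iff `α` of degree `p` and `β` of
degree `p - 1` (in `K 0` only degree 0; use degrees in `ℤ` or a recursive predicate), everything
by induction on `r`; equivalently functions `(Fin n → Bool) → R`.  (b) `ExteriorAlgebra R (Fin n → R)`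
with `CliffordAlgebra.contractLeft` (`Q = 0`), `contractLeft_contractLeft`,
`contractLeft_ι_mul`, basis in `Mathlib/LinearAlgebra/ExteriorAlgebra/Basis.lean`. -/
theorem koszul_of_regular {R : Type} [CommRing R] {n : ℕ} (g y : Fin n → R)
    (hy : ∀ i, y i ∈ Ideal.span (Set.range g))
    (hreg : ∀ (k : Fin n) (r : R), y k * r ∈ Ideal.span (y '' {i | i < k}) →
      r ∈ Ideal.span (y '' {i | i < k}))
    (h : Fin n → R) (hh : ∑ i, h i * g i = 0) :
    ∃ b : Fin n → Fin n → R, (∀ i j, b i j = - b j i) ∧ (∀ i, b i i = 0) ∧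
      ∀ i, h i = ∑ j, b i j * g j := by
  set I : ℕ → Ideal R := fun k => Ideal.span (y '' {i : Fin n | i.val < k}) with hI
  have key : ∀ j k : ℕ, k + j = n → ∀ (p : ℕ) (ω : Kz R n), k < p → kzDeg n p ω →
      kzMem (I k) n (kzD n g ω) → ∃ θ : Kz R n, kzDeg n (p + 1) θ ∧
        kzMem (I k) n (ω - kzD n g θ) := by
    intro j
    induction j with
    | zero =>
      intro k hk p ω hp hω _
      refine ⟨0, kzDeg_zero n (p + 1), ?_⟩
      rw [kzDeg_big n p ω (by omega) hω, map_zero, sub_zero]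
      exact kzMem_zero _ n
    | succ j ih =>
      intro k hk p ω hp hω hd
      have hkn : k < n := by omega
      have hIs : I (k + 1) = I k ⊔ Ideal.span {y ⟨k, hkn⟩} := by
        rw [hI]
        simp only
        rw [← Ideal.span_union]
        congr 1
        ext z
        simp only [Set.mem_image, Set.mem_union, Set.mem_singleton_iff, Set.mem_ofPred_eq]
        constructor
        · rintro ⟨i, hi, rfl⟩
          rcases Nat.lt_succ_iff_lt_or_eq.mp hi with h1 | h1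
          · exact Or.inl ⟨i, h1, rfl⟩
          · right
            congr 1
            exact Fin.ext h1
        · rintro (⟨i, hi, rfl⟩ | rfl)
          · exact ⟨i, Nat.lt_succ_of_lt hi, rfl⟩
          · exact ⟨⟨k, hkn⟩, Nat.lt_succ_self k, rfl⟩
      obtain ⟨v, hv⟩ : ∃ v : Fin n → R, ∑ i, v i * g i = y ⟨k, hkn⟩ := by
        have h1 := hy ⟨k, hkn⟩
        rw [Ideal.mem_span_range_iff_exists_fun] at h1
        exact h1
      have hymem : y ⟨k, hkn⟩ ∈ I (k + 1) := by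
        rw [hIs]
        exact Ideal.mem_sup_right (Ideal.mem_span_singleton_self _)
      have hle : I k ≤ I (k + 1) := by rw [hIs]; exact le_sup_left
      have hdw := kzD_kzW n g v ω
      rw [hv] at hdw
      have hmem : kzMem (I (k + 1)) n (kzD n g (kzW n v ω)) := by
        rw [hdw]
        exact kzMem_sub _ n _ _ (kzMem_smul_mem _ _ hymem n _)
          (kzMem_W _ n _ _ (kzMem_mono hle n _ hd))
      obtain ⟨η, hη1, hη2⟩ := ih (k + 1) (by omega) (p + 1) (kzW n v ω) (by omega)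
        (kzDeg_W n p v ω hω) hmem
      rw [hIs] at hη2
      obtain ⟨ρ, θ, h1, h2, h3⟩ := kzMem_split (I k) (y ⟨k, hkn⟩) n (p + 1) _ hη2
        (kzDeg_sub n (p + 1) _ _ (kzDeg_W n p v ω hω) (kzDeg_D n (p + 1) g η hη1))
      refine ⟨θ, h2, ?_⟩
      have hset : {i : Fin n | i.val < k} = {i : Fin n | i < (⟨k, hkn⟩ : Fin n)} := by
        ext i
        simp [Fin.lt_def]
      refine kzMem_cancel (I k) (y ⟨k, hkn⟩) ?_ n _ ?_
      · intro r hr
        rw [hI] at hr ⊢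
        simp only at hr ⊢
        rw [hset] at hr ⊢
        exact hreg ⟨k, hkn⟩ r hr
      · have h4 : y ⟨k, hkn⟩ • (ω - kzD n g θ) = kzD n g ρ + kzW n v (kzD n g ω) := by
          have h5 : kzD n g (kzW n v ω - kzD n g η) = kzD n g (ρ + y ⟨k, hkn⟩ • θ) := by
            rw [h3]
          rw [map_sub, map_add, map_smul, hdw, kzD_kzD n g η, sub_zero] at h5
          rw [smul_sub, eq_add_of_sub_eq h5]
          abel
        rw [h4]
        exact kzMem_add _ n _ _ (kzMem_D _ n _ _ h1) (kzMem_W _ n _ _ hd)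
  have h0 : kzMem (I 0) n (kzD n g (kzW n h (kzOne n))) := by
    rw [kzD_kzW, hh, zero_smul, kzD_one, map_zero, sub_zero]
    exact kzMem_zero _ n
  obtain ⟨θ, hθ1, hθ2⟩ := key n 0 (by omega) 1 (kzW n h (kzOne n)) (by omega)
    (kzDeg_W n 0 h _ (kzDeg_one n)) h0
  have hI0 : I 0 = ⊥ := by
    rw [hI]
    simp
  rw [hI0] at hθ2
  have h6 := kzMem_bot n _ hθ2
  obtain ⟨b, hb1, hb2, hb3⟩ := kzDeg2_eq n g θ hθ1
  refine ⟨b, hb1, hb2, ?_⟩
  have h7 : kzW n h (kzOne n) = kzW n (fun i => ∑ j, b i j * g j) (kzOne n) := by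
    rw [← hb3]
    exact sub_eq_zero.mp h6
  have h8 := kzW_one_inj n _ _ h7
  intro i
  exact congrFun h8 i

end Pool.Agent.helper92.LC
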