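import Mathlib
import Pool.Agent.helper92.LC.Defs
import Pool.Agent.helper92.LC.Kz

/-!
# Project LC, module Syz: syzygies of `n` polynomials in `n` variables with isolated zeros

Imports `Kz` through its stub.  (proofs: helper51)
-/

set_option autoImplicit false

namespace Pool.Agent.helper92.LC

open MvPolynomial

variable {n : ℕ}

/-- Powers of the variables form a regular sequence.
PROOF.  `Ideal.span ((fun i => X i ^ e i) '' s)` is the monomial ideal of the polynomials all of
whose monomials `u` have `e i ≤ u i` for some `i ∈ s` (`MvPolynomial.mem_ideal_span_monomial_image`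
or a direct argument).  The monomials of `X k ^ e k * r` are the `u + e k • single k 1`, `u` a
monomial of `r`; for `i ≠ k` the exponent of `i` is unchanged. -/
theorem regular_X_pow (e : Fin n → ℕ) (k : Fin n) (r : MvPolynomial (Fin n) ℂ)
    (h : X k ^ e k * r ∈ Ideal.span
      ((fun i => (X i ^ e i : MvPolynomial (Fin n) ℂ)) '' {i | i < k})) :
    r ∈ Ideal.span ((fun i => (X i ^ e i : MvPolynomial (Fin n) ℂ)) '' {i | i < k}) := by
  have himg : ((fun i => (X i ^ e i : MvPolynomial (Fin n) ℂ)) '' {i | i < k}) =
      ((fun s => monomial s (1 : ℂ)) '' ((fun i => Finsupp.single i (e i)) '' {i : Fin n | i < k})) := by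
    rw [Set.image_image]
    refine Set.image_congr fun i _ => ?_
    rw [X_pow_eq_monomial]
  rw [himg, mem_ideal_span_monomial_image] at h ⊢
  intro u hu
  have hu' : (Finsupp.single k (e k) + u) ∈ (X k ^ e k * r : MvPolynomial (Fin n) ℂ).support := by
    rw [mem_support_iff, X_pow_eq_monomial, coeff_monomial_mul, one_mul]
    exact mem_support_iff.1 hu
  obtain ⟨si, ⟨i, hi, rfl⟩, hle⟩ := h _ hu'
  refine ⟨_, ⟨i, hi, rfl⟩, ?_⟩
  have hik : i ≠ k := ne_of_lt hi
  have h1 := hle i
  simp only [Finsupp.add_apply] at h1
  rw [Finsupp.single_eq_same, Finsupp.single_eq_of_ne hik, zero_add] at h1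
  rw [Finsupp.single_le_iff]
  exact h1

/-- If the common zeros of `g` are contained in `{0}`, powers of the variables are in the ideal.
PROOF.  Nullstellensatz (`MvPolynomial.vanishingIdeal_zeroLocus_eq_radical`; the name of the
statement with the constant in the present Mathlib may differ slightly): `X i` vanishes on
`zeroLocus (span (range g))`. -/
theorem exists_X_pow_mem (g : Fin n → MvPolynomial (Fin n) ℂ)
    (h0 : ∀ z : Fin n → ℂ, (∀ i, eval z (g i) = 0) → z = 0) (i : Fin n) :
    ∃ N : ℕ, (X i ^ N : MvPolynomial (Fin n) ℂ) ∈ Ideal.span (Set.range g) := by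
  have h1 : (X i : MvPolynomial (Fin n) ℂ) ∈ (Ideal.span (Set.range g)).radical := by
    rw [← vanishingIdeal_zeroLocus_eq_radical (K := ℂ), mem_vanishingIdeal_iff]
    intro z hz
    have hz0 : z = 0 := by
      refine h0 z fun j => ?_
      have := hz (g j) (Ideal.subset_span ⟨j, rfl⟩)
      rwa [aeval_eq_eval] at this
    rw [hz0, aeval_X]
    rfl
  exact h1

/-- **All relations between `n` polynomials in `n` variables whose only common zero is (at most)
the origin are Koszul relations.**
PROOF.  Choose exponents `e i` by `exists_X_pow_mem`, and apply `koszul_of_regular` with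
`y i = X i ^ e i`, using `regular_X_pow`. -/
theorem syz_koszul (g : Fin n → MvPolynomial (Fin n) ℂ)
    (h0 : ∀ z : Fin n → ℂ, (∀ i, eval z (g i) = 0) → z = 0)
    (h : Fin n → MvPolynomial (Fin n) ℂ) (hh : ∑ i, h i * g i = 0) : IsKos g h := by
  choose e he using exists_X_pow_mem g h0
  obtain ⟨b, hb, -, hh'⟩ := koszul_of_regular g (fun i => (X i ^ e i : MvPolynomial (Fin n) ℂ)) he
    (fun k r hr => regular_X_pow e k r hr) h hh
  exact ⟨b, hb, hh'⟩

end Pool.Agent.helper92.LC
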