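import Mathlib
import Pool.Agent.helper92.LC.Defs
import Pool.Agent.helper92.LC.Syz
import Pool.Agent.helper92.LC.Chain

/-!
# Project LC, module Iso: weighted homogeneous isolated singularities have Stokes functionals
(helper92, helper11)

Imports `Syz` and `Chain` through their stubs.
-/

set_option autoImplicit false

namespace Pool.Agent.helper92.LC

open MvPolynomial
open Pool.Agent.helper67.IF

variable {m : ℕ}

lemma Iso_comm (i j : Fin m) (p : MvPolynomial (Fin m) ℂ) :
    pderiv i (pderiv j p) = pderiv j (pderiv i p) := by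
  classical
  ext u
  rw [coeff_pderiv, coeff_pderiv, coeff_pderiv, coeff_pderiv]
  by_cases h : i = j
  · subst h
    rfl
  · have h1 : u + Finsupp.single i 1 + Finsupp.single j 1 =
        u + Finsupp.single j 1 + Finsupp.single i 1 := by
      rw [add_assoc, add_assoc, add_comm (Finsupp.single i 1)]
    have h2 : (u + Finsupp.single i 1 : Fin m →₀ ℕ) j = u j := by
      rw [Finsupp.add_apply, Finsupp.single_eq_of_ne (Ne.symm h), add_zero]
    have h3 : (u + Finsupp.single j 1 : Fin m →₀ ℕ) i = u i := by
      rw [Finsupp.add_apply, Finsupp.single_eq_of_ne h, add_zero]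
    rw [h1, h2, h3]
    ring

lemma Iso_weight_eq_zero {a : Fin m → ℕ} (ha : ∀ i, 1 ≤ a i) {u : Fin m →₀ ℕ}
    (hu : Finsupp.weight a u = 0) : u = 0 := by
  ext i
  have h1 := Finsupp.le_weight a (s := i) (by have := ha i; omega) u
  rw [hu] at h1
  simpa using h1

lemma Iso_eval_single (i : Fin m) {p : MvPolynomial (Fin m) ℂ} (hp : pderiv i p = 0) :
    eval (Pi.single i 1) p = eval 0 p := by
  classical
  have h1 : ∀ u ∈ p.support, u i = 0 := by
    intro u hu
    by_contra hui
    have h2 := congrArg (coeff (u - Finsupp.single i 1)) hp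
    have h3 : u - Finsupp.single i 1 + Finsupp.single i 1 = u := by
      refine tsub_add_cancel_of_le ?_
      rw [Finsupp.single_le_iff]
      omega
    rw [coeff_pderiv, h3, coeff_zero] at h2
    rcases mul_eq_zero.1 h2 with h4 | h4
    · exact (mem_support_iff.1 hu) h4
    · generalize (u - Finsupp.single i 1 : Fin m →₀ ℕ) i = c at h4
      have h5 : ((c + 1 : ℕ) : ℂ) = 0 := by
        push_cast
        exact h4
      rw [Nat.cast_eq_zero] at h5
      omega
  rw [eval_eq', eval_eq']
  refine Finset.sum_congr rfl fun u hu => ?_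
  congr 1
  refine Finset.prod_congr rfl fun k _ => ?_
  by_cases hk : k = i
  · subst hk
    rw [h1 u hu, pow_zero, pow_zero]
  · rw [Pi.single_eq_of_ne hk, Pi.zero_apply]

/-- The weights are smaller than the degree.
PROOF.  Let `N ≤ a i`.  If `∂_i g ≠ 0`, then `g` has a monomial containing `X i`, of weight `N ≥ a i`, so
(positive weights) the monomial is `X i`, `N = a i`, and `∂_i g` is homogeneous of weight `0`, that is a
constant (positive weights), not zero, contradicting `crit` at `0`.  If `∂_i g = 0`, then `g` does not involve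
`X i` (characteristic 0), so all partial derivatives vanish at `Pi.single i 1` as they do at `0`, and
`crit` gives `Pi.single i 1 = 0`. -/
theorem weight_lt {a : Fin m → ℕ} {N : ℕ} (ha : ∀ i, 1 ≤ a i) {g : MvPolynomial (Fin m) ℂ}
    (hg : g.IsWeightedHomogeneous a N)
    (hcrit : ∀ z : Fin m → ℂ, (∀ i, eval z (pderiv i g) = 0) ↔ z = 0) (i : Fin m) : a i < N := by
  classical
  by_contra hlt
  push Not at hlt
  have h0 : ∀ j, eval 0 (pderiv j g) = 0 := (hcrit 0).2 rfl
  by_cases hpi : pderiv i g = 0
  · have h1 : ∀ j, eval (Pi.single i 1) (pderiv j g) = 0 := by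
      intro j
      have h2 : pderiv i (pderiv j g) = 0 := by
        rw [Iso_comm, hpi, map_zero]
      rw [Iso_eval_single i h2]
      exact h0 j
    have h2 := (hcrit (Pi.single i 1)).1 h1
    have h3 := congrFun h2 i
    simp at h3
  · obtain ⟨u, hu⟩ := ne_zero_iff.1 hpi
    have h1 : coeff (u + Finsupp.single i 1) g ≠ 0 := by
      rw [coeff_pderiv] at hu
      exact left_ne_zero_of_mul hu
    have h2 := hg h1
    have h3 : Finsupp.weight a (Finsupp.single i 1) = a i := by
      rw [Finsupp.weight_single]; simp
    rw [map_add, h3] at h2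
    have h4 : u = 0 := Iso_weight_eq_zero ha (by omega)
    subst h4
    have h5 := h0 i
    rw [eval_zero, constantCoeff_eq] at h5
    exact hu h5

/-- **Stokes functional of a weighted homogeneous polynomial with an isolated critical point.**
PROOF.  `hasStokes_of_chain`: (K) holds because every relation of the partial derivatives is Koszul
(`syz_koszul`).  (V): let `h` be of weight `0` with `∑ h_i ∂_i g = 0`; it is Koszul, `h_i = ∑_k b_ik ∂_k g`, so
`div h = ∑_k (∑_i ∂_i b_ik) ∂_k g` (the second order terms cancel, as in `kos_shorten`), which vanishes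
at `0` by `crit`; but `div h` is homogeneous of weight `0`, hence a constant, hence `0`. -/
theorem hasStokes_iso {a : Fin m → ℕ} {N : ℕ} (ha : ∀ i, 1 ≤ a i) {g : MvPolynomial (Fin m) ℂ}
    (hg : g.IsWeightedHomogeneous a N)
    (hcrit : ∀ z : Fin m → ℂ, (∀ i, eval z (pderiv i g) = 0) ↔ z = 0) : HasStokes g := by
  classical
  refine hasStokes_of_chain (weight_lt ha hg hcrit) hg ?_ ?_
  · intro j h _ _ hrel _
    exact syz_koszul (fun i => pderiv i g) (fun z hz => (hcrit z).1 hz) h hrel
  · intro h hh hrel
    obtain ⟨b, hb, hhb⟩ := syz_koszul (fun i => pderiv i g) (fun z hz => (hcrit z).1 hz) h hrel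
    -- the divergence vanishes at the origin
    have h1 : ∑ i, pderiv i (h i) = ∑ i, ∑ j, pderiv i (b i j) * pderiv j g +
        ∑ i, ∑ j, b i j * pderiv i (pderiv j g) := by
      rw [← Finset.sum_add_distrib]
      refine Finset.sum_congr rfl fun i _ => ?_
      rw [hhb i, map_sum, ← Finset.sum_add_distrib]
      refine Finset.sum_congr rfl fun j _ => ?_
      rw [Derivation.leibniz, smul_eq_mul, smul_eq_mul]
      ring
    have h2 : ∑ i, ∑ j, b i j * pderiv i (pderiv j g) = 0 := by
      have h3 : ∑ i, ∑ j, b i j * pderiv i (pderiv j g) =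
          - ∑ i, ∑ j, b i j * pderiv i (pderiv j g) := by
        conv_lhs => rw [Finset.sum_comm]
        rw [← Finset.sum_neg_distrib]
        refine Finset.sum_congr rfl fun i _ => ?_
        rw [← Finset.sum_neg_distrib]
        refine Finset.sum_congr rfl fun j _ => ?_
        rw [hb j i, Iso_comm j i g]
        ring
      exact self_eq_neg.1 h3
    have h0 : ∀ j, eval 0 (pderiv j g) = 0 := (hcrit 0).2 rfl
    have h3 : eval 0 (∑ i, pderiv i (h i)) = 0 := by
      rw [h1, h2, add_zero, map_sum]
      refine Finset.sum_eq_zero fun i _ => ?_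
      rw [map_sum]
      refine Finset.sum_eq_zero fun j _ => ?_
      rw [map_mul, h0 j, mul_zero]
    have h4 : (∑ i, pderiv i (h i)).IsWeightedHomogeneous a 0 := by
      refine IsWeightedHomogeneous.sum _ _ _ fun i _ => ?_
      exact (hh i).pderiv (by omega)
    ext u
    rw [coeff_zero]
    by_contra hu
    have h5 := h4 hu
    have h6 := Iso_weight_eq_zero ha h5
    subst h6
    rw [eval_zero, constantCoeff_eq] at h3
    exact hu h3

end Pool.Agent.helper92.LC
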