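import Mathlib
import Pool.Agent.helper92.LC.Defs

/-!
# Project LC, module JetsEx: polynomial jets of an analytic change of coordinates

Independent of the other modules (only Defs).
-/

set_option autoImplicit false

namespace Pool.Agent.helper92.LC

open MvPolynomial Filter Topology Asymptotics
open Pool.Agent.helper67.ND Pool.Agent.helper67.IF

variable {m n k : ℕ}

/-- A polynomial which is `O(‖z‖^K)` at the origin has order at least `K`.
(`Ge_of_scal` and `isBigO_scal` in `Pool.Agent.helper67.IF.Taylor` with the weights `1`.) -/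
theorem ord_of_isBigO {K : ℕ} {P : MvPolynomial (Fin n) ℂ}
    (h : (fun z => eval z P) =O[𝓝 0] (fun z : Fin n → ℂ => ‖z‖ ^ K)) : Ord K P :=
  Ge_of_scal K P fun z => isBigO_scal (fun _ => le_rfl) h z

lemma JetsEx_apx_comp {K : ℕ} {g : Fin k → (Fin n → ℂ) → ℂ} {Q : Fin k → MvPolynomial (Fin n) ℂ}
    (h : ∀ i, Apx K (g i) (Q i)) (P : MvPolynomial (Fin k) ℂ) :
    Apx K (fun z => eval (fun i => g i z) P) (aeval Q P) := by
  induction P using MvPolynomial.induction_on with
  | C a =>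
    have h1 := Apx.const (n := n) K a
    rw [aeval_C]
    simpa using h1
  | add p q hp hq =>
    simp only [map_add]
    exact hp.add hq
  | mul_X p i hp =>
    simp only [map_mul, eval_X, aeval_X]
    exact hp.mul (h i)

lemma JetsEx_isBigO_norm {g : (Fin n → ℂ) → ℂ} (hg : AnalyticAt ℂ g 0) (hg0 : g 0 = 0) :
    g =O[𝓝 0] (fun z : Fin n → ℂ => ‖z‖) := by
  have h1 := hg.differentiableAt.isBigO_sub
  simp only [hg0, sub_zero] at h1
  exact h1.norm_right

/-- **Composition of an approximation.**  If `G - P = O(|w|^K)`, `P` a polynomial, and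
`g_i - Q_i = O(|z|^K)`, `Q_i` polynomials, `g(0) = 0`, `g_i` continuous at `0` with `g = O(|z|)`, `K ≥ 1`, then
`G(g(z)) - P(Q(z)) = O(|z|^K)`.
PROOF.  `G(g) - P(g) = O(|g|^K) = O(|z|^K)`; `P(g) - P(Q) = O(max |g_i - Q_i|)` because `P` is Lipschitz near `0`
(or induction on `P`). -/
theorem isBigO_comp {K : ℕ} (hK : 1 ≤ K) {G : (Fin k → ℂ) → ℂ} {P : MvPolynomial (Fin k) ℂ}
    (hG : (fun w => G w - eval w P) =O[𝓝 0] (fun w : Fin k → ℂ => ‖w‖ ^ K))
    {g : Fin k → (Fin n → ℂ) → ℂ} {Q : Fin k → MvPolynomial (Fin n) ℂ}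
    (hg : ∀ i, AnalyticAt ℂ (g i) 0) (hg0 : ∀ i, g i 0 = 0)
    (hQ : ∀ i, (fun z => g i z - eval z (Q i)) =O[𝓝 0] (fun z : Fin n → ℂ => ‖z‖ ^ K)) :
    (fun z => G (fun i => g i z) - eval z (aeval Q P)) =O[𝓝 0]
      (fun z : Fin n → ℂ => ‖z‖ ^ K) := by
  have hA : ∀ i, Apx K (g i) (Q i) := fun i => ⟨hg i, hQ i⟩
  have h1 := (JetsEx_apx_comp hA P).2
  have hvec : (fun z : Fin n → ℂ => fun i => g i z) =O[𝓝 0] (fun z : Fin n → ℂ => ‖z‖) :=
    isBigO_pi.2 fun i => JetsEx_isBigO_norm (hg i) (hg0 i)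
  have htend : Tendsto (fun z : Fin n → ℂ => fun i => g i z) (𝓝 0) (𝓝 (0 : Fin k → ℂ)) := by
    rw [tendsto_pi_nhds]
    intro i
    have h2 := (hg i).continuousAt.tendsto
    rw [hg0 i] at h2
    exact h2
  have h3 := hG.comp_tendsto htend
  have h4 : (fun z : Fin n → ℂ => ‖(fun i => g i z : Fin k → ℂ)‖ ^ K) =O[𝓝 0]
      (fun z : Fin n → ℂ => ‖z‖ ^ K) := hvec.norm_left.pow K
  have h5 := h3.trans h4
  refine (h5.add h1).congr_left fun z => ?_
  simp only [Function.comp]
  ring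

/-- **Jets exist.**
PROOF.  We may assume `1 ≤ K` (use `K + 1` in general, `Ge.mono`).  Let `Y, Z` be the analytic maps
of `hW.iso`.  `Y_i - q_i` is analytic at `0` and vanishes there; `Apx.exists` gives a polynomial `Yp_i` with
`Y_i - q_i - Yp_i = O(|v|^K)`; it has constant term `0`.  `y ↦ Z_i(q + y)` is analytic at `0` and vanishes there;
let `Zp_i` be its approximation.  `YZ`: `Y_i(Z(q + y)) - q_i = y_i` near `0`, so by `isBigO_comp`
(`G = Y_i - q_i`, `g = Z(q + ·)`) `y_i - (aeval Zp (Yp_i))(y) = O(|y|^K)`; conclude with `ord_of_isBigO`.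
`ZY`: the same with `Z_i(q + (Y(v) - q)) = v_i`.  `FY`: `F(Y(v)) = g(v)` near `0` and
`F(Y(v)) = (tr q F)(Y(v) - q)` (`eval_tr`), `isBigO_comp` with `G = eval · (tr q F)`, `P = tr q F`. -/
theorem WH.jets {F g : MvPolynomial (Fin m) ℂ} {q : Fin m → ℂ} {a : Fin m → ℕ} {N : ℕ}
    (hW : WH F q a N g) (K : ℕ) :
    ∃ Y Z : Fin m → MvPolynomial (Fin m) ℂ, Jets F q g K Y Z := by
  obtain ⟨Y, Z, hY, hZ, hY0, hZ0, hZY, hYZ, hF⟩ := hW.iso
  have hK : 1 ≤ K + 1 := Nat.le_add_left 1 K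
  -- the translated maps
  have hYa : ∀ i, AnalyticAt ℂ (fun v => Y v i - q i) 0 := fun i =>
    ((ContinuousLinearMap.proj (R := ℂ) (φ := fun _ : Fin m => ℂ) i).analyticAt (Y 0)).comp hY
      |>.sub analyticAt_const
  have hYa0 : ∀ i, (fun v => Y v i - q i) 0 = 0 := fun i => by simp [hY0]
  have htr : AnalyticAt ℂ (fun y : Fin m → ℂ => q + y) 0 := analyticAt_const.add analyticAt_id
  have hZq : AnalyticAt ℂ Z (q + 0) := by rw [add_zero]; exact hZ
  have hZa' : AnalyticAt ℂ (fun y : Fin m → ℂ => Z (q + y)) 0 := hZq.comp' htr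
  have hZa : ∀ i, AnalyticAt ℂ (fun y => Z (q + y) i) 0 := fun i =>
    ((ContinuousLinearMap.proj (R := ℂ) (φ := fun _ : Fin m => ℂ) i).analyticAt _).comp hZa'
  have hZa0 : ∀ i, (fun y => Z (q + y) i) 0 = 0 := fun i => by simp [hZ0]
  choose Yp hYp using fun i => Apx.exists (hYa i) (K + 1)
  choose Zp hZp using fun i => Apx.exists (hZa i) (K + 1)
  have hmono : (fun z : Fin m → ℂ => ‖z‖ ^ (K + 1)) =O[𝓝 0] (fun z : Fin m → ℂ => ‖z‖ ^ 1) :=
    isBigO_norm_pow_mono hK
  refine ⟨Yp, Zp, ⟨fun i => ?_, fun i => ?_, fun i => ?_, fun i => ?_, ?_⟩⟩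
  · -- `Y0`
    refine ord_of_isBigO ?_
    have h1 := (hYp i).2.trans hmono
    have h2 : (fun v => Y v i - q i) =O[𝓝 0] (fun z : Fin m → ℂ => ‖z‖ ^ 1) := by
      simp only [pow_one]
      exact JetsEx_isBigO_norm (hYa i) (hYa0 i)
    refine (h2.sub h1).congr_left fun z => ?_
    ring
  · -- `Z0`
    refine ord_of_isBigO ?_
    have h1 := (hZp i).2.trans hmono
    have h2 : (fun y => Z (q + y) i) =O[𝓝 0] (fun z : Fin m → ℂ => ‖z‖ ^ 1) := by
      simp only [pow_one]
      exact JetsEx_isBigO_norm (hZa i) (hZa0 i)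
    refine (h2.sub h1).congr_left fun z => ?_
    ring
  · -- `YZ`
    refine Ge.mono (w := K + 1) (ord_of_isBigO ?_) (Nat.le_succ K)
    have h1 := isBigO_comp hK (hYp i).2 (g := fun j y => Z (q + y) j) hZa hZa0
      (fun j => (hZp j).2)
    have h2 : Tendsto (fun y : Fin m → ℂ => q + y) (𝓝 0) (𝓝 q) := by
      have h3 := htr.continuousAt.tendsto
      simpa using h3
    refine h1.neg_left.congr' ?_ EventuallyEq.rfl
    filter_upwards [h2.eventually hYZ] with y hy
    have h4 : Y (fun j => Z (q + y) j) = q + y := hy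
    simp only [h4, map_sub, eval_X, Pi.add_apply]
    ring
  · -- `ZY`
    refine Ge.mono (w := K + 1) (ord_of_isBigO ?_) (Nat.le_succ K)
    have h1 := isBigO_comp hK (hZp i).2 (g := fun j v => Y v j - q j) hYa hYa0
      (fun j => (hYp j).2)
    refine h1.neg_left.congr' ?_ EventuallyEq.rfl
    filter_upwards [hZY] with v hv
    have h4 : (q + fun j => Y v j - q j) = Y v := by
      funext j
      simp
    simp only [h4, hv, map_sub, eval_X]
    ring
  · -- `FY`
    refine Ge.mono (w := K + 1) (ord_of_isBigO ?_) (Nat.le_succ K)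
    have h1 := isBigO_comp hK (G := fun w => eval w (tr q F)) (P := tr q F)
      (by simp only [sub_self]; exact isBigO_zero _ _) (g := fun j v => Y v j - q j) hYa hYa0
      (fun j => (hYp j).2)
    refine h1.neg_left.congr' ?_ EventuallyEq.rfl
    filter_upwards [hF] with v hv
    have h4 : (fun j => Y v j - q j + q j) = Y v := by
      funext j
      simp
    simp only [eval_tr, h4, hv, map_sub]
    ring

end Pool.Agent.helper92.LC
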