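import Mathlib
import Pool.Agent.helper92.LC.Defs

/-!
# Project LC, module SuspAt: suspensions, functionals which do not vanish at a power of `z`

Independent of the other modules.
-/

set_option autoImplicit false

namespace Pool.Agent.helper92.LC

open MvPolynomial
open Pool.Agent.helper67.IF

variable {σ ρ : Type} [Fintype σ] {e1 : σ → ρ} {z : ρ}

/-- It is enough to check the Stokes relation on monomials. -/
theorem SuspAt_mono {τ : Type} (f0 : MvPolynomial τ ℂ) (G : MvPolynomial τ ℂ →ₗ[ℂ] ℂ)
    (h : ∀ (i : τ) (u : τ →₀ ℕ),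
      G (pderiv i (monomial u 1)) = G (monomial u 1 * pderiv i f0)) :
    ∀ (i : τ) (φ : MvPolynomial τ ℂ), G (pderiv i φ) = G (φ * pderiv i f0) := by
  intro i φ
  induction φ using MvPolynomial.induction_on' with
  | monomial m c =>
    have e : (monomial m c : MvPolynomial τ ℂ) = c • monomial m 1 := by
      rw [smul_monomial, smul_eq_mul, mul_one]
    rw [e, Derivation.map_smul, map_smul, h, smul_mul_assoc, map_smul]
  | add p q hp hq => rw [map_add, map_add, add_mul, map_add, hp, hq]

open Classical in
/-- **Suspensions `z ^ c (g + κ z ^ p)`**: a Stokes functional which does not vanish at `z ^ r`.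
PROOF.  This is `HasStokes.susp` in `Pool.Agent.helper67.IF.Susp` (the case `r = 0`); copy its proof.  The
functional is `rename φ * z ^ γ ↦ G φ * W (γ - c e)` for `φ` homogeneous of weight `m e` (and `0` if the weight is
not divisible by `m`), where `W : ℤ → ℂ` satisfies `q κ W (x + q) = (x + 1 - c S) W x`, `q = c + p`,
`S = (∑ b_i) / m`.  Only the choice of `W` changes: now `W` is supported on the class of `r` mod `q`,
`W (r + q k) = w k` with `w 0 = 1` and `w (k + 1) = ((q k + r + 1 - c S) / (q κ)) w k`
(`exists_rec`; the hypothesis `hr` says that the factors with `k < 0` do not vanish), so that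
`G' (z ^ r) = G 1 * W r = G 1 ≠ 0`. -/
theorem susp_at (h : Split e1 (fun _ : Unit => z)) {g : MvPolynomial σ ℂ}
    (hg : HasStokes g) {b : σ → ℕ} {m : ℕ} (hm : 1 ≤ m) (hb : g.IsWeightedHomogeneous b m)
    (c p : ℕ) (hp : 1 ≤ p) (κ : ℂ) (hκ : κ ≠ 0) (r : ℕ)
    (hr : ∀ j : ℕ, 1 ≤ j → (r + 1) * m ≠ c * (∑ i, b i) + j * ((c + p) * m)) :
    ∃ G : MvPolynomial ρ ℂ →ₗ[ℂ] ℂ,
      (∀ (i : ρ) (φ : MvPolynomial ρ ℂ), G (pderiv i φ) =
        G (φ * pderiv i (X z ^ c * (rename e1 g + C κ * X z ^ p)))) ∧ G (X z ^ r) ≠ 0 := by
  obtain ⟨G, hG, hG1⟩ := hg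
  have hmC : (m : ℂ) ≠ 0 := by exact_mod_cast (by omega : m ≠ 0)
  set q : ℕ := c + p with hq
  have hqC : (q : ℂ) ≠ 0 := by exact_mod_cast (by omega : q ≠ 0)
  set S : ℂ := (∑ i, (b i : ℂ)) / m with hS
  -- the recursion
  obtain ⟨w, hw0, hw1⟩ := exists_rec (fun k => ((q : ℂ) * k + r + 1 - c * S) / (q * κ)) (by
    intro k hk h0
    have h1 : (q : ℂ) * k + r + 1 - c * S = 0 := by
      rcases div_eq_zero_iff.1 h0 with h2 | h2
      · exact h2
      · exact absurd h2 (mul_ne_zero hqC hκ)
    have h2 : ((m : ℤ) * ((q : ℤ) * k + r + 1) - c * (∑ i, b i : ℕ) : ℤ) = 0 := by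
      have h3 : ((m : ℂ) * ((q : ℂ) * k + r + 1) - c * ((∑ i, b i : ℕ) : ℂ)) = 0 := by
        rw [hS] at h1
        field_simp at h1
        push_cast
        linear_combination h1
      exact_mod_cast h3
    obtain ⟨j, hj⟩ : ∃ j : ℕ, (j : ℤ) = -k := ⟨(-k).toNat, Int.toNat_of_nonneg (by omega)⟩
    refine hr j (by omega) ?_
    have hk' : k = -(j : ℤ) := by omega
    rw [hk'] at h2
    have h5 : (((r + 1) * m : ℕ) : ℤ) = ((c * (∑ i, b i) + j * (q * m) : ℕ) : ℤ) := by
      push_cast
      push_cast at h2
      linear_combination h2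
    exact_mod_cast h5)
  set W : ℤ → ℂ := fun x => if (q : ℤ) ∣ x - r then w ((x - r) / q) else 0 with hW
  have hWrec : ∀ x : ℤ, (q : ℂ) * κ * W (x + q) = ((x : ℂ) + 1 - c * S) * W x := by
    intro x
    have hqZ : (q : ℤ) ≠ 0 := by exact_mod_cast (by omega : q ≠ 0)
    by_cases hx : (q : ℤ) ∣ x - r
    · obtain ⟨k, hk⟩ := hx
      have e0 : x = r + q * k := by omega
      have e1 : x + q - r = q * (k + 1) := by rw [e0]; ring
      simp only [hW]
      rw [e1, hk, if_pos (Dvd.intro _ rfl), if_pos (Dvd.intro _ rfl),
        Int.mul_ediv_cancel_left _ hqZ, Int.mul_ediv_cancel_left _ hqZ, hw1, e0]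
      push_cast
      field_simp
      ring
    · have hx' : ¬ (q : ℤ) ∣ x + q - r := by
        intro h
        apply hx
        have : x + q - r = x - r + q := by ring
        rw [this] at h
        exact (Int.dvd_add_left (dvd_refl _)).1 h
      simp only [hW]
      rw [if_neg hx, if_neg hx', mul_zero, mul_zero]
  have hW0 : W r = 1 := by
    simp only [hW]
    rw [sub_self, if_pos (dvd_zero _), Int.zero_ediv, hw0]
  -- the functional
  set F : (σ →₀ ℕ) → (Unit →₀ ℕ) → ℂ := fun v u =>
    if m ∣ Finsupp.weight b v then
      G (monomial v 1) * W ((u () : ℤ) - c * ((Finsupp.weight b v / m : ℕ) : ℤ)) else 0 with hF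
  have hXz : ∀ γ : ℕ, (X z ^ γ : MvPolynomial ρ ℂ) =
      rename (fun _ : Unit => z) (monomial (Finsupp.single () γ) 1) := by
    intro γ
    rw [rename_monomial, Finsupp.mapDomain_single, X_pow_eq_monomial]
  -- values on homogeneous polynomials
  have hval : ∀ (φ : MvPolynomial σ ℂ) (e : ℕ), φ.IsWeightedHomogeneous b e → ∀ γ : ℕ,
      h.G F (rename e1 φ * X z ^ γ) =
        if m ∣ e then G φ * W ((γ : ℤ) - c * ((e / m : ℕ) : ℤ)) else 0 := by
    intro φ e hφ γ
    have h1 : h.G F (rename e1 φ * X z ^ γ) = ∑ v ∈ φ.support, coeff v φ *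
        (if m ∣ e then G (monomial v 1) * W ((γ : ℤ) - c * ((e / m : ℕ) : ℤ)) else 0) := by
      conv_lhs => rw [φ.as_sum]
      rw [map_sum, Finset.sum_mul, map_sum]
      refine Finset.sum_congr rfl fun v hv => ?_
      rw [hXz, h.G_monomial, mul_one]
      simp only [hF]
      rw [hφ (mem_support_iff.1 hv), Finsupp.single_eq_same]
    rw [h1]
    by_cases hme : m ∣ e
    · simp only [if_pos hme]
      have h2 : G φ = ∑ v ∈ φ.support, coeff v φ * G (monomial v 1) := by
        conv_lhs => rw [φ.as_sum]
        rw [map_sum]
        refine Finset.sum_congr rfl fun v _ => ?_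
        have e1 : (monomial v (coeff v φ) : MvPolynomial σ ℂ) = coeff v φ • monomial v 1 := by
          rw [smul_monomial, smul_eq_mul, mul_one]
        rw [e1, map_smul, smul_eq_mul]
      rw [h2, Finset.sum_mul]
      exact Finset.sum_congr rfl fun v _ => by ring
    · simp only [if_neg hme, mul_zero, Finset.sum_const_zero]
  refine ⟨h.G F, SuspAt_mono _ _ ?_, ?_⟩
  · intro r' u
    rw [h.monomial_eq u]
    set v := h.c1 u with hv
    set γ : ℕ := h.c2 u () with hγ
    have hu2 : (h.c2 u) = Finsupp.single () γ := by
      ext; simp [hγ]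
    rw [hu2, ← hXz]
    have hvh : (monomial v (1 : ℂ)).IsWeightedHomogeneous b (Finsupp.weight b v) :=
      isWeightedHomogeneous_monomial b v 1 rfl
    set e := Finsupp.weight b v with he
    rcases h.cover r' with ⟨i, rfl⟩ | ⟨j, rfl⟩
    · -- derivative in a variable of `g`
      have hL : pderiv (e1 i) (rename e1 (monomial v (1 : ℂ)) * X z ^ γ) =
          rename e1 (pderiv i (monomial v (1 : ℂ))) * X z ^ γ := by
        rw [hXz, h.pderiv1]
      have hR : rename e1 (monomial v (1 : ℂ)) * X z ^ γ *
          pderiv (e1 i) (X z ^ c * (rename e1 g + C κ * X z ^ p)) =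
          rename e1 (monomial v (1 : ℂ) * pderiv i g) * X z ^ (γ + c) := by
        have h1 : pderiv (e1 i) (X z ^ c * (rename e1 g + C κ * X z ^ p)) =
            rename e1 (pderiv i g) * X z ^ c := by
          have h2 : (X z ^ c * (rename e1 g + C κ * X z ^ p) : MvPolynomial ρ ℂ) =
              rename e1 g * rename (fun _ : Unit => z) (monomial (Finsupp.single () c) 1) +
              rename e1 1 * rename (fun _ : Unit => z)
                (C κ * monomial (Finsupp.single () (c + p)) 1) := by
            rw [map_mul, ← hXz, ← hXz, rename_C, map_one, pow_add]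
            ring
          rw [h2, map_add, h.pderiv1, h.pderiv1, (pderiv i).map_one_eq_zero, map_zero, zero_mul,
            add_zero, ← hXz]
        rw [h1, map_mul, pow_add]
        ring
      rw [hL, hR]
      by_cases hz : G (pderiv i (monomial v 1)) = 0
      · -- both sides vanish
        have hz' : G (monomial v 1 * pderiv i g) = 0 := by rw [← hG]; exact hz
        have h1 : h.G F (rename e1 (pderiv i (monomial v 1)) * X z ^ γ) = 0 := by
          by_cases hbe : b i ≤ e
          · rw [hval _ (e - b i) (hvh.pderiv (by omega)), hz, zero_mul, ite_self]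
          · have : pderiv i (monomial v (1 : ℂ)) = 0 := by
              ext w
              rw [coeff_pderiv, coeff_zero]
              by_contra h3
              have h4 := hvh (left_ne_zero_of_mul h3)
              rw [map_add] at h4
              have h5 : Finsupp.weight b (Finsupp.single i 1) = b i := by
                rw [Finsupp.weight_single]; simp
              omega
            rw [this, map_zero, zero_mul, map_zero]
        have h2 : h.G F (rename e1 (monomial v 1 * pderiv i g) * X z ^ (γ + c)) = 0 := by
          by_cases hbm : b i ≤ m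
          · rw [hval _ (e + (m - b i)) (hvh.mul (hb.pderiv (by omega))), hz', zero_mul, ite_self]
          · have : pderiv i g = 0 := by
              ext w
              rw [coeff_pderiv, coeff_zero]
              by_contra h3
              have h4 := hb (left_ne_zero_of_mul h3)
              rw [map_add] at h4
              have h5 : Finsupp.weight b (Finsupp.single i 1) = b i := by
                rw [Finsupp.weight_single]; simp
              omega
            rw [this, mul_zero, map_zero, zero_mul, map_zero]
        rw [h1, h2]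
      · have hbe : b i ≤ e := by
          by_contra hbe
          apply hz
          have : pderiv i (monomial v (1 : ℂ)) = 0 := by
            ext w
            rw [coeff_pderiv, coeff_zero]
            by_contra h3
            have h4 := hvh (left_ne_zero_of_mul h3)
            rw [map_add] at h4
            have h5 : Finsupp.weight b (Finsupp.single i 1) = b i := by
              rw [Finsupp.weight_single]; simp
            omega
          rw [this, map_zero]
        have hbm : b i ≤ m := by
          by_contra hbm
          apply hz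
          have : pderiv i g = 0 := by
            ext w
            rw [coeff_pderiv, coeff_zero]
            by_contra h3
            have h4 := hb (left_ne_zero_of_mul h3)
            rw [map_add] at h4
            have h5 : Finsupp.weight b (Finsupp.single i 1) = b i := by
              rw [Finsupp.weight_single]; simp
            omega
          rw [hG, this, mul_zero, map_zero]
        have e3 : e + (m - b i) = (e - b i) + m := by omega
        rw [hval _ (e - b i) (hvh.pderiv (by omega)), hval _ (e + (m - b i))
          (hvh.mul (hb.pderiv (by omega))), ← hG, e3]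
        by_cases hd : m ∣ e - b i
        · rw [if_pos hd, if_pos ((Nat.dvd_add_self_right).2 hd), Nat.add_div_right _ (by omega)]
          congr 2
          push_cast
          ring
        · rw [if_neg hd, if_neg (fun h' => hd ((Nat.dvd_add_self_right).1 h'))]
    · -- derivative in `z`
      have hdz : pderiv z (rename e1 (monomial v (1 : ℂ))) = 0 := h.pderiv2_zero () _
      have hdz' : pderiv z (rename e1 g) = 0 := h.pderiv2_zero () g
      have hL : pderiv z (rename e1 (monomial v (1 : ℂ)) * X z ^ γ) =
          (γ : ℂ) • (rename e1 (monomial v (1 : ℂ)) * X z ^ (γ - 1)) := by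
        rw [Derivation.leibniz, hdz, smul_zero, add_zero, Derivation.leibniz_pow, pderiv_X_self,
          smul_eq_mul, smul_eq_mul, nsmul_eq_mul, mul_one, smul_eq_C_mul, map_natCast]
        ring
      have hR : rename e1 (monomial v (1 : ℂ)) * X z ^ γ *
          pderiv z (X z ^ c * (rename e1 g + C κ * X z ^ p)) =
          (c : ℂ) • (rename e1 (monomial v (1 : ℂ) * g) * X z ^ (γ + c - 1)) +
          ((q : ℂ) * κ) • (rename e1 (monomial v (1 : ℂ)) * X z ^ (γ + q - 1)) := by
        rw [Derivation.leibniz, map_add, hdz', zero_add, Derivation.leibniz_pow,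
          Derivation.leibniz, Derivation.leibniz_pow, pderiv_X_self, pderiv_C]
        simp only [smul_eq_mul, nsmul_eq_mul, mul_one, smul_zero, add_zero, smul_eq_C_mul,
          map_natCast, map_mul]
        have h1 : (X z ^ γ * ((c : MvPolynomial ρ ℂ) * X z ^ (c - 1))) =
            (c : MvPolynomial ρ ℂ) * X z ^ (γ + c - 1) := by
          rcases Nat.eq_zero_or_pos c with h0 | h0
          · rw [h0]; simp
          · have : γ + c - 1 = γ + (c - 1) := by omega
            rw [this, pow_add]; ring
        have h2 : (X z ^ γ * (X z ^ c * (C κ * ((p : MvPolynomial ρ ℂ) * X z ^ (p - 1))))) =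
            (p : MvPolynomial ρ ℂ) * C κ * X z ^ (γ + q - 1) := by
          have : γ + q - 1 = γ + (c + (p - 1)) := by omega
          rw [this, pow_add, pow_add]; ring
        have h3 : (c : MvPolynomial ρ ℂ) * X z ^ (γ + c - 1) * X z ^ p =
            (c : MvPolynomial ρ ℂ) * X z ^ (γ + q - 1) := by
          rcases Nat.eq_zero_or_pos c with h0 | h0
          · rw [h0]; simp
          · have : γ + q - 1 = γ + c - 1 + p := by omega
            rw [this, pow_add]; ring
        have h4 : (q : MvPolynomial ρ ℂ) = c + p := by rw [hq]; push_cast; ring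
        calc _ = rename e1 (monomial v 1) * ((X z ^ γ * (X z ^ c *
              (C κ * ((p : MvPolynomial ρ ℂ) * X z ^ (p - 1))))) +
              (X z ^ γ * ((c : MvPolynomial ρ ℂ) * X z ^ (c - 1))) *
                (rename e1 g + C κ * X z ^ p)) := by ring
          _ = rename e1 (monomial v 1) * ((p : MvPolynomial ρ ℂ) * C κ * X z ^ (γ + q - 1) +
              (c : MvPolynomial ρ ℂ) * X z ^ (γ + c - 1) * rename e1 g +
              C κ * ((c : MvPolynomial ρ ℂ) * X z ^ (γ + c - 1) * X z ^ p)) := by
                rw [h1, h2]; ring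
          _ = _ := by rw [h3, h4]; ring
      rw [hL, hR, map_smul, map_add, map_smul, map_smul, hval _ e hvh, hval _ e hvh,
        hval _ (e + m) (hvh.mul hb), G_mul_f0 hm hb hG hvh, smul_eq_mul, smul_eq_mul, smul_eq_mul,
        ← hS]
      by_cases hd : m ∣ e
      · rw [if_pos hd, if_pos ((Nat.dvd_add_self_right).2 hd), Nat.add_div_right _ (by omega),
          if_pos hd]
        obtain ⟨k, hk⟩ := hd
        have hek : e / m = k := by rw [hk, Nat.mul_div_cancel_left _ (by omega)]
        rw [hek]
        have hkC : (e : ℂ) / m = k := by rw [hk]; push_cast; field_simp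
        rw [hkC]
        set x : ℤ := (γ : ℤ) - 1 - c * (k : ℤ) with hx
        have hxr := hWrec x
        have e1 : ((((γ + q - 1 : ℕ) : ℤ)) - c * (k : ℤ)) = x + q := by
          rw [hx]; push_cast [Nat.cast_sub (show 1 ≤ γ + q by omega)]; ring
        rw [e1]
        have e2 : (γ : ℂ) * (G (monomial v 1) * W ((((γ - 1 : ℕ) : ℤ)) - c * (k : ℤ))) =
            (γ : ℂ) * (G (monomial v 1) * W x) := by
          rcases Nat.eq_zero_or_pos γ with h0 | h0
          · rw [h0]; simp
          · rw [hx]; push_cast [Nat.cast_sub h0]; rfl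
        have e3 : (c : ℂ) * ((S + k) * G (monomial v 1) *
            W ((((γ + c - 1 : ℕ) : ℤ)) - c * ((k.succ : ℕ) : ℤ))) =
            (c : ℂ) * ((S + k) * G (monomial v 1) * W x) := by
          rcases Nat.eq_zero_or_pos c with h0 | h0
          · rw [h0]; simp
          · have : ((((γ + c - 1 : ℕ) : ℤ)) - c * ((k.succ : ℕ) : ℤ)) = x := by
              rw [hx]; push_cast [Nat.cast_sub (show 1 ≤ γ + c by omega)]; ring
            rw [this]
        rw [e2, e3]
        have hxC : (x : ℂ) = (γ : ℂ) - 1 - c * k := by rw [hx]; push_cast; ring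
        rw [hxC] at hxr
        linear_combination (-G (monomial v 1)) * hxr
      · rw [if_neg hd, if_neg (fun h' => hd ((Nat.dvd_add_self_right).1 h')), if_neg hd]
        simp
  · have e : (X z ^ r : MvPolynomial ρ ℂ) = rename e1 1 * X z ^ r := by
      rw [map_one, one_mul]
    rw [e, hval 1 0 (isWeightedHomogeneous_one ℂ b), if_pos (dvd_zero _)]
    have h0 : ((r : ℤ) - c * ((0 / m : ℕ) : ℤ)) = r := by
      rw [Nat.zero_div]
      push_cast
      ring
    rw [h0, hW0, mul_one]
    exact hG1

end Pool.Agent.helper92.LC
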