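import Mathlib
import Pool.Agent.helper92.LC.Defs
import Pool.Agent.helper92.LC.PiolaId
import Pool.Agent.helper92.LC.Pull
import Pool.Agent.helper92.LC.Iso
import Pool.Agent.helper92.LC.SuspAt
import Pool.Agent.helper92.LC.MapInit
import Pool.Agent.helper92.LC.ChartInit
import Pool.Agent.helper92.LC.JetsEx

/-!
# Project LC, module PointRoot: the root attached to a singular point of the tangent cone

Imports the others through their stubs.
-/

set_option autoImplicit false

namespace Pool.Agent.helper92.LC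

open MvPolynomial Filter Topology Asymptotics
open Pool.Agent.helper67.ND Pool.Agent.helper67.IF

variable {m : ℕ}

lemma PointRoot_eval_zero {n N : ℕ} (hN : 1 ≤ N) {a : Fin n → ℕ}
    {g : MvPolynomial (Fin n) ℂ} (hg : g.IsWeightedHomogeneous a N) : eval 0 g = 0 := by
  have h1 := eval_scal_homog hg 0 0
  have h2 : scal a 0 (0 : Fin n → ℂ) = 0 := by
    funext i
    simp [scal]
  rw [h2, zero_pow (by omega), zero_mul] at h1
  exact h1

lemma PointRoot_ge {n : ℕ} {a : Fin n → ℕ} (ha : ∀ i, 1 ≤ a i) {φ : MvPolynomial (Fin n) ℂ}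
    (h0 : coeff 0 φ = 0) : Ge a 1 φ := by
  intro μ hμ
  have h1 : μ ≠ 0 := by
    rintro rfl
    exact mem_support_iff.1 hμ h0
  obtain ⟨i, hi⟩ := Finsupp.ne_iff.1 h1
  have h2 := Finsupp.le_weight a (s := i) (by have := ha i; omega) μ
  have h3 : μ i ≠ 0 := hi
  omega

lemma PointRoot_wt {k N : ℕ} (hk : 1 ≤ k) (hN : 1 ≤ N) {a : Fin m → ℕ} (ha : ∀ i, 1 ≤ a i) :
    ∀ i, 1 ≤ wt k N a i := by
  intro i
  refine Fin.lastCases ?_ (fun i => ?_) i
  · simpa [wt] using hN
  · have h1 : wt k N a i.castSucc = k * a i := by simp [wt]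
    rw [h1]
    exact Nat.mul_pos hk (ha i)

lemma PointRoot_Xpow {k N : ℕ} {a : Fin m → ℕ} (r : ℕ) :
    (X (Fin.last m) ^ r : MvPolynomial (Fin (m + 1)) ℂ).IsWeightedHomogeneous (wt k N a)
      (r * N) := by
  have h1 := (isWeightedHomogeneous_X ℂ (wt k N a) (Fin.last m)).pow r
  have h2 : wt k N a (Fin.last m) = N := by simp [wt]
  rw [h2, smul_eq_mul] at h1
  exact h1

/-- **The root of a singular point `(q, 1)` of the tangent cone.**
`f = f0 + h + O(|z|^(d+k+1))`, `h(q, 1) ≠ 0`, `dh f0` is weighted homogeneous at `q`.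
PROOF.  `Y, Z` from `WH.jets` with `K = N + 2`; `u = det (jacM Y)`, `u(0) ≠ 0` (`jets_det`), so
`Piola Y u _` (`piola`), the same holds for `Yq = fun j => Y j + C (q j)` (`pderiv` does not see the
constants), and `Piola (chart Yq) (x^m * rename u) B` (`piola_chart`).  Weights `wt k N a` (all `≥ 1`),
`F0 = x^d (rename g + κ x^k)`, `κ = h(q, 1) ≠ 0`, homogeneous of weight `(d + k) N` (`wt_homog`), `≠ 0`
(compare with `x^(d+k)`: `eval` at `(0, 1)`, `g(0) = 0` as `N ≥ 1`), the initial form of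
`f ∘ chart Yq` (`chart_init`).  `J0 = C (u(0)) * x^m` is homogeneous of weight `r = m N`, and
`J - J0 = x^m * rename (u - u(0)) ∈ Ge (r + 1)`.  The functional: `susp_at` with
`g` (`hasStokes_iso`), weights `a`, `m := N`, `c = d`, `p = k`, `r := m`; `hex` is its hypothesis `hr`
(`Split Fin.castSucc (fun _ => Fin.last m)`: see `LY.split_castSucc`).
`initial_form_map` gives the root `- (m N + N + k ∑ a_i) / ((d + k) N)`. -/
theorem point_root (hm : 1 ≤ m) {d k : ℕ} (hk : 1 ≤ k)
    {f0 h : MvPolynomial (Fin (m + 1)) ℂ}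
    (hf0 : f0.IsHomogeneous d) (hh : h.IsHomogeneous (d + k)) {f : (Fin (m + 1) → ℂ) → ℂ}
    (hf : AnalyticAt ℂ f 0)
    (hO : (fun z => f z - (eval z f0 + eval z h)) =O[𝓝 0]
      (fun z : Fin (m + 1) → ℂ => ‖z‖ ^ (d + k + 1)))
    {q : Fin m → ℂ} {a : Fin m → ℕ} {N : ℕ} {g : MvPolynomial (Fin m) ℂ}
    (hW : WH (dh f0) q a N g) (hq : eval (pt q) h ≠ 0)
    (hex : ∀ j : ℕ, 1 ≤ j → (m + 1) * N ≠ d * (∑ i, a i) + j * ((d + k) * N))
    {b : Polynomial ℂ} (hb : IsBernstein f b) :
    b.eval (-(((m + 1) * N + k * ∑ i, a i : ℕ) : ℂ) / ((d + k) * N : ℕ)) = 0 := by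
  have hN : 1 ≤ N := by
    have := weight_lt hW.pos hW.homog hW.crit (⟨0, hm⟩ : Fin m)
    omega
  obtain ⟨Y, Z, hJ⟩ := hW.jets (N + 2)
  have hu0 := jets_det (by omega : 2 ≤ N + 2) hJ
  set u := (jacM Y).det with hu
  have hune : u ≠ 0 := by
    intro h0
    rw [h0, map_zero] at hu0
    exact hu0 rfl
  have hjac : jacM (fun j => Y j + C (q j)) = jacM Y := by
    ext1 i j
    simp only [jacM, Matrix.of_apply, map_add, pderiv_C, add_zero]
  have hP1 := piola (fun j => Y j + C (q j)) (by rw [hjac]; exact hune)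
  rw [hjac, ← hu] at hP1
  obtain ⟨B, hB⟩ := piola_chart hm hP1
  have hwt := PointRoot_wt hk hN hW.pos
  set κ := eval (pt q) h with hκ
  have hF0 := wt_homog (k := k) (d := d) hW.homog κ
  have hF00 : (X (Fin.last m) ^ d * (rename Fin.castSucc g + C κ * X (Fin.last m) ^ k) :
      MvPolynomial (Fin (m + 1)) ℂ) ≠ 0 := by
    intro h0
    have h1 := congrArg (eval (pt (0 : Fin m → ℂ))) h0
    have h2 : eval (pt (0 : Fin m → ℂ)) (rename Fin.castSucc g) = 0 := by
      rw [eval_rename]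
      have h3 : pt (0 : Fin m → ℂ) ∘ Fin.castSucc = 0 := by
        funext i
        simp
      rw [h3]
      exact PointRoot_eval_zero hN hW.homog
    rw [map_mul, map_add, map_mul, map_pow, map_pow, eval_X, eval_C, pt_last, one_pow, one_pow,
      h2, one_mul, zero_add, mul_one, map_zero] at h1
    exact hq h1
  have hin := chart_init hk hf0 hh hO hJ.Y0 hW.pos hN hW.homog (hJ.FY.mono (by omega))
  rw [← hκ] at hin
  obtain ⟨G, hG, hG1⟩ := susp_at (e1 := (Fin.castSucc : Fin m → Fin (m + 1))) (z := Fin.last m)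
    ⟨Fin.castSucc_injective m, fun _ _ _ => rfl, fun i _ h =>
      absurd h (Fin.castSucc_lt_last i).ne, fun r =>
      Fin.lastCases (Or.inr ⟨(), rfl⟩) (fun i => Or.inl ⟨i, rfl⟩) r⟩
    (hasStokes_iso hW.pos hW.homog hW.crit) hN hW.homog d k hk κ hq m hex
  have hJ0 : (C (eval 0 u) * X (Fin.last m) ^ m :
      MvPolynomial (Fin (m + 1)) ℂ).IsWeightedHomogeneous (wt k N a) (m * N) := by
    have h1 := (isWeightedHomogeneous_C (wt k N a) (eval 0 u)).mul
      (PointRoot_Xpow (m := m) (k := k) (N := N) (a := a) m)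
    rwa [zero_add] at h1
  have hJJ : Ge (wt k N a) (m * N + 1)
      (X (Fin.last m) ^ m * rename Fin.castSucc u - C (eval 0 u) * X (Fin.last m) ^ m) := by
    have h1 : (X (Fin.last m) ^ m * rename Fin.castSucc u - C (eval 0 u) * X (Fin.last m) ^ m :
        MvPolynomial (Fin (m + 1)) ℂ) =
        X (Fin.last m) ^ m * rename Fin.castSucc (u - C (eval 0 u)) := by
      rw [map_sub, rename_C]
      ring
    rw [h1]
    refine (Ge.of_homog (PointRoot_Xpow m)).mul (PointRoot_ge hwt ?_)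
    have h2 : coeff 0 (rename Fin.castSucc (u - C (eval 0 u)) :
        MvPolynomial (Fin (m + 1)) ℂ) = constantCoeff (rename Fin.castSucc (u - C (eval 0 u))) :=
      rfl
    rw [h2, constantCoeff_rename, map_sub, constantCoeff_C, ← eval_zero]
    exact sub_self _
  have hΨ : ∀ i, Ge (wt k N a) 1 (chart (fun j => Y j + C (q j)) i) := by
    have hX : Ge (wt k N a) 1 (X (Fin.last m) : MvPolynomial (Fin (m + 1)) ℂ) := by
      have h1 := Ge.of_homog (PointRoot_Xpow (m := m) (k := k) (N := N) (a := a) 1)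
      rw [pow_one, one_mul] at h1
      exact h1.mono hN
    intro i
    refine Fin.lastCases ?_ (fun i => ?_) i
    · rw [chart_last]
      exact hX
    · rw [chart_castSucc]
      exact (hX.mul (Ge.zero _)).mono (by omega)
  have hGJ : G (C (eval 0 u) * X (Fin.last m) ^ m) ≠ 0 := by
    rw [← smul_eq_C_mul, map_smul, smul_eq_mul]
    exact mul_ne_zero hu0 hG1
  have hdN : 1 ≤ (d + k) * N := Nat.mul_pos (by omega) hN
  have hfin := initial_form_map (by omega : 1 ≤ m + 1) hwt hdN hf hB hΨ hF0 hF00 hin hJ0 hJJ hG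
    hGJ hb
  rw [Fin.sum_univ_castSucc] at hfin
  have h5 : ((m * N : ℕ) : ℂ) + (∑ i : Fin m, (wt k N a i.castSucc : ℂ) +
      (wt k N a (Fin.last m) : ℂ)) = (((m + 1) * N + k * ∑ i, a i : ℕ) : ℂ) := by
    have h6 : ∀ i : Fin m, wt k N a i.castSucc = k * a i := by
      intro i
      simp [wt]
    have h7 : wt k N a (Fin.last m) = N := by simp [wt]
    simp only [h6, h7]
    push_cast
    rw [Finset.mul_sum]
    ring
  rw [h5] at hfin
  exact hfin

end Pool.Agent.helper92.LC
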