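import Mathlib
import Pool.Agent.helper92.LC.Defs
import Pool.Agent.helper92.LC.Syz

/-!
# Project LC, module Graded: the equation at a singular point, in weighted homogeneous coordinates

Imports `Syz` through its stub.
-/

set_option autoImplicit false

namespace Pool.Agent.helper92.LC

open MvPolynomial
open Pool.Agent.helper67.IF

variable {m : ℕ}

lemma Graded_mem_iff {g p : MvPolynomial (Fin m) ℂ} :
    p ∈ jac g ↔ ∃ c : Fin m → MvPolynomial (Fin m) ℂ, ∑ i, c i * pderiv i g = p :=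
  Ideal.mem_span_range_iff_exists_fun

lemma Graded_pderiv_mem (g : MvPolynomial (Fin m) ℂ) (i : Fin m) : pderiv i g ∈ jac g :=
  Ideal.subset_span ⟨i, rfl⟩

lemma Graded_comm (g : MvPolynomial (Fin m) ℂ) (i j : Fin m) :
    pderiv i (pderiv j g) = pderiv j (pderiv i g) := by
  classical
  ext u
  by_cases h : i = j
  · subst h; rfl
  · have h' : j ≠ i := fun e => h e.symm
    rw [coeff_pderiv, coeff_pderiv, coeff_pderiv, coeff_pderiv,
      add_right_comm u (Finsupp.single j 1) (Finsupp.single i 1)]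
    simp only [Finsupp.add_apply, Finsupp.single_eq_of_ne h, Finsupp.single_eq_of_ne h', add_zero]
    ring

lemma Graded_ord_ge {a : Fin m → ℕ} (ha : ∀ i, 1 ≤ a i) {K : ℕ} {φ : MvPolynomial (Fin m) ℂ}
    (h : Ord K φ) : Ge a K φ := by
  intro u hu
  refine (h u hu).trans ?_
  rw [Finsupp.weight_apply, Finsupp.weight_apply]
  refine Finset.sum_le_sum fun i _ => ?_
  have := ha i
  simp only [smul_eq_mul]
  exact Nat.mul_le_mul_left _ (ha i)

lemma Graded_cmp_mul_pderiv {a : Fin m → ℕ} {N : ℕ} {g : MvPolynomial (Fin m) ℂ}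
    (hg : g.IsWeightedHomogeneous a N) {i : Fin m} (hi : a i ≤ N) (u : ℕ)
    (φ : MvPolynomial (Fin m) ℂ) :
    cmp a (u + N) (φ * pderiv i g) = cmp a (u + a i) φ * pderiv i g := by
  have h1 : (pderiv i g).IsWeightedHomogeneous a (N - a i) := hg.pderiv (by omega)
  have h2 := cmp_mul_homog (u + a i) (N - a i) φ _ h1
  have h3 : u + a i + (N - a i) = u + N := by omega
  rw [h3] at h2
  exact h2

/-- The Jacobian ideal of a weighted homogeneous polynomial is graded.
(`p = ∑ c_i ∂_i g`; take components with `cmp_mul_homog`; if `a_i > N` then `∂_i g = 0`.) -/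
theorem jac_cmp {a : Fin m → ℕ} {N : ℕ} {g : MvPolynomial (Fin m) ℂ}
    (hg : g.IsWeightedHomogeneous a N) {p : MvPolynomial (Fin m) ℂ} (hp : p ∈ jac g) (ν : ℕ) :
    cmp a ν p ∈ jac g := by
  obtain ⟨c, rfl⟩ := Graded_mem_iff.1 hp
  rw [map_sum]
  refine Ideal.sum_mem _ fun i _ => ?_
  by_cases hi : a i ≤ N
  · have h1 : (pderiv i g).IsWeightedHomogeneous a (N - a i) := hg.pderiv (by omega)
    by_cases hν : N - a i ≤ ν
    · have h2 := cmp_mul_homog (ν - (N - a i)) (N - a i) (c i) _ h1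
      rw [Nat.sub_add_cancel hν] at h2
      rw [h2]
      exact Ideal.mul_mem_left _ _ (Graded_pderiv_mem g i)
    · have h2 : Ge a (0 + (N - a i)) (c i * pderiv i g) := (Ge.zero _).mul (Ge.of_homog h1)
      rw [h2.cmp_eq_zero (by omega)]
      exact Ideal.zero_mem _
  · rw [pderiv_eq_zero_of_lt hg i (by omega), mul_zero, map_zero]
    exact Ideal.zero_mem _

/-- Euler: a weighted homogeneous polynomial of positive degree is in its Jacobian ideal. -/
theorem mem_jac {a : Fin m → ℕ} {N : ℕ} (hN : 1 ≤ N) {g : MvPolynomial (Fin m) ℂ}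
    (hg : g.IsWeightedHomogeneous a N) : g ∈ jac g := by
  have hNC : (N : ℂ) ≠ 0 := by exact_mod_cast (by omega : N ≠ 0)
  have h1 := hg.sum_weight_X_mul_pderiv
  have h2 : C (N : ℂ)⁻¹ * (N • g) = g := by
    rw [nsmul_eq_mul, ← mul_assoc, ← C_eq_coe_nat, ← C_mul, inv_mul_cancel₀ hNC, C_1, one_mul]
  have h3 : C (N : ℂ)⁻¹ * (N • g) ∈ jac g := by
    rw [← h1]
    refine Ideal.mul_mem_left _ _ (Ideal.sum_mem _ fun i _ => ?_)
    rw [nsmul_eq_mul, ← mul_assoc]
    exact Ideal.mul_mem_left _ _ (Graded_pderiv_mem g i)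
  rwa [h2] at h3

/-- Divergences of relations modulo high order.
PROOF.  Let `s^(ν)_j = cmp a (ν + a_j) (s_j)`.  Taking the component of weight `ν + N` of `h` (all monomials
of which have degree, hence weight, `≥ K`, as `a_i ≥ 1`): `∑_j s^(ν)_j ∂_j g = 0` for `ν + N < K`
(`cmp_mul_homog`, `∂_j g` is homogeneous of weight `N - a_j`).  So `s^(ν)` is a Koszul relation
(`syz_koszul`) and its divergence `∑_j ∂_j s^(ν)_j = cmp a ν (div s)` (`cmp_pderiv`) is in `jac g`
(`div (b ∇g) = ∑_k (∑_i ∂_i b_ik) ∂_k g`). -/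
theorem div_cmp_mem {a : Fin m → ℕ} {N : ℕ} (ha : ∀ i, 1 ≤ a i) (haN : ∀ i, a i ≤ N)
    {g : MvPolynomial (Fin m) ℂ} (hg : g.IsWeightedHomogeneous a N)
    (hcrit : ∀ z : Fin m → ℂ, (∀ i, eval z (pderiv i g) = 0) ↔ z = 0)
    (K : ℕ) (s : Fin m → MvPolynomial (Fin m) ℂ) (h : Ord K (∑ j, s j * pderiv j g))
    (ν : ℕ) (hν : ν + N < K) : cmp a ν (∑ j, pderiv j (s j)) ∈ jac g := by
  have h1 : ∑ j, cmp a (ν + a j) (s j) * pderiv j g = 0 := by
    have h2 := (Graded_ord_ge ha h).cmp_eq_zero hν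
    rw [map_sum] at h2
    rw [← h2]
    exact Finset.sum_congr rfl fun j _ => (Graded_cmp_mul_pderiv hg (haN j) ν (s j)).symm
  obtain ⟨b, hb, hs⟩ := syz_koszul (fun j => pderiv j g) (fun z hz => (hcrit z).1 hz)
    (fun j => cmp a (ν + a j) (s j)) h1
  have h3 : cmp a ν (∑ j, pderiv j (s j)) = ∑ j, pderiv j (cmp a (ν + a j) (s j)) := by
    rw [map_sum]
    exact Finset.sum_congr rfl fun j _ => cmp_pderiv ν j (s j)
  have h4 : ∀ j, pderiv j (cmp a (ν + a j) (s j)) =
      ∑ k, (pderiv j (b j k) * pderiv k g + b j k * pderiv j (pderiv k g)) := by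
    intro j
    have h7 : cmp a (ν + a j) (s j) = ∑ k, b j k * pderiv k g := hs j
    rw [h7, map_sum]
    refine Finset.sum_congr rfl fun k _ => ?_
    rw [pderiv_mul]
  have h5 : ∑ j, ∑ k, b j k * pderiv j (pderiv k g) = 0 := by
    have h6 : ∑ j, ∑ k, b j k * pderiv j (pderiv k g) =
        - ∑ j, ∑ k, b j k * pderiv j (pderiv k g) := by
      conv_lhs => rw [Finset.sum_comm]
      rw [← Finset.sum_neg_distrib]
      refine Finset.sum_congr rfl fun j _ => ?_
      rw [← Finset.sum_neg_distrib]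
      refine Finset.sum_congr rfl fun k _ => ?_
      rw [hb k j, Graded_comm g k j]
      ring
    exact self_eq_neg.1 h6
  rw [h3, Finset.sum_congr rfl fun j _ => h4 j]
  simp only [Finset.sum_add_distrib]
  rw [h5, add_zero]
  refine Ideal.sum_mem _ fun j _ => Ideal.sum_mem _ fun k _ => ?_
  exact Ideal.mul_mem_left _ _ (Graded_pderiv_mem g k)

lemma Graded_euler_cmp {a : Fin m → ℕ} (ν : ℕ) (A : MvPolynomial (Fin m) ℂ) :
    cmp a ν (∑ i, C (a i : ℂ) * (X i * pderiv i A)) = C (ν : ℂ) * cmp a ν A := by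
  have h0 : (cmp a ν A).IsWeightedHomogeneous a ν :=
    weightedHomogeneousComponent_isWeightedHomogeneous _ _
  have h1 : ∀ i, cmp a ν (X i * pderiv i A) = X i * pderiv i (cmp a ν A) := by
    intro i
    have hX : (X i : MvPolynomial (Fin m) ℂ).IsWeightedHomogeneous a (a i) :=
      isWeightedHomogeneous_X _ _ _
    by_cases hi : a i ≤ ν
    · have h2 := cmp_mul_homog (ν - a i) (a i) (pderiv i A) _ hX
      rw [Nat.sub_add_cancel hi, cmp_pderiv, Nat.sub_add_cancel hi] at h2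
      rw [mul_comm, h2, mul_comm]
    · have h2 : Ge a (a i + 0) (X i * pderiv i A) := (Ge.of_homog hX).mul (Ge.zero _)
      rw [h2.cmp_eq_zero (by omega), pderiv_eq_zero_of_lt h0 i (by omega), mul_zero]
  have h3 := h0.sum_weight_X_mul_pderiv
  rw [map_sum]
  rw [nsmul_eq_mul, ← C_eq_coe_nat] at h3
  rw [← h3]
  refine Finset.sum_congr rfl fun i _ => ?_
  rw [← smul_eq_C_mul, map_smul, h1, smul_eq_C_mul, nsmul_eq_mul, ← C_eq_coe_nat]

lemma Graded_smul_mem {I : Ideal (MvPolynomial (Fin m) ℂ)} {z : ℂ} (hz : z ≠ 0)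
    {p : MvPolynomial (Fin m) ℂ} (h : C z * p ∈ I) : p ∈ I := by
  have h1 : C z⁻¹ * (C z * p) = p := by
    rw [← mul_assoc, ← C_mul, inv_mul_cancel₀ hz, C_1, one_mul]
  rw [← h1]
  exact Ideal.mul_mem_left _ _ h

/-- **The local equation.**
PROOF.  Let `E(φ) = ∑ a_i y_i ∂_i φ`, `|a| = ∑ a_i`, `s_j = c_j + (d / N) a_j y_j A`.  By Euler's formula
`∑ s_j ∂_j g = ∑ c_j ∂_j g + d A g ∈ Ord K` (`h1`), so by `div_cmp_mem`, for `ν + N < K`,
`cmp ν (div s) ∈ jac g`, and `div s = div c + (d / N) (E(A) + |a| A)`; on the component `A_ν = cmp a ν A`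
`E` is multiplication by `ν`.  By `h2` and `jac_cmp` `cmp ν (div c) + (n + j d) A_ν ∈ jac g` (as
`ν < K`).  Subtracting: `((n + j d) - (d / N) (ν + |a|)) A_ν ∈ jac g`.  If the factor is not `0`, then
`A_ν ∈ jac g`.  If it is `0`, then `d (ν + |a|) = (n + j d) N`, so by `NR` (`1 ≤ j`) every monomial
`y^β` of weight `ν` is in `jac g` (`∑ a_i (β_i + 1) = ν + |a|`), so `A_ν ∈ jac g` as well.  Take
`p = ∑_{ν < K - N} A_ν`. -/
theorem local_eq {a : Fin m → ℕ} {N : ℕ} (ha : ∀ i, 1 ≤ a i) (haN : ∀ i, a i ≤ N) (hN : 1 ≤ N)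
    {g : MvPolynomial (Fin m) ℂ} (hg : g.IsWeightedHomogeneous a N)
    (hcrit : ∀ z : Fin m → ℂ, (∀ i, eval z (pderiv i g) = 0) ↔ z = 0)
    {n d : ℕ} (hNR : NR n d a N g) {j : ℕ} (hj : 1 ≤ j) (K : ℕ)
    (c : Fin m → MvPolynomial (Fin m) ℂ) (A : MvPolynomial (Fin m) ℂ)
    (h1 : Ord K (∑ i, c i * pderiv i g + (d : ℂ) • (A * g)))
    (h2 : ∃ p ∈ jac g, Ord K (∑ i, pderiv i (c i) + ((n + j * d : ℕ) : ℂ) • A - p)) :
    ∃ p ∈ jac g, Ge a (K - N) (A - p) := by
  classical
  obtain ⟨p, hp, h2⟩ := h2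
  have hNC : (N : ℂ) ≠ 0 := by exact_mod_cast (by omega : N ≠ 0)
  set r : ℂ := (d : ℂ) / N with hr
  have hrN : r * N = d := by rw [hr]; field_simp
  set s : Fin m → MvPolynomial (Fin m) ℂ := fun i => c i + C r * (C (a i : ℂ) * (X i * A))
    with hsdef
  have hEg := hg.sum_weight_X_mul_pderiv
  have hEg' : ∑ i, C (a i : ℂ) * (X i * pderiv i g) = C (N : ℂ) * g := by
    rw [nsmul_eq_mul, ← C_eq_coe_nat] at hEg
    rw [← hEg]
    refine Finset.sum_congr rfl fun i _ => ?_
    rw [nsmul_eq_mul, ← C_eq_coe_nat]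
  have hs1 : ∑ i, s i * pderiv i g = ∑ i, c i * pderiv i g + (d : ℂ) • (A * g) := by
    have e1 : ∀ i, s i * pderiv i g =
        c i * pderiv i g + C r * A * (C (a i : ℂ) * (X i * pderiv i g)) := by
      intro i
      simp only [hsdef]
      ring
    rw [Finset.sum_congr rfl fun i _ => e1 i, Finset.sum_add_distrib, ← Finset.mul_sum, hEg',
      smul_eq_C_mul, ← hrN, C_mul]
    ring
  have hs2 : ∑ i, pderiv i (s i) = ∑ i, pderiv i (c i) +
      C r * (C (∑ i, (a i : ℂ)) * A + ∑ i, C (a i : ℂ) * (X i * pderiv i A)) := by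
    have e1 : ∀ i, pderiv i (s i) = pderiv i (c i) +
        C r * (C (a i : ℂ) * A + C (a i : ℂ) * (X i * pderiv i A)) := by
      intro i
      simp only [hsdef]
      rw [map_add, pderiv_C_mul, pderiv_C_mul, pderiv_mul, pderiv_X_self]
      ring
    rw [Finset.sum_congr rfl fun i _ => e1 i, Finset.sum_add_distrib, ← Finset.mul_sum,
      Finset.sum_add_distrib, ← Finset.sum_mul, map_sum]
  have key : ∀ ν : ℕ, ν < K - N → cmp a ν A ∈ jac g := by
    intro ν hν
    have hνK : ν + N < K := by omega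
    have m1 := div_cmp_mem ha haN hg hcrit K s (by rw [hs1]; exact h1) ν hνK
    have m2 : cmp a ν (∑ i, pderiv i (c i)) + C ((n + j * d : ℕ) : ℂ) * cmp a ν A ∈ jac g := by
      have e1 := (Graded_ord_ge ha h2).cmp_eq_zero (show ν < K by omega)
      rw [map_sub, map_add, map_smul, smul_eq_C_mul, sub_eq_zero] at e1
      rw [e1]
      exact jac_cmp hg hp ν
    have m3 : cmp a ν (∑ i, pderiv i (s i)) = cmp a ν (∑ i, pderiv i (c i)) +
        C (r * ((∑ i, (a i : ℂ)) + ν)) * cmp a ν A := by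
      rw [hs2, map_add, ← smul_eq_C_mul _ r, map_smul, map_add, Graded_euler_cmp,
        ← smul_eq_C_mul _ (∑ i, (a i : ℂ)), map_smul, smul_eq_C_mul, smul_eq_C_mul, C_mul, C_add]
      ring
    rw [m3] at m1
    have m4 : C (((n + j * d : ℕ) : ℂ) - r * ((∑ i, (a i : ℂ)) + ν)) * cmp a ν A ∈ jac g := by
      have e2 := Ideal.sub_mem _ m2 m1
      have e3 : C (((n + j * d : ℕ) : ℂ) - r * ((∑ i, (a i : ℂ)) + ν)) * cmp a ν A =
          cmp a ν (∑ i, pderiv i (c i)) + C ((n + j * d : ℕ) : ℂ) * cmp a ν A -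
          (cmp a ν (∑ i, pderiv i (c i)) + C (r * ((∑ i, (a i : ℂ)) + ν)) * cmp a ν A) := by
        rw [C_sub]
        ring
      rw [e3]
      exact e2
    by_cases hz : ((n + j * d : ℕ) : ℂ) - r * ((∑ i, (a i : ℂ)) + ν) = 0
    · have e4 : d * (∑ i, a i + ν) = (n + j * d) * N := by
        have e5 : ((d * (∑ i, a i + ν) : ℕ) : ℂ) = (((n + j * d) * N : ℕ) : ℂ) := by
          push_cast
          push_cast at hz
          rw [sub_eq_zero] at hz
          rw [hz, ← hrN]
          ring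
        exact_mod_cast e5
      rw [(cmp a ν A).as_sum]
      refine Ideal.sum_mem _ fun u hu => ?_
      have hw : Finsupp.weight a u = ν :=
        (weightedHomogeneousComponent_isWeightedHomogeneous (w := a) ν A) (mem_support_iff.1 hu)
      have hmem : (monomial u (1 : ℂ)) ∈ jac g := by
        by_contra hcon
        refine hNR j hj u hcon ?_
        rw [← e4]
        congr 1
        rw [← hw, Finsupp.weight_apply, Finsupp.sum_fintype _ _ (fun i => by simp),
          ← Finset.sum_add_distrib]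
        refine Finset.sum_congr rfl fun i _ => ?_
        rw [smul_eq_mul]
        ring
      have e6 : monomial u (coeff u (cmp a ν A)) = C (coeff u (cmp a ν A)) * monomial u (1 : ℂ) := by
        rw [C_mul_monomial, mul_one]
      rw [e6]
      exact Ideal.mul_mem_left _ _ hmem
    · exact Graded_smul_mem hz m4
  refine ⟨∑ ν ∈ Finset.range (K - N), cmp a ν A, Ideal.sum_mem _ fun ν hν =>
    key ν (Finset.mem_range.1 hν), ?_⟩
  intro u hu
  by_contra hlt
  rw [not_le] at hlt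
  refine (mem_support_iff.1 hu) ?_
  rw [coeff_sub, coeff_sum, Finset.sum_eq_single (Finsupp.weight a u)]
  · rw [coeff_weightedHomogeneousComponent, if_pos rfl, sub_self]
  · intro b _ hb
    rw [coeff_weightedHomogeneousComponent, if_neg (fun h => hb h.symm)]
  · intro h
    exact absurd (Finset.mem_range.2 hlt) h

end Pool.Agent.helper92.LC
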