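import Mathlib
import Pool.Agent.helper92.LC.Defs
import Pool.Agent.helper92.LC.PiolaId
import Pool.Agent.helper92.LC.Pull
import Pool.Agent.helper92.LC.Iso
import Pool.Agent.helper92.LC.Graded
import Pool.Agent.helper92.LC.JetsEx

/-!
# Project LC, module LocalMem: membership in the Jacobian ideal at a singular point

Imports the others through their stubs.
-/

set_option autoImplicit false

namespace Pool.Agent.helper92.LC

open MvPolynomial
open Pool.Agent.helper67.IF

variable {m : ℕ}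

/-- The ideal of the polynomials of order at least `K`. -/
def LocalMem.ordI (n K : ℕ) : Ideal (MvPolynomial (Fin n) ℂ) where
  carrier := {φ | Ord K φ}
  add_mem' := fun h h' => Ge.add h h'
  zero_mem' := fun m hm => by simp at hm
  smul_mem' := fun c x hx => by
    have h := (Ge.zero (a := fun _ : Fin n => 1) c).mul hx
    rwa [zero_add] at h

lemma LocalMem.mem_ordI {n K : ℕ} {φ : MvPolynomial (Fin n) ℂ} :
    φ ∈ LocalMem.ordI n K ↔ Ord K φ := Iff.rfl

lemma LocalMem.ord_prod {k n : ℕ} {Z : Fin k → MvPolynomial (Fin n) ℂ} (hZ : ∀ i, Ord 1 (Z i))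
    (s : Finset (Fin k)) (e : Fin k → ℕ) : Ord (∑ i ∈ s, e i) (∏ i ∈ s, Z i ^ e i) := by
  classical
  induction s using Finset.induction_on with
  | empty => simpa using Ge.zero (a := fun _ : Fin n => 1) (1 : MvPolynomial (Fin n) ℂ)
  | insert i s hi ih =>
    rw [Finset.sum_insert hi, Finset.prod_insert hi]
    refine Ge.mul ?_ ih
    have h := (hZ i).pow (e i)
    rwa [mul_one] at h

lemma LocalMem.weight_one {n : ℕ} (m : Fin n →₀ ℕ) :
    Finsupp.weight (fun _ : Fin n => 1) m = ∑ i ∈ m.support, m i := by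
  rw [Finsupp.weight_apply, Finsupp.sum]
  simp

lemma LocalMem.ord_pderiv {n K : ℕ} {φ : MvPolynomial (Fin n) ℂ} (h : Ord (K + 1) φ) (j : Fin n) :
    Ord K (pderiv j φ) := by
  classical
  intro m hm
  rw [mem_support_iff, coeff_pderiv] at hm
  have h1 := h _ (mem_support_iff.2 (left_ne_zero_of_mul hm))
  rw [map_add, Finsupp.weight_single] at h1
  simp only [smul_eq_mul, mul_one] at h1
  exact Nat.le_of_succ_le_succ h1

lemma LocalMem.ord_one {n : ℕ} {φ : MvPolynomial (Fin n) ℂ} (h : eval 0 φ = 0) : Ord 1 φ := by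
  classical
  intro m hm
  by_contra h1
  have h2 : Finsupp.weight (fun _ : Fin n => 1) m = 0 := by omega
  rw [LocalMem.weight_one, Finset.sum_eq_zero_iff] at h2
  have h3 : m = 0 := by
    ext i
    by_cases hi : i ∈ m.support
    · exact h2 i hi
    · simpa using hi
  rw [h3, mem_support_iff] at hm
  apply hm
  rw [eval_zero] at h
  exact h

lemma LocalMem.ord_of_ge {n K A0 : ℕ} {a : Fin n → ℕ} (ha : ∀ i, a i ≤ A0)
    {φ : MvPolynomial (Fin n) ℂ} (h : Ge a (A0 * K + 1) φ) : Ord K φ := by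
  classical
  intro m hm
  have h1 := h m hm
  have h2 : Finsupp.weight a m ≤ A0 * Finsupp.weight (fun _ : Fin n => 1) m := by
    rw [LocalMem.weight_one, Finsupp.weight_apply, Finsupp.sum, Finset.mul_sum]
    refine Finset.sum_le_sum fun i _ => ?_
    rw [smul_eq_mul, mul_comm]
    exact Nat.mul_le_mul_right _ (ha i)
  by_contra h3
  have h4 : Finsupp.weight (fun _ : Fin n => 1) m ≤ K := by omega
  have h5 := Nat.mul_le_mul_left A0 h4
  omega

lemma LocalMem.tr_tr {n : ℕ} (q : Fin n → ℂ) (ψ : MvPolynomial (Fin n) ℂ) :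
    tr q (tr (-q) ψ) = ψ := by
  have h : (tr q).comp (tr (-q)) = AlgHom.id ℂ (MvPolynomial (Fin n) ℂ) := by
    refine MvPolynomial.algHom_ext fun i => ?_
    simp [tr]
  exact DFunLike.congr_fun h ψ

/-- Substitutions without constant term do not lower the order. -/
theorem ord_aeval {k n : ℕ} {Z : Fin k → MvPolynomial (Fin n) ℂ} (hZ : ∀ i, Ord 1 (Z i)) {K : ℕ}
    {φ : MvPolynomial (Fin k) ℂ} (h : Ord K φ) : Ord K (aeval Z φ) := by
  classical
  rw [φ.as_sum, map_sum, ← LocalMem.mem_ordI]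
  refine Ideal.sum_mem _ fun m hm => ?_
  rw [aeval_monomial]
  refine Ideal.mul_mem_left _ _ ?_
  rw [LocalMem.mem_ordI]
  have h1 := LocalMem.ord_prod hZ m.support (fun i => m i)
  rw [← LocalMem.weight_one] at h1
  exact h1.mono (h m hm)

/-- Substitutions which agree up to order `K` agree on every polynomial up to order `K`.
(`aeval Z φ - aeval Z' φ` is in the ideal of the `Z i - Z' i`; induction on `φ`.) -/
theorem ord_aeval_sub {k n : ℕ} {Z Z' : Fin k → MvPolynomial (Fin n) ℂ} {K : ℕ}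
    (hZ : ∀ i, Ord K (Z i - Z' i)) (φ : MvPolynomial (Fin k) ℂ) :
    Ord K (aeval Z φ - aeval Z' φ) := by
  rw [← LocalMem.mem_ordI]
  induction φ using MvPolynomial.induction_on with
  | C a => simp
  | add p q hp hq =>
    have h : aeval Z (p + q) - aeval Z' (p + q) =
        (aeval Z p - aeval Z' p) + (aeval Z q - aeval Z' q) := by
      rw [map_add, map_add]
      ring
    rw [h]
    exact Ideal.add_mem _ hp hq
  | mul_X p i hp =>
    have h : aeval Z (p * X i) - aeval Z' (p * X i) =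
        Z i * (aeval Z p - aeval Z' p) + aeval Z' p * (Z i - Z' i) := by
      rw [map_mul, map_mul, aeval_X, aeval_X]
      ring
    rw [h]
    exact Ideal.add_mem _ (Ideal.mul_mem_left _ _ hp) (Ideal.mul_mem_left _ _ (hZ i))

/-- A polynomial which does not vanish at the origin is invertible up to order `K`.
(`u = u(0) (1 - ν)`, `v = u(0)⁻¹ ∑_{l < K} ν^l`.) -/
theorem exists_inv_ord {n : ℕ} {u : MvPolynomial (Fin n) ℂ} (hu : eval 0 u ≠ 0) (K : ℕ) :
    ∃ v, Ord K (u * v - 1) := by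
  have h1 : Ord 1 (1 - C (eval 0 u)⁻¹ * u) := by
    refine LocalMem.ord_one ?_
    rw [map_sub, map_one, map_mul, eval_C, inv_mul_cancel₀ hu, sub_self]
  refine ⟨C (eval 0 u)⁻¹ * ∑ l ∈ Finset.range K, (1 - C (eval 0 u)⁻¹ * u) ^ l, ?_⟩
  have h2 := mul_neg_geom_sum (1 - C (eval 0 u)⁻¹ * u) K
  have h3 : u * (C (eval 0 u)⁻¹ * ∑ l ∈ Finset.range K, (1 - C (eval 0 u)⁻¹ * u) ^ l) - 1 =
      (-1) * (1 - C (eval 0 u)⁻¹ * u) ^ K := by
    have h4 : (1 - (1 - C (eval 0 u)⁻¹ * u)) = C (eval 0 u)⁻¹ * u := by ring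
    rw [h4] at h2
    linear_combination h2
  rw [h3, ← LocalMem.mem_ordI]
  refine Ideal.mul_mem_left _ _ ?_
  have h5 := h1.pow K
  rwa [mul_one] at h5

/-- **Local membership.**  `F` is weighted homogeneous at `q`; `c(F) = - d A F` and
`div c + (n + j d) A ∈ (∂_i F, F)` with `j ≥ 1`; then `A ∈ (∂_i F)` at `q` modulo all powers.
PROOF.  Fix `K`; let `A0 = ∑ a_i` (`≥ 1`), `L = A0 * K + N + 2`, `Y, Z` the jets of order `L` (`WH.jets`),
`u = det (jacM Y)`, `u(0) ≠ 0` (`jets_det`), `B` the cofactors (`piola`), and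
`F' = tr q F`, `c' = tr q c`, `A' = tr q A` (`pderiv_tr`: the two hypotheses hold for the primed data), `θ = aeval Y`.
Put `ct_j = ∑_i B_ij θ(c'_i)`, `At = u θ(A')`.  By `Piola.field` and `Piola.divergence`
`∑_j ct_j ∂_j (θF') = u θ(c'(F')) = - d At θF'` and
`div ct + (n + j d) At = u θ(div c' + (n + j d) A') ∈ u (θ(∂_i F'), θF') ⊆ jac (θF') + (θF')`
(`u θ(∂_i F') = ∑_j B_ij ∂_j (θF')`, `Piola.mul_pderiv`).  With `θF' = g + r`, `r ∈ Ord L`,
`∂_j r ∈ Ord (L - 1)`, and `g ∈ jac g` (`mem_jac`): the hypotheses `h1`, `h2` of `local_eq` hold with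
`K := L - 1`, so `At - p ∈ Ge a (L - 1 - N) ⊆ Ord K` for a `p ∈ jac g` (weight `≥ A0 K` implies degree `≥ K` because
the weight is at most `A0` times the degree).  `p = ∑ p_j ∂_j g = ∑ p_j ∂_j (θF') - ∑ p_j ∂_j r`, and
`∂_j (θF') = ∑_k θ(∂_k F') ∂_j Y_k` (`pderiv_aeval`).  Multiply by the inverse of `u` (`exists_inv_ord`):
`θ(A') = ∑_k w_k θ(∂_k F')` up to `Ord K`.  Apply `aeval Z`: it preserves `Ord K` (`ord_aeval`), and
`aeval Z (θ ψ) = ψ` up to `Ord K` (`ord_aeval_sub` and `YZ`).  So `A' - ∑_k (aeval Z w_k) ∂_k F' ∈ Ord K`.  Translate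
back: `p = ∑_k tr (-q) (aeval Z w_k) * ∂_k F ∈ jac F`. (`m = 0`: then `A` and everything is constant,
`Ord K` conditions: `WH` and `jac`... treat it with the hypothesis `hm`.) -/
theorem local_mem (hm : 1 ≤ m) {F : MvPolynomial (Fin m) ℂ} {q : Fin m → ℂ} {a : Fin m → ℕ}
    {N : ℕ} {g : MvPolynomial (Fin m) ℂ} (hW : WH F q a N g) {n d : ℕ} (hNR : NR n d a N g)
    {j : ℕ} (hj : 1 ≤ j) (c : Fin m → MvPolynomial (Fin m) ℂ) (A : MvPolynomial (Fin m) ℂ)
    (h1 : ∑ i, c i * pderiv i F = -((d : ℂ) • (A * F)))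
    (h2 : ∑ i, pderiv i (c i) + ((n + j * d : ℕ) : ℂ) • A ∈ jac F ⊔ Ideal.span {F}) (K : ℕ) :
    ∃ p ∈ jac F, Ord K (tr q (A - p)) := by
  classical
  have haN : ∀ i, a i < N := weight_lt hW.pos hW.homog hW.crit
  have i0 : Fin m := ⟨0, hm⟩
  have hN : 1 ≤ N := by
    have := haN i0
    omega
  -- the sum of the weights
  obtain ⟨A0, hA0⟩ : ∃ A0, A0 = ∑ i, a i := ⟨_, rfl⟩
  have haA : ∀ i, a i ≤ A0 := fun i => by
    rw [hA0]
    exact Finset.single_le_sum (fun _ _ => Nat.zero_le _) (Finset.mem_univ i)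
  have hA1 : 1 ≤ A0 := (hW.pos i0).trans (haA i0)
  obtain ⟨L, hL⟩ : ∃ L, L = A0 * K + N + 1 := ⟨_, rfl⟩
  have hKL : K ≤ L := by
    have : 1 * K ≤ A0 * K := Nat.mul_le_mul_right _ hA1
    omega
  obtain ⟨Y, Z, hJ⟩ := hW.jets (L + 1)
  have hu0 : eval 0 (jacM Y).det ≠ 0 := jets_det (by omega) hJ
  have hu : (jacM Y).det ≠ 0 := by
    intro h
    rw [h] at hu0
    simp at hu0
  have hP := piola Y hu
  obtain ⟨u, hud⟩ : ∃ u, u = (jacM Y).det := ⟨_, rfl⟩
  obtain ⟨B, hBd⟩ : ∃ B : Fin m → Fin m → MvPolynomial (Fin m) ℂ,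
      B = fun i j => (jacM Y).adjugate j i := ⟨_, rfl⟩
  rw [← hud] at hP hu0
  rw [← hBd] at hP
  -- the primed data
  obtain ⟨F', hF'⟩ : ∃ F', F' = tr q F := ⟨_, rfl⟩
  obtain ⟨A', hA'⟩ : ∃ A', A' = tr q A := ⟨_, rfl⟩
  obtain ⟨c', hc'⟩ : ∃ c' : Fin m → MvPolynomial (Fin m) ℂ, c' = fun i => tr q (c i) := ⟨_, rfl⟩
  have h1' : ∑ i, c' i * pderiv i F' = -((d : ℂ) • (A' * F')) := by
    have h := congrArg (tr q) h1
    rw [map_sum, map_neg, map_smul, map_mul] at h
    rw [hF', hA', hc', ← h]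
    refine Finset.sum_congr rfl fun i _ => ?_
    rw [map_mul, pderiv_tr]
  -- a representation in the ideal
  obtain ⟨x, hx, y, hy, hxy⟩ := Submodule.mem_sup.1 h2
  obtain ⟨w, hw⟩ := Ideal.mem_span_range_iff_exists_fun.1 hx
  obtain ⟨w0, hw0⟩ := Ideal.mem_span_singleton'.1 hy
  have h2' : ∑ i, pderiv i (c' i) + ((n + j * d : ℕ) : ℂ) • A' =
      ∑ i, tr q (w i) * pderiv i F' + tr q w0 * F' := by
    have h := congrArg (tr q) hxy
    rw [← hw, ← hw0, map_add, map_sum, map_mul, map_add, map_sum, map_smul] at h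
    rw [hF', hA', hc']
    rw [Finset.sum_congr rfl fun i _ => (pderiv_tr q i (c i)), ← h]
    congr 1
    refine Finset.sum_congr rfl fun i _ => ?_
    rw [map_mul, pderiv_tr]
  -- the pulled back data
  obtain ⟨r, hr⟩ : ∃ r, r = aeval Y F' - g := ⟨_, rfl⟩
  have hrL : Ord (L + 1) r := by
    rw [hr, hF']
    exact hJ.FY
  have hdr : ∀ i, pderiv i r ∈ LocalMem.ordI m L := fun i => LocalMem.ord_pderiv hrL i
  have hrL' : r ∈ LocalMem.ordI m L := hrL.mono (Nat.le_succ L)
  have hgr : ∀ i, pderiv i g = pderiv i (aeval Y F') - pderiv i r := fun i => by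
    rw [hr, map_sub, sub_sub_cancel]
  have hgr0 : g = aeval Y F' - r := by
    rw [hr, sub_sub_cancel]
  have hfield := hP.field c' F'
  have hdiv := hP.divergence c'
  rw [h1', map_neg, map_smul, map_mul] at hfield
  have hK1 : Ord L (∑ i, (∑ k, B k i * aeval Y (c' k)) * pderiv i g +
      (d : ℂ) • (u * aeval Y A' * g)) := by
    have h : ∑ i, (∑ k, B k i * aeval Y (c' k)) * pderiv i g +
        (d : ℂ) • (u * aeval Y A' * g) =
        -(∑ i, (∑ k, B k i * aeval Y (c' k)) * pderiv i r + C (d : ℂ) * (u * aeval Y A') * r) := by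
      have h3 : ∑ i, (∑ k, B k i * aeval Y (c' k)) * pderiv i g =
          ∑ i, (∑ k, B k i * aeval Y (c' k)) * pderiv i (aeval Y F') -
          ∑ i, (∑ k, B k i * aeval Y (c' k)) * pderiv i r := by
        rw [← Finset.sum_sub_distrib]
        refine Finset.sum_congr rfl fun i _ => ?_
        rw [hgr i, mul_sub]
      rw [h3, hfield, smul_eq_C_mul, smul_eq_C_mul]
      conv_lhs => rw [hgr0]
      ring
    rw [h, ← LocalMem.mem_ordI]
    refine neg_mem (Ideal.add_mem _ (Ideal.sum_mem _ fun i _ => ?_) ?_)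
    · exact Ideal.mul_mem_left _ _ (hdr i)
    · exact Ideal.mul_mem_left _ _ hrL'
  have hgj : g ∈ jac g := mem_jac hN hW.homog
  have hK2 : ∃ p ∈ jac g, Ord L (∑ i, pderiv i (∑ k, B k i * aeval Y (c' k)) +
      ((n + j * d : ℕ) : ℂ) • (u * aeval Y A') - p) := by
    refine ⟨∑ k, (∑ i, aeval Y (tr q (w i)) * B i k) * pderiv k g +
      u * aeval Y (tr q w0) * g, ?_, ?_⟩
    · refine Ideal.add_mem _ (Ideal.sum_mem _ fun k _ => ?_) (Ideal.mul_mem_left _ _ hgj)
      exact Ideal.mul_mem_left _ _ (Ideal.subset_span ⟨k, rfl⟩)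
    · have h3 : ∑ i, pderiv i (∑ k, B k i * aeval Y (c' k)) +
          ((n + j * d : ℕ) : ℂ) • (u * aeval Y A') =
          ∑ k, (∑ i, aeval Y (tr q (w i)) * B i k) * pderiv k (aeval Y F') +
            u * aeval Y (tr q w0) * aeval Y F' := by
        have h4 : ∑ k, (∑ i, aeval Y (tr q (w i)) * B i k) * pderiv k (aeval Y F') =
            ∑ i, aeval Y (tr q (w i)) * (u * aeval Y (pderiv i F')) := by
          simp only [Finset.sum_mul]
          rw [Finset.sum_comm]
          refine Finset.sum_congr rfl fun i _ => ?_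
          rw [hP.mul_pderiv F' i, Finset.mul_sum]
          refine Finset.sum_congr rfl fun k _ => ?_
          ring
        have h5 := congrArg (fun t => u * aeval Y t) h2'
        simp only [map_add, map_sum, map_smul, map_mul, mul_add, Finset.mul_sum] at h5
        rw [h4, hdiv]
        simp only [map_sum, Finset.mul_sum]
        have h6 : ((n + j * d : ℕ) : ℂ) • (u * aeval Y A') =
            u * ((n + j * d : ℕ) : ℂ) • aeval Y A' := by
          rw [mul_smul_comm]
        rw [h6, h5]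
        congr 1
        · refine Finset.sum_congr rfl fun i _ => ?_
          ring
        · ring
      have h7 : ∑ k, (∑ i, aeval Y (tr q (w i)) * B i k) * pderiv k g =
          ∑ k, (∑ i, aeval Y (tr q (w i)) * B i k) * pderiv k (aeval Y F') -
          ∑ k, (∑ i, aeval Y (tr q (w i)) * B i k) * pderiv k r := by
        rw [← Finset.sum_sub_distrib]
        refine Finset.sum_congr rfl fun i _ => ?_
        rw [hgr i, mul_sub]
      have h8 : ∑ i, pderiv i (∑ k, B k i * aeval Y (c' k)) +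
          ((n + j * d : ℕ) : ℂ) • (u * aeval Y A') -
          (∑ k, (∑ i, aeval Y (tr q (w i)) * B i k) * pderiv k g +
            u * aeval Y (tr q w0) * g) =
          ∑ k, (∑ i, aeval Y (tr q (w i)) * B i k) * pderiv k r +
            u * aeval Y (tr q w0) * r := by
        rw [h3, h7]
        conv_lhs => rw [hgr0]
        ring
      rw [h8, ← LocalMem.mem_ordI]
      refine Ideal.add_mem _ (Ideal.sum_mem _ fun i _ => ?_) ?_
      · exact Ideal.mul_mem_left _ _ (hdr i)
      · exact Ideal.mul_mem_left _ _ hrL'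
  obtain ⟨p, hp, hpA⟩ := local_eq hW.pos (fun i => (haN i).le) hN hW.homog hW.crit hNR hj L
    (fun i => ∑ k, B k i * aeval Y (c' k)) (u * aeval Y A') hK1 hK2
  have hpK : Ord K (u * aeval Y A' - p) := by
    refine LocalMem.ord_of_ge haA (hpA.mono ?_)
    omega
  obtain ⟨pc, hpc⟩ := Ideal.mem_span_range_iff_exists_fun.1 hp
  obtain ⟨v, hv⟩ := exists_inv_ord hu0 K
  have hOK : ∀ {φ : MvPolynomial (Fin m) ℂ}, φ ∈ LocalMem.ordI m L → φ ∈ LocalMem.ordI m K :=
    fun h => Ge.mono h hKL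
  -- back to `F'`
  have hW1 : aeval Y A' - ∑ k, (v * ∑ i, pc i * pderiv i (Y k)) * aeval Y (pderiv k F') ∈
      LocalMem.ordI m K := by
    have h3 : ∑ k, (∑ i, pc i * pderiv i (Y k)) * aeval Y (pderiv k F') =
        ∑ i, pc i * pderiv i (aeval Y F') := by
      simp only [Finset.sum_mul]
      rw [Finset.sum_comm]
      refine Finset.sum_congr rfl fun i _ => ?_
      rw [pderiv_aeval, Finset.mul_sum]
      refine Finset.sum_congr rfl fun k _ => ?_
      ring
    have h4 : ∑ i, pc i * pderiv i (aeval Y F') = p + ∑ i, pc i * pderiv i r := by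
      rw [← hpc, ← Finset.sum_add_distrib]
      refine Finset.sum_congr rfl fun i _ => ?_
      rw [hgr i]
      ring
    have h5 : aeval Y A' - ∑ k, (v * ∑ i, pc i * pderiv i (Y k)) * aeval Y (pderiv k F') =
        v * (u * aeval Y A' - p) - (aeval Y A' * (u * v - 1) + v * ∑ i, pc i * pderiv i r) := by
      have h6 : ∑ k, (v * ∑ i, pc i * pderiv i (Y k)) * aeval Y (pderiv k F') =
          v * ∑ k, (∑ i, pc i * pderiv i (Y k)) * aeval Y (pderiv k F') := by
        rw [Finset.mul_sum]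
        refine Finset.sum_congr rfl fun k _ => ?_
        ring
      rw [h6, h3, h4]
      ring
    rw [h5]
    refine Ideal.sub_mem _ (Ideal.mul_mem_left _ _ hpK) (Ideal.add_mem _
      (Ideal.mul_mem_left _ _ hv) (Ideal.mul_mem_left _ _ (Ideal.sum_mem _ fun i _ => ?_)))
    exact Ideal.mul_mem_left _ _ (hOK (hdr i))
  have hZY : ∀ ψ : MvPolynomial (Fin m) ℂ, aeval Z (aeval Y ψ) - ψ ∈ LocalMem.ordI m K := by
    intro ψ
    have h3 : aeval Z (aeval Y ψ) = aeval (fun i => aeval Z (Y i)) ψ := by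
      have h4 : (aeval Z).comp (aeval Y) =
          (aeval (fun i => aeval Z (Y i)) : MvPolynomial (Fin m) ℂ →ₐ[ℂ] MvPolynomial (Fin m) ℂ) := by
        refine MvPolynomial.algHom_ext fun i => ?_
        simp
      exact DFunLike.congr_fun h4 ψ
    have h4 := ord_aeval_sub (K := K) (Z := fun i => aeval Z (Y i)) (Z' := fun i => X i)
      (fun i => (hJ.YZ i).mono (by omega)) ψ
    rw [h3]
    have h5 : aeval (fun i => X i) ψ = ψ := by
      have h6 := MvPolynomial.aeval_X_left_apply ψ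
      exact h6
    rw [h5] at h4
    exact h4
  have hW2 := ord_aeval hJ.Z0 (LocalMem.mem_ordI.1 hW1)
  rw [map_sub, map_sum, ← LocalMem.mem_ordI] at hW2
  have hW3 : A' - ∑ k, aeval Z (v * ∑ i, pc i * pderiv i (Y k)) * pderiv k F' ∈
      LocalMem.ordI m K := by
    have h3 : A' - ∑ k, aeval Z (v * ∑ i, pc i * pderiv i (Y k)) * pderiv k F' =
        (aeval Z (aeval Y A') - ∑ k, aeval Z ((v * ∑ i, pc i * pderiv i (Y k)) *
          aeval Y (pderiv k F'))) - (aeval Z (aeval Y A') - A') +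
        ∑ k, aeval Z (v * ∑ i, pc i * pderiv i (Y k)) *
          (aeval Z (aeval Y (pderiv k F')) - pderiv k F') := by
      simp only [map_mul (aeval Z) (v * _) _, mul_sub, Finset.sum_sub_distrib]
      ring
    rw [h3]
    refine Ideal.add_mem _ (Ideal.sub_mem _ hW2 (hZY A')) (Ideal.sum_mem _ fun k _ => ?_)
    exact Ideal.mul_mem_left _ _ (hZY _)
  refine ⟨∑ k, tr (-q) (aeval Z (v * ∑ i, pc i * pderiv i (Y k))) * pderiv k F,
    Ideal.sum_mem _ fun k _ => Ideal.mul_mem_left _ _ (Ideal.subset_span ⟨k, rfl⟩), ?_⟩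
  rw [← LocalMem.mem_ordI]
  have h3 : tr q (A - ∑ k, tr (-q) (aeval Z (v * ∑ i, pc i * pderiv i (Y k))) * pderiv k F) =
      A' - ∑ k, aeval Z (v * ∑ i, pc i * pderiv i (Y k)) * pderiv k F' := by
    rw [map_sub, map_sum, hA']
    congr 1
    refine Finset.sum_congr rfl fun k _ => ?_
    rw [map_mul, LocalMem.tr_tr, hF', pderiv_tr]
  rw [h3]
  exact hW3

end Pool.Agent.helper92.LC
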