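import Mathlib
import Pool.Agent.helper92.LC.Defs
import Pool.Agent.helper92.LC.Syz

/-!
# Project LC, module Cone: the partial derivatives of a form with a smooth hyperplane section

`f0` is homogeneous of degree `d` in the variables `Fin (m + 1)` and the section by
`X (Fin.last m) = 0` is smooth (`hsec`).  Imports `Syz` through its stub.
-/

set_option autoImplicit false

namespace Pool.Agent.helper92.LC

open MvPolynomial

open Pool.Agent.helper67.IF in
theorem Cone_comp {n : ℕ} (u v : ℕ) (φ ψ : MvPolynomial (Fin n) ℂ) (hψ : ψ.IsHomogeneous v) :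
    homogeneousComponent (u + v) (φ * ψ) = homogeneousComponent u φ * ψ :=
  cmp_mul_homog (a := fun _ => 1) u v φ ψ hψ

theorem Cone_low {n : ℕ} {k v : ℕ} (h : k < v) (φ ψ : MvPolynomial (Fin n) ℂ)
    (hψ : ψ.IsHomogeneous v) : homogeneousComponent k (φ * ψ) = 0 := by
  induction φ using MvPolynomial.induction_on' with
  | monomial m c =>
    have h1 : ((monomial m c : MvPolynomial (Fin n) ℂ) * ψ).IsWeightedHomogeneous 1
        (Finsupp.weight 1 m + v) :=
      (isWeightedHomogeneous_monomial 1 m c rfl).mul hψ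
    exact h1.weightedHomogeneousComponent_ne _ (by omega)
  | add p q hp hq => rw [add_mul, map_add, hp, hq, add_zero]

theorem Cone_self {n : ℕ} {e : ℕ} {φ : MvPolynomial (Fin n) ℂ} (h : φ.IsHomogeneous e) :
    homogeneousComponent e φ = φ :=
  IsWeightedHomogeneous.weightedHomogeneousComponent_same h

/-- Membership in the ideal generated by finitely many elements. -/
theorem Cone_mem {n k : ℕ} {g : Fin k → MvPolynomial (Fin n) ℂ} {φ : MvPolynomial (Fin n) ℂ}
    (h : φ ∈ Ideal.span (Set.range g)) : ∃ c : Fin k → MvPolynomial (Fin n) ℂ,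
      φ = ∑ i, c i * g i := by
  obtain ⟨c, hc⟩ := (Submodule.mem_span_range_iff_exists_fun _).1 h
  exact ⟨c, by rw [← hc]; simp [smul_eq_mul]⟩

theorem Cone_mem' {n k : ℕ} (g : Fin k → MvPolynomial (Fin n) ℂ)
    (c : Fin k → MvPolynomial (Fin n) ℂ) : ∑ i, c i * g i ∈ Ideal.span (Set.range g) :=
  Ideal.sum_mem _ fun i _ => Ideal.mul_mem_left _ _ (Ideal.subset_span ⟨i, rfl⟩)

variable {m : ℕ}

/-- The system `(∂_i f0, i < m; X_m ^ p)` has at most the trivial common zero. -/
theorem Cone_zero {f0 : MvPolynomial (Fin (m + 1)) ℂ}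
    (hsec : ∀ z : Fin (m + 1) → ℂ, z (Fin.last m) = 0 →
      (∀ i : Fin m, eval z (pderiv i.castSucc f0) = 0) → z = 0) {p : ℕ} (hp : 1 ≤ p)
    (z : Fin (m + 1) → ℂ)
    (hz : ∀ i, eval z ((Fin.lastCases (motive := fun _ => MvPolynomial (Fin (m + 1)) ℂ)
      (X (Fin.last m) ^ p) (fun i : Fin m => pderiv i.castSucc f0)) i) = 0) : z = 0 := by
  refine hsec z ?_ fun i => ?_
  · have h1 := hz (Fin.last m)
    rw [Fin.lastCases_last, map_pow, eval_X] at h1
    exact pow_eq_zero_iff (by omega : p ≠ 0) |>.1 h1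
  · have h1 := hz i.castSucc
    rw [Fin.lastCases_castSucc] at h1
    exact h1

/-- The last variable is a nonzerodivisor modulo `I0 f0 = (∂_i f0, i < m)`.
PROOF.  Let `g : Fin (m + 1) → _`, `g = Fin.lastCases (X (Fin.last m)) (fun i => ∂_i f0)`; by `hsec`
its only common zero is (at most) `0`.  If `X_m φ = ∑ c_i ∂_i f0`, then `h = (c, - φ)` is a relation
of `g`, so by `syz_koszul` `- φ = ∑_{j < m} b_{mj} ∂_j f0 + b_{mm} X_m` and `b_{mm} = 0` (it equals its
opposite, characteristic 0). -/
theorem last_regular {f0 : MvPolynomial (Fin (m + 1)) ℂ}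
    (hsec : ∀ z : Fin (m + 1) → ℂ, z (Fin.last m) = 0 →
      (∀ i : Fin m, eval z (pderiv i.castSucc f0) = 0) → z = 0)
    (φ : MvPolynomial (Fin (m + 1)) ℂ) (h : X (Fin.last m) * φ ∈ I0 f0) : φ ∈ I0 f0 := by
  obtain ⟨c, hc⟩ := Cone_mem h
  have h1 := syz_koszul _ (Cone_zero hsec le_rfl)
    (Fin.lastCases (motive := fun _ => MvPolynomial (Fin (m + 1)) ℂ) (-φ) c) (by
      rw [Fin.sum_univ_castSucc]
      simp only [Fin.lastCases_castSucc, Fin.lastCases_last, pow_one]
      rw [← hc]
      ring)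
  obtain ⟨b, hb, hh⟩ := h1
  have h2 := hh (Fin.last m)
  rw [Fin.sum_univ_castSucc] at h2
  simp only [Fin.lastCases_castSucc, Fin.lastCases_last, pow_one] at h2
  have h3 : b (Fin.last m) (Fin.last m) = 0 := self_eq_neg.1 (hb _ _)
  rw [h3, zero_mul, add_zero] at h2
  have h4 : φ = ∑ i : Fin m, (-b (Fin.last m) i.castSucc) * pderiv i.castSucc f0 := by
    rw [← neg_neg φ, h2, ← Finset.sum_neg_distrib]
    exact Finset.sum_congr rfl fun i _ => by ring
  rw [h4]
  exact Cone_mem' (fun i : Fin m => pderiv i.castSucc f0) _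

/-- Powers of the last variable are nonzerodivisors as well. (Induction on `p`.) -/
theorem last_pow_regular {f0 : MvPolynomial (Fin (m + 1)) ℂ}
    (hsec : ∀ z : Fin (m + 1) → ℂ, z (Fin.last m) = 0 →
      (∀ i : Fin m, eval z (pderiv i.castSucc f0) = 0) → z = 0)
    (p : ℕ) (φ : MvPolynomial (Fin (m + 1)) ℂ) (h : X (Fin.last m) ^ p * φ ∈ I0 f0) :
    φ ∈ I0 f0 := by
  induction p with
  | zero =>
    rw [pow_zero, one_mul] at h
    exact h
  | succ p ih =>
    apply ih
    apply last_regular hsec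
    rw [pow_succ, mul_comm (X (Fin.last m) ^ p), mul_assoc] at h
    exact h

/-- Homogeneous relations between `∂_i f0`, `i < m`, are Koszul.
PROOF.  Let `h` be homogeneous of degree `e` with `∑_{i<m} h_i ∂_i f0 = 0`.  Let `p = e + 1` and
`g = Fin.lastCases (X_m ^ p) (fun i => ∂_i f0)`; its only common zero is (at most) `0`.
`(h, 0)` is a relation of `g`, so by `syz_koszul` `h_i = ∑_{j<m} b_{ij} ∂_j f0 + b_{im} X_m ^ p`.
If `d - 1 ≤ e`: take the homogeneous components of degree `e`: `X_m ^ p * b_{im}` has no component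
of degree `e < p`, so `h_i = ∑_j b'_{ij} ∂_j f0` with
`b'_{ij} = homogeneousComponent (e - (d - 1)) b_{ij}` (`∂_j f0` is homogeneous of degree `d - 1`,
`IsHomogeneous.pderiv`; the lemma `cmp_mul_homog` in `Pool.Agent.helper67.IF.Core` with weights
`fun _ => 1` is the statement on components of products, as `IsHomogeneous` is by definition
`IsWeightedHomogeneous 1`).  If `e < d - 1`: all homogeneous elements of degree `e` of the ideal
generated by the `∂_j f0` and `X_m ^ p` vanish, so `h = 0`, which is Koszul with `b = 0`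
(or argue with the same components and `b' = 0`). -/
theorem syz_first {d : ℕ} {f0 : MvPolynomial (Fin (m + 1)) ℂ} (hf0 : f0.IsHomogeneous d)
    (hsec : ∀ z : Fin (m + 1) → ℂ, z (Fin.last m) = 0 →
      (∀ i : Fin m, eval z (pderiv i.castSucc f0) = 0) → z = 0)
    {e : ℕ} (h : Fin m → MvPolynomial (Fin (m + 1)) ℂ) (hh : ∀ i, (h i).IsHomogeneous e)
    (hs : ∑ i, h i * pderiv i.castSucc f0 = 0) :
    IsKos (fun i : Fin m => pderiv i.castSucc f0) h := by
  have h1 := syz_koszul _ (Cone_zero hsec (Nat.succ_pos e))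
    (Fin.lastCases (motive := fun _ => MvPolynomial (Fin (m + 1)) ℂ) 0 h) (by
      rw [Fin.sum_univ_castSucc]
      simp only [Fin.lastCases_castSucc, Fin.lastCases_last]
      rw [hs]
      ring)
  obtain ⟨b, hb, hbb⟩ := h1
  have hX : ∀ φ : MvPolynomial (Fin (m + 1)) ℂ,
      homogeneousComponent e (φ * X (Fin.last m) ^ (e + 1)) = 0 := fun φ =>
    Cone_low (Nat.lt_succ_self e) _ _ (isHomogeneous_X_pow _ _)
  have hd : ∀ j : Fin m, (pderiv j.castSucc f0).IsHomogeneous (d - 1) := fun j => hf0.pderiv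
  have h2 : ∀ i : Fin m, h i =
      ∑ j : Fin m, homogeneousComponent e (b i.castSucc j.castSucc * pderiv j.castSucc f0) := by
    intro i
    have h3 := hbb i.castSucc
    rw [Fin.sum_univ_castSucc] at h3
    simp only [Fin.lastCases_castSucc, Fin.lastCases_last] at h3
    have h4 := congrArg (homogeneousComponent e) h3
    rw [Cone_self (hh i), map_add, map_sum, hX, add_zero] at h4
    exact h4
  rcases Nat.lt_or_ge e (d - 1) with he | he
  · refine ⟨fun _ _ => 0, fun _ _ => by simp, fun i => ?_⟩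
    rw [h2 i]
    refine Finset.sum_congr rfl fun j _ => ?_
    rw [Cone_low he _ _ (hd j), zero_mul]
  · refine ⟨fun i j => homogeneousComponent (e - (d - 1)) (b i.castSucc j.castSucc),
      fun i j => ?_, fun i => ?_⟩
    · show homogeneousComponent (e - (d - 1)) (b i.castSucc j.castSucc) =
        - homogeneousComponent (e - (d - 1)) (b j.castSucc i.castSucc)
      rw [hb i.castSucc j.castSucc, map_neg]
    · rw [h2 i]
      refine Finset.sum_congr rfl fun j _ => ?_
      have h3 := Cone_comp (e - (d - 1)) (d - 1) (b i.castSucc j.castSucc) _ (hd j)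
      rw [Nat.sub_add_cancel he] at h3
      exact h3

/-- **A homogeneous vector field killing `f0` is Koszul as soon as its last component is in `I0`.**
PROOF.  `e ≥ d - 1`.  Write `h_m = ∑_{j<m} γ_j ∂_j f0`; taking components (degree `e`) we may assume
`γ_j` homogeneous of degree `e - (d - 1)`.  Put `h'_i = h_i + γ_i ∂_m f0` for `i < m`
(homogeneous of degree `e`).  Then `∑_{i<m} h'_i ∂_i f0 = - h_m ∂_m f0 + h_m ∂_m f0 = 0`, so
`h'_i = ∑_{j<m} b'_{ij} ∂_j f0` by `syz_first`.  The antisymmetric matrix `b` with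
`b_{ij} = b'_{ij}` (`i, j < m`), `b_{im} = - γ_i`, `b_{mj} = γ_j`, `b_{mm} = 0` works. -/
theorem kos_of_last {d : ℕ} {f0 : MvPolynomial (Fin (m + 1)) ℂ} (hf0 : f0.IsHomogeneous d)
    (hsec : ∀ z : Fin (m + 1) → ℂ, z (Fin.last m) = 0 →
      (∀ i : Fin m, eval z (pderiv i.castSucc f0) = 0) → z = 0)
    {e : ℕ} (he : d ≤ e + 1) (h : Fin (m + 1) → MvPolynomial (Fin (m + 1)) ℂ)
    (hh : ∀ i, (h i).IsHomogeneous e) (hs : ∑ i, h i * pderiv i f0 = 0)
    (hl : h (Fin.last m) ∈ I0 f0) : IsKos (fun i => pderiv i f0) h := by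
  have hd : ∀ j : Fin (m + 1), (pderiv j f0).IsHomogeneous (d - 1) := fun j => hf0.pderiv
  have he' : d - 1 ≤ e := by omega
  obtain ⟨γ0, hγ0⟩ := Cone_mem hl
  set γ : Fin m → MvPolynomial (Fin (m + 1)) ℂ :=
    fun j => homogeneousComponent (e - (d - 1)) (γ0 j) with hγdef
  have hγh : ∀ j, (γ j).IsHomogeneous (e - (d - 1)) := fun j =>
    homogeneousComponent_isHomogeneous _ _
  have hγ : h (Fin.last m) = ∑ j : Fin m, γ j * pderiv j.castSucc f0 := by
    have h4 := congrArg (homogeneousComponent e) hγ0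
    rw [Cone_self (hh _), map_sum] at h4
    rw [h4]
    refine Finset.sum_congr rfl fun j _ => ?_
    have h3 := Cone_comp (e - (d - 1)) (d - 1) (γ0 j) _ (hd j.castSucc)
    rw [Nat.sub_add_cancel he'] at h3
    exact h3
  have h1 := syz_first hf0 hsec (e := e) (fun i : Fin m => h i.castSucc + γ i * pderiv (Fin.last m) f0)
    (fun i => by
      refine (hh i.castSucc).add ?_
      have h3 := (hγh i).mul (hd (Fin.last m))
      rw [Nat.sub_add_cancel he'] at h3
      exact h3) (by
      rw [Fin.sum_univ_castSucc, hγ, Finset.sum_mul] at hs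
      rw [← hs, ← Finset.sum_add_distrib]
      exact Finset.sum_congr rfl fun i _ => by ring)
  obtain ⟨b, hb, hbb⟩ := h1
  refine ⟨fun i => Fin.lastCases
      (motive := fun _ => Fin (m + 1) → MvPolynomial (Fin (m + 1)) ℂ)
      (Fin.lastCases (motive := fun _ => MvPolynomial (Fin (m + 1)) ℂ) 0 γ)
      (fun i' => Fin.lastCases (motive := fun _ => MvPolynomial (Fin (m + 1)) ℂ) (-γ i') (b i')) i,
    ?_, ?_⟩
  · intro i j
    refine Fin.lastCases ?_ (fun i => ?_) i <;> refine Fin.lastCases ?_ (fun j => ?_) j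
    · simp
    · simp
    · simp
    · simpa using hb i j
  · intro i
    rw [Fin.sum_univ_castSucc]
    refine Fin.lastCases ?_ (fun i => ?_) i
    · simp only [Fin.lastCases_castSucc, Fin.lastCases_last, zero_mul, add_zero]
      exact hγ
    · simp only [Fin.lastCases_castSucc, Fin.lastCases_last]
      rw [← hbb i]
      ring

end Pool.Agent.helper92.LC
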