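import Mathlib
import Pool.Agent.helper92.LC.Defs
import Pool.Agent.helper92.LC.Cone

/-!
# Project LC, module Dehom: dehomogenisation

Imports `Cone` through its stub (only `last_pow_regular` is used, in `mem_I0_of_dh`).
-/

set_option autoImplicit false

namespace Pool.Agent.helper92.LC

open MvPolynomial

variable {m : ℕ}

/-- `∂_i (dh φ) = dh (∂_i φ)` for the first `m` variables. (Induction on `φ`.) -/
theorem pderiv_dh (i : Fin m) (φ : MvPolynomial (Fin (m + 1)) ℂ) :
    pderiv i (dh φ) = dh (pderiv i.castSucc φ) := by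
  classical
  induction φ using MvPolynomial.induction_on with
  | C a =>
    have h1 : dh (C a : MvPolynomial (Fin (m + 1)) ℂ) = C a := by
      rw [dh, aeval_C]; rfl
    rw [h1, pderiv_C, pderiv_C, map_zero]
  | add p q hp hq => simp only [map_add, hp, hq]
  | mul_X p j hp =>
    rw [map_mul, Derivation.leibniz, hp, Derivation.leibniz, map_add, smul_eq_mul, smul_eq_mul,
      smul_eq_mul, smul_eq_mul, map_mul, map_mul]
    congr 1
    congr 1
    refine Fin.lastCases ?_ (fun j => ?_) j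
    · rw [dh_X_last, pderiv_one, pderiv_X_of_ne, map_zero]
      exact (Fin.castSucc_lt_last i).ne'
    · rw [dh_X_castSucc]
      by_cases hij : j = i
      · subst hij
        rw [pderiv_X_self, pderiv_X_self, map_one]
      · rw [pderiv_X_of_ne hij, pderiv_X_of_ne, map_zero]
        exact fun h => hij (Fin.castSucc_injective m h)

/-- Euler's formula on the chart: `dh (∂_m φ) = e dh φ - ∑ y_i ∂_i (dh φ)` for `φ` homogeneous of degree
`e`.  (`IsHomogeneous.sum_X_mul_pderiv` or `IsWeightedHomogeneous.sum_weight_X_mul_pderiv`, apply `dh`,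
`Fin.sum_univ_castSucc`.) -/
theorem dh_pderiv_last {e : ℕ} {φ : MvPolynomial (Fin (m + 1)) ℂ} (h : φ.IsHomogeneous e) :
    dh (pderiv (Fin.last m) φ) = (e : ℂ) • dh φ - ∑ i : Fin m, X i * pderiv i (dh φ) := by
  have h1 := congrArg dh h.sum_X_mul_pderiv
  rw [Fin.sum_univ_castSucc, map_add, map_sum, map_mul, dh_X_last, one_mul, map_nsmul] at h1
  have h2 : ∑ i : Fin m, dh (X i.castSucc * pderiv i.castSucc φ) =
      ∑ i : Fin m, X i * pderiv i (dh φ) := by
    refine Finset.sum_congr rfl fun i _ => ?_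
    rw [map_mul, dh_X_castSucc, pderiv_dh]
  rw [h2, ← Nat.cast_smul_eq_nsmul ℂ] at h1
  rw [← h1, add_sub_cancel_left]

/-- `dh` maps the Jacobian ideal of `f0` into the ideal `(∂_i F, F)`, `F = dh f0`. -/
theorem dh_jac {d : ℕ} {f0 : MvPolynomial (Fin (m + 1)) ℂ} (hf0 : f0.IsHomogeneous d)
    {φ : MvPolynomial (Fin (m + 1)) ℂ} (h : φ ∈ jac f0) :
    dh φ ∈ jac (dh f0) ⊔ Ideal.span {dh f0} := by
  have h1 : jac f0 ≤ Ideal.comap dh.toRingHom (jac (dh f0) ⊔ Ideal.span {dh f0}) := by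
    unfold jac
    rw [Ideal.span_le]
    rintro _ ⟨i, rfl⟩
    rw [SetLike.mem_coe, Ideal.mem_comap]
    change dh (pderiv i f0) ∈ _
    have hd : ∀ i, pderiv i (dh f0) ∈ Ideal.span (Set.range fun i => pderiv i (dh f0)) :=
      fun i => Ideal.subset_span ⟨i, rfl⟩
    refine Fin.lastCases ?_ (fun i => ?_) i
    · rw [dh_pderiv_last hf0]
      refine Ideal.sub_mem _ ?_ (Ideal.sum_mem _ fun i _ => ?_)
      · refine Ideal.mem_sup_right ?_
        rw [smul_eq_C_mul]
        exact Ideal.mul_mem_left _ _ (Ideal.mem_span_singleton_self _)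
      · exact Ideal.mem_sup_left (Ideal.mul_mem_left _ _ (hd i))
    · rw [← pderiv_dh]
      exact Ideal.mem_sup_left (hd i)
  exact h1 h

/-- **A homogeneous vector field killing `f0` on the chart (1).**  With `A = dh (h_m)` and
`c_i = dh (h_i) - y_i A` one has `∑ c_i ∂_i F = - d A F`.
PROOF.  Apply `dh` to `∑ h_i ∂_i f0 = 0` and use `pderiv_dh`, `dh_pderiv_last` for `f0`. -/
theorem dh_field {d : ℕ} {f0 : MvPolynomial (Fin (m + 1)) ℂ} (hf0 : f0.IsHomogeneous d)
    (h : Fin (m + 1) → MvPolynomial (Fin (m + 1)) ℂ) (hs : ∑ i, h i * pderiv i f0 = 0) :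
    ∑ i : Fin m, (dh (h i.castSucc) - X i * dh (h (Fin.last m))) * pderiv i (dh f0) =
      -((d : ℂ) • (dh (h (Fin.last m)) * dh f0)) := by
  have h1 := congrArg dh hs
  rw [Fin.sum_univ_castSucc, map_add, map_sum, map_mul, map_zero, dh_pderiv_last hf0] at h1
  have h2 : ∑ i : Fin m, dh (h i.castSucc * pderiv i.castSucc f0) =
      ∑ i : Fin m, dh (h i.castSucc) * pderiv i (dh f0) := by
    refine Finset.sum_congr rfl fun i _ => ?_
    rw [map_mul, pderiv_dh]
  rw [h2] at h1
  have h3 : ∑ i : Fin m, (dh (h i.castSucc) - X i * dh (h (Fin.last m))) * pderiv i (dh f0) =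
      ∑ i : Fin m, dh (h i.castSucc) * pderiv i (dh f0) -
        dh (h (Fin.last m)) * ∑ i : Fin m, X i * pderiv i (dh f0) := by
    rw [Finset.mul_sum, ← Finset.sum_sub_distrib]
    refine Finset.sum_congr rfl fun i _ => ?_
    ring
  rw [h3]
  rw [mul_sub, mul_smul_comm] at h1
  linear_combination h1

/-- **Its divergence (2).**  `dh (div h) = div c + (m + e) A` if the `h_i` are homogeneous of degree `e`.
PROOF.  `dh (∂_m h_m) = e A - ∑ y_i ∂_i A` (`dh_pderiv_last` for `h_m`), and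
`∑_i ∂_i c_i = ∑_i dh (∂_i h_i) - m A - ∑_i y_i ∂_i A`. -/
theorem dh_div {e : ℕ} (h : Fin (m + 1) → MvPolynomial (Fin (m + 1)) ℂ)
    (hh : ∀ i, (h i).IsHomogeneous e) :
    dh (∑ i, pderiv i (h i)) =
      ∑ i : Fin m, pderiv i (dh (h i.castSucc) - X i * dh (h (Fin.last m))) +
        ((m + e : ℕ) : ℂ) • dh (h (Fin.last m)) := by
  classical
  rw [Fin.sum_univ_castSucc, map_add, map_sum, dh_pderiv_last (hh _)]
  have h1 : ∑ i : Fin m, dh (pderiv i.castSucc (h i.castSucc)) =
      ∑ i : Fin m, pderiv i (dh (h i.castSucc)) :=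
    Finset.sum_congr rfl fun i _ => (pderiv_dh i _).symm
  have h2 : ∑ i : Fin m, pderiv i (dh (h i.castSucc) - X i * dh (h (Fin.last m))) =
      ∑ i : Fin m, pderiv i (dh (h i.castSucc)) -
        ((m : ℂ) • dh (h (Fin.last m)) + ∑ i : Fin m, X i * pderiv i (dh (h (Fin.last m)))) := by
    have h3 : ∀ i : Fin m, pderiv i (dh (h i.castSucc) - X i * dh (h (Fin.last m))) =
        pderiv i (dh (h i.castSucc)) -
          (dh (h (Fin.last m)) + X i * pderiv i (dh (h (Fin.last m)))) := by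
      intro i
      rw [map_sub, Derivation.leibniz, pderiv_X_self, smul_eq_mul, smul_eq_mul, mul_one]
      ring
    rw [Finset.sum_congr rfl fun i _ => h3 i, Finset.sum_sub_distrib, Finset.sum_add_distrib,
      Finset.sum_const, Finset.card_univ, Fintype.card_fin, ← Nat.cast_smul_eq_nsmul ℂ]
  rw [h1, h2, Nat.cast_add, add_smul]
  abel

/-- Evaluation of a form in terms of its dehomogenisation. -/
theorem Dehom_eval {D : ℕ} {p : MvPolynomial (Fin (m + 1)) ℂ} (hp : p.IsHomogeneous D)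
    {z : Fin (m + 1) → ℂ} (hz : z (Fin.last m) ≠ 0) :
    eval z p = z (Fin.last m) ^ D * eval (fun i => z i.castSucc / z (Fin.last m)) (dh p) := by
  have h1 : z = fun i => z (Fin.last m) * pt (fun i => z i.castSucc / z (Fin.last m)) i := by
    funext i
    refine Fin.lastCases ?_ (fun i => ?_) i
    · rw [pt_last, mul_one]
    · rw [pt_castSucc, mul_div_cancel₀ _ hz]
  rw [eval_dh]
  conv_lhs => rw [h1]
  rw [eval_eq', eval_eq', Finset.mul_sum]
  refine Finset.sum_congr rfl fun γ hγ => ?_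
  have h2 : γ.degree = D := by
    by_contra hne
    exact (mem_support_iff.1 hγ) (hp.coeff_eq_zero hne)
  rw [Finset.prod_congr rfl fun i _ => mul_pow _ _ _, Finset.prod_mul_distrib,
    Finset.prod_pow_eq_pow_sum]
  have h3 : ∑ i, γ i = D := by
    rw [← h2, Finsupp.degree_eq_sum]
  rw [h3]
  ring

/-- A form with dehomogenisation zero is zero. -/
theorem Dehom_zero {D : ℕ} {p : MvPolynomial (Fin (m + 1)) ℂ} (hp : p.IsHomogeneous D)
    (h : dh p = 0) : p = 0 := by
  have h1 : X (Fin.last m) * p = 0 := by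
    refine MvPolynomial.funext fun z => ?_
    rw [map_mul, eval_X, map_zero]
    by_cases hz : z (Fin.last m) = 0
    · rw [hz, zero_mul]
    · rw [Dehom_eval hp hz, h, map_zero, mul_zero, mul_zero]
  rcases mul_eq_zero.1 h1 with h2 | h2
  · exact absurd h2 (X_ne_zero _)
  · exact h2

/-- Homogenisation in all large degrees. -/
theorem Dehom_lift (U : MvPolynomial (Fin m) ℂ) : ∃ D0 : ℕ, ∀ D, D0 ≤ D →
    ∃ V : MvPolynomial (Fin (m + 1)) ℂ, V.IsHomogeneous D ∧ dh V = U := by
  induction U using MvPolynomial.induction_on with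
  | C a =>
    refine ⟨0, fun D _ => ⟨C a * X (Fin.last m) ^ D, ?_, ?_⟩⟩
    · exact (isHomogeneous_X_pow _ _).C_mul a
    · rw [map_mul, map_pow, dh_X_last, one_pow, mul_one, dh, aeval_C]; rfl
  | add p q hp hq =>
    obtain ⟨D1, h1⟩ := hp
    obtain ⟨D2, h2⟩ := hq
    refine ⟨max D1 D2, fun D hD => ?_⟩
    obtain ⟨V1, a1, b1⟩ := h1 D (le_trans (le_max_left _ _) hD)
    obtain ⟨V2, a2, b2⟩ := h2 D (le_trans (le_max_right _ _) hD)
    exact ⟨V1 + V2, a1.add a2, by rw [map_add, b1, b2]⟩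
  | mul_X p i hp =>
    obtain ⟨D1, h1⟩ := hp
    refine ⟨D1 + 1, fun D hD => ?_⟩
    obtain ⟨V1, a1, b1⟩ := h1 (D - 1) (by omega)
    refine ⟨V1 * X i.castSucc, ?_, by rw [map_mul, b1, dh_X_castSucc]⟩
    have h3 := a1.mul (isHomogeneous_X ℂ i.castSucc)
    rwa [Nat.sub_add_cancel (by omega)] at h3

/-- **From the chart back to the cone.**  `a` homogeneous and `dh a ∈ (∂_i F, i < m)`, then
`a ∈ I0 f0`.
PROOF.  `dh a = ∑_i U_i dh (∂_i f0)`.  For a polynomial `U` in `m` variables and `D ≥ totalDegree U` let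
`U^h = ∑_β (coeff β U) y^β x_m^(D - |β|)`, homogeneous of degree `D`, `dh U^h = U`.  Two homogeneous
polynomials of the same degree with the same `dh` are equal (compare coefficients).  Choose `D` large,
homogenise `U_i` in degree `D - (d - 1)`: `∑ U_i^h ∂_i f0` and `x_m^(D - e) a` are homogeneous of degree `D`
with the same image under `dh`, so they are equal and `x_m^(D - e) a ∈ I0 f0`; conclude with
`last_pow_regular`. -/
theorem mem_I0_of_dh {d : ℕ} {f0 : MvPolynomial (Fin (m + 1)) ℂ} (hf0 : f0.IsHomogeneous d)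
    (hsec : ∀ z : Fin (m + 1) → ℂ, z (Fin.last m) = 0 →
      (∀ i : Fin m, eval z (pderiv i.castSucc f0) = 0) → z = 0)
    {e : ℕ} {a : MvPolynomial (Fin (m + 1)) ℂ} (ha : a.IsHomogeneous e)
    (h : dh a ∈ jac (dh f0)) : a ∈ I0 f0 := by
  unfold jac at h
  rw [Ideal.mem_span_range_iff_exists_fun] at h
  obtain ⟨U, hU⟩ := h
  choose D0 hD0 using fun i => Dehom_lift (U i)
  obtain ⟨D, hD⟩ : ∃ D : ℕ, D = e + (∑ i, D0 i) + (d - 1) := ⟨_, rfl⟩
  have hle : ∀ i, D0 i ≤ D - (d - 1) := by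
    intro i
    have h1 : D0 i ≤ ∑ i, D0 i := Finset.single_le_sum (fun _ _ => Nat.zero_le _)
      (Finset.mem_univ i)
    omega
  choose V hV1 hV2 using fun i => hD0 i (D - (d - 1)) (hle i)
  have h1 : (∑ i, V i * pderiv i.castSucc f0).IsHomogeneous D := by
    refine IsHomogeneous.sum _ _ _ fun i _ => ?_
    have h2 := (hV1 i).mul (hf0.pderiv (i := i.castSucc))
    rwa [Nat.sub_add_cancel (by omega)] at h2
  have h2 : (X (Fin.last m) ^ (D - e) * a).IsHomogeneous D := by
    have h3 := (isHomogeneous_X_pow (R := ℂ) (Fin.last m) (D - e)).mul ha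
    rwa [Nat.sub_add_cancel (by omega)] at h3
  have h3 : dh (X (Fin.last m) ^ (D - e) * a - ∑ i, V i * pderiv i.castSucc f0) = 0 := by
    rw [map_sub, map_mul, map_pow, dh_X_last, one_pow, one_mul, map_sum, ← hU, sub_eq_zero]
    refine Finset.sum_congr rfl fun i _ => ?_
    rw [map_mul, hV2, pderiv_dh]
  have h4 := sub_eq_zero.1 (Dehom_zero (h2.sub h1) h3)
  refine last_pow_regular hsec (D - e) a ?_
  rw [h4]
  refine Ideal.sum_mem _ fun i _ => Ideal.mul_mem_left _ _ ?_
  exact Ideal.subset_span ⟨i, rfl⟩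

/-- Critical points of `F = dh f0` on `F = 0` are singular points of the cone (`d` arbitrary). -/
theorem sing_of_crit {d : ℕ} {f0 : MvPolynomial (Fin (m + 1)) ℂ} (hf0 : f0.IsHomogeneous d)
    {q : Fin m → ℂ} (h : ∀ i, eval q (pderiv i (dh f0)) = 0) (h0 : eval q (dh f0) = 0) :
    Sing f0 q := by
  intro i
  rw [← eval_dh]
  refine Fin.lastCases ?_ (fun i => ?_) i
  · rw [dh_pderiv_last hf0, map_sub, smul_eq_C_mul, map_mul, h0, mul_zero, map_sum, zero_sub,
      neg_eq_zero]
    refine Finset.sum_eq_zero fun i _ => ?_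
    rw [map_mul, h i, mul_zero]
  · rw [← pderiv_dh]
    exact h i

end Pool.Agent.helper92.LC
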