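import Mathlib
import Pool.Agent.helper92.LC.Defs

/-!
# Project LC, module Local: an ideal membership can be checked at every point modulo all powers

Independent of the other modules (only Defs).
-/

set_option autoImplicit false

namespace Pool.Agent.helper92.LC

open MvPolynomial

variable {m : ℕ}

/-- `Ord K` is membership in the `K`-th power of the ideal of the origin
(`MvPolynomial.mem_pow_idealOfVars_iff'`; `Finsupp.weight (fun _ => 1) = Finsupp.degree`,
`Finsupp.degree_eq_weight_one`). -/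
theorem ord_iff (K : ℕ) (φ : MvPolynomial (Fin m) ℂ) :
    Ord K φ ↔ φ ∈ (MvPolynomial.idealOfVars (Fin m) ℂ) ^ K := by
  rw [mem_pow_idealOfVars_iff]
  refine forall₂_congr fun x _ => ?_
  rw [Finsupp.degree_eq_weight_one]

/-- `tr (-q)` is the inverse of `tr q`. -/
theorem tr_neg (q : Fin m → ℂ) (φ : MvPolynomial (Fin m) ℂ) : tr (-q) (tr q φ) = φ := by
  have h : (tr (-q)).comp (tr q) = AlgHom.id ℂ (MvPolynomial (Fin m) ℂ) := by
    apply MvPolynomial.algHom_ext
    intro i
    simp [tr]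
  exact DFunLike.congr_fun h φ

/-- **Local-global principle.**
PROOF.  Let `R = MvPolynomial (Fin m) ℂ`, `J = {s | s * A ∈ I}` (an ideal, e.g.
`I.colon`/`Ideal.comap` of a multiplication map, or build it by hand).  If `A ∉ I`, then `J ≠ ⊤`, so
`J` is contained in a maximal ideal, which is the ideal `M` of polynomials vanishing at a point `q`
(Nullstellensatz, `MvPolynomial.isMaximal_iff_eq_vanishingIdeal_singleton`).  The first alternative
at `q` is impossible (`s ∈ J ⊆ M`).  In the second case the hypothesis says `A ∈ I + M ^ K` for all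
`K` (by `ord_iff` and `tr_neg`: `tr (-q)` maps the ideal of the origin into `M`, so
`A - p = tr (-q) (tr q (A - p)) ∈ M ^ K`).  By Krull's intersection theorem in the Noetherian module
`R ⧸ I` (`Ideal.mem_iInf_smul_pow_eq_bot_iff`): there is `r ∈ M` with `r A ≡ A` mod `I`, that is
`1 - r ∈ J ⊆ M`, so `1 ∈ M`, a contradiction. -/
theorem mem_of_local (I : Ideal (MvPolynomial (Fin m) ℂ)) (A : MvPolynomial (Fin m) ℂ)
    (h : ∀ q : Fin m → ℂ, (∃ s : MvPolynomial (Fin m) ℂ, eval q s ≠ 0 ∧ s * A ∈ I) ∨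
      ∀ K : ℕ, ∃ p ∈ I, Ord K (tr q (A - p))) : A ∈ I := by
  by_contra hA
  let J : Ideal (MvPolynomial (Fin m) ℂ) :=
    Submodule.comap (LinearMap.toSpanSingleton (MvPolynomial (Fin m) ℂ)
      (MvPolynomial (Fin m) ℂ) A) I
  have hJmem : ∀ s, s ∈ J ↔ s * A ∈ I := fun s => Iff.rfl
  have hJ : J ≠ ⊤ := by
    intro h0
    apply hA
    have h1 : (1 : MvPolynomial (Fin m) ℂ) ∈ J := by
      rw [h0]
      trivial
    rw [hJmem, one_mul] at h1
    exact h1
  obtain ⟨M, hM, hJM⟩ := Ideal.exists_le_maximal J hJ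
  obtain ⟨q, hq⟩ := isMaximal_iff_eq_vanishingIdeal_singleton.1 hM
  have hae : ∀ (x : Fin m → ℂ) (s : MvPolynomial (Fin m) ℂ), aeval x s = eval x s := by
    intro x s
    rw [← coe_aeval_eq_eval]
    rfl
  have hMmem : ∀ s, s ∈ M ↔ eval q s = 0 := by
    intro s
    rw [hq, mem_vanishingIdeal_iff]
    constructor
    · intro h1
      have h2 := h1 q rfl
      rwa [hae] at h2
    · intro h1 x hx
      rw [Set.mem_singleton_iff.1 hx, hae]
      exact h1
  rcases h q with ⟨s, hs, hsA⟩ | hK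
  · exact hs ((hMmem s).1 (hJM ((hJmem s).2 hsA)))
  · have hmap : Ideal.map (tr (-q)) (idealOfVars (Fin m) ℂ) ≤ M := by
      rw [idealOfVars, Ideal.map_span, Ideal.span_le]
      rintro _ ⟨_, ⟨i, rfl⟩, rfl⟩
      rw [SetLike.mem_coe, hMmem, eval_tr]
      simp
    have hpow : ∀ K, ∃ p ∈ I, A - p ∈ M ^ K := by
      intro K
      obtain ⟨p, hp, hord⟩ := hK K
      refine ⟨p, hp, ?_⟩
      have h1 := (ord_iff K _).1 hord
      have h2 := Ideal.mem_map_of_mem (tr (-q)) h1
      rw [Ideal.map_pow, tr_neg] at h2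
      exact Ideal.pow_right_mono hmap K h2
    have hx : (Ideal.Quotient.mk I A : MvPolynomial (Fin m) ℂ ⧸ I) ∈
        (⨅ i : ℕ, M ^ i • ⊤ : Submodule (MvPolynomial (Fin m) ℂ)
          (MvPolynomial (Fin m) ℂ ⧸ I)) := by
      rw [Submodule.mem_iInf]
      intro K
      obtain ⟨p, hp, hpM⟩ := hpow K
      have h1 : (Ideal.Quotient.mk I A : MvPolynomial (Fin m) ℂ ⧸ I) =
          (A - p) • (Ideal.Quotient.mk I 1 : MvPolynomial (Fin m) ℂ ⧸ I) := by
        have h2 : (A - p) • (Ideal.Quotient.mk I 1 : MvPolynomial (Fin m) ℂ ⧸ I) =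
            Ideal.Quotient.mk I ((A - p) * 1) := rfl
        rw [h2, mul_one, map_sub, Ideal.Quotient.eq_zero_iff_mem.2 hp, sub_zero]
      rw [h1]
      exact Submodule.smul_mem_smul hpM Submodule.mem_top
    obtain ⟨r, hr⟩ := (Ideal.mem_iInf_smul_pow_eq_bot_iff M _).1 hx
    have h1 : (1 - (r : MvPolynomial (Fin m) ℂ)) * A ∈ I := by
      rw [← Ideal.Quotient.eq_zero_iff_mem, map_mul, map_sub, map_one, sub_mul, one_mul]
      have hr' : Ideal.Quotient.mk I ((r : MvPolynomial (Fin m) ℂ) * A) =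
          Ideal.Quotient.mk I A := hr
      rw [map_mul] at hr'
      rw [hr', sub_self]
    have h2 : (1 - (r : MvPolynomial (Fin m) ℂ)) ∈ M := hJM ((hJmem _).2 h1)
    have h3 : (1 : MvPolynomial (Fin m) ℂ) ∈ M := by
      have h4 := M.add_mem h2 r.2
      rwa [sub_add_cancel] at h4
    exact hM.ne_top ((Ideal.eq_top_iff_one M).2 h3)

end Pool.Agent.helper92.LC
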