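import Mathlib
import Pool.Agent.helper92.LC.Defs
import Pool.Agent.helper92.LC.Chain
import Pool.Agent.helper92.LC.Cone
import Pool.Agent.helper92.LC.Dehom
import Pool.Agent.helper92.LC.Local
import Pool.Agent.helper92.LC.LocalMem

/-!
# Project LC, module ConeStokes: Stokes functional of a form with isolated weighted homogeneous
singularities

Imports the others through their stubs.
-/

set_option autoImplicit false

namespace Pool.Agent.helper92.LC

open MvPolynomial
open Pool.Agent.helper67.IF

variable {m : ℕ}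

/-- A form of degree `1` is a linear form. -/
private lemma coneStokes_linear (φ : MvPolynomial (Fin (m + 1)) ℂ)
    (h : φ.IsWeightedHomogeneous (1 : Fin (m + 1) → ℕ) 1) :
    φ = ∑ j, C (coeff (Finsupp.single j 1) φ) * X j := by
  classical
  ext d
  rw [coeff_sum]
  simp only [coeff_C_mul, coeff_X]
  by_cases hd : ∃ j, d = Finsupp.single j 1
  · obtain ⟨j, rfl⟩ := hd
    rw [Finset.sum_eq_single j]
    · simp
    · intro i _ hij
      have : Finsupp.single i 1 ≠ (Finsupp.single j 1 : Fin (m + 1) →₀ ℕ) := by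
        intro h1
        exact hij ((Finsupp.single_left_inj one_ne_zero).1 h1)
      rw [if_neg this, mul_zero]
    · intro h1
      exact absurd (Finset.mem_univ j) h1
  · have h0 : coeff d φ = 0 := by
      by_contra hne
      apply hd
      have h1 := h hne
      have h2 : Finsupp.weight (1 : Fin (m + 1) → ℕ) d = Finsupp.sum d (fun _ k ↦ k) := by
        simp [Finsupp.weight_apply]
      rw [h2] at h1
      exact (Finsupp.sum_eq_one_iff d).1 h1
    rw [h0]
    symm
    refine Finset.sum_eq_zero fun i _ => ?_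
    have : Finsupp.single i 1 ≠ d := fun h1 => hd ⟨i, h1.symm⟩
    rw [if_neg this, mul_zero]

/-- **Stokes functional.**
PROOF.  `hasStokes_of_chain` with weights `1` and `N = d` (`IsHomogeneous` is `IsWeightedHomogeneous 1`;
the weight function `fun _ => 1` or `1`, whichever is convenient).
(V): a field of weight `0` has components `h_i = ∑_j A_ij X_j` (homogeneous of degree `1`), its divergence is
`trace A`; this is `hV`.
(K): let `j ≥ 1`, `h_i` homogeneous of degree `e = j d + 1`, `∑ h_i ∂_i f0 = 0`, `div h ∈ jac f0`.  By `kos_of_last` it is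
enough that `h_m ∈ I0 f0`, and by `mem_I0_of_dh` that `A = dh (h_m) ∈ jac F`, `F = dh f0`.  By `dh_field`
`∑ c_i ∂_i F = - d A F`, by `dh_div` and `dh_jac` `div c + (m + e) A ∈ jac F ⊔ (F)`, `m + e = (m + 1) + j d`.
Apply `mem_of_local` with `I = jac F`.  At a point `q`: if some `∂_i F(q) ≠ 0`, take `s = ∂_i F`.  Otherwise, if
`F(q) ≠ 0`, take `s = F`: `F A = - (1/d) ∑ c_i ∂_i F ∈ jac F`.  Otherwise `Sing f0 q` (`sing_of_crit`) and
`local_mem` (with `n = m + 1`) is the second alternative. -/
theorem hasStokes_cone (hm : 1 ≤ m) {d : ℕ} (hd : 2 ≤ d) {f0 : MvPolynomial (Fin (m + 1)) ℂ}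
    (hf0 : f0.IsHomogeneous d)
    (hsec : ∀ z : Fin (m + 1) → ℂ, z (Fin.last m) = 0 →
      (∀ i : Fin m, eval z (pderiv i.castSucc f0) = 0) → z = 0)
    (hloc : ∀ q : Fin m → ℂ, Sing f0 q → ∃ (a : Fin m → ℕ) (N : ℕ) (g : MvPolynomial (Fin m) ℂ),
      WH (dh f0) q a N g ∧ NR (m + 1) d a N g)
    (hV : ∀ A : Matrix (Fin (m + 1)) (Fin (m + 1)) ℂ,
      ∑ i, (∑ j, C (A i j) * X j) * pderiv i f0 = 0 → A.trace = 0) :
    HasStokes f0 := by
  have hd0 : (d : ℂ) ≠ 0 := by
    have : d ≠ 0 := by omega
    exact_mod_cast this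
  refine hasStokes_of_chain (a := (1 : Fin (m + 1) → ℕ)) (N := d) ?_ hf0 ?_ ?_
  · intro i
    simp only [Pi.one_apply]
    omega
  · intro j h hj hh hs hdiv
    have hh' : ∀ i, (h i).IsHomogeneous (j * d + 1) := hh
    refine kos_of_last hf0 hsec (e := j * d + 1) ?_ h hh' hs ?_
    · have : d ≤ j * d := Nat.le_mul_of_pos_left d (by omega)
      omega
    · refine mem_I0_of_dh hf0 hsec (hh' (Fin.last m)) ?_
      have h1 := dh_field hf0 h hs
      have h2 : ∑ i : Fin m, pderiv i (dh (h i.castSucc) - X i * dh (h (Fin.last m))) +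
          (((m + 1) + j * d : ℕ) : ℂ) • dh (h (Fin.last m)) ∈
            jac (dh f0) ⊔ Ideal.span {dh f0} := by
        have h3 := dh_div h hh'
        have h4 := dh_jac hf0 hdiv
        rw [h3] at h4
        have h5 : (m + 1) + j * d = m + (j * d + 1) := by ring
        rw [h5]
        exact h4
      apply mem_of_local
      intro q
      by_cases h3 : ∀ i, eval q (pderiv i (dh f0)) = 0
      · by_cases h4 : eval q (dh f0) = 0
        · right
          intro K
          obtain ⟨a, N, g, hW, hNR⟩ := hloc q (sing_of_crit hf0 h3 h4)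
          exact local_mem hm hW hNR hj _ _ h1 h2 K
        · left
          refine ⟨dh f0, h4, ?_⟩
          have h5 : dh f0 * dh (h (Fin.last m)) =
              C (-(d : ℂ)⁻¹) * ∑ i : Fin m, (dh (h i.castSucc) - X i * dh (h (Fin.last m))) *
                pderiv i (dh f0) := by
            rw [h1, smul_eq_C_mul, mul_neg, ← mul_assoc, ← mul_assoc, ← C_mul]
            have : -(d : ℂ)⁻¹ * (d : ℂ) = -1 := by field_simp
            rw [this, C_neg, C_1]
            ring
          rw [h5]
          refine Ideal.mul_mem_left _ _ (Ideal.sum_mem _ fun i _ => Ideal.mul_mem_left _ _ ?_)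
          exact Ideal.subset_span ⟨i, rfl⟩
      · push Not at h3
        obtain ⟨i, hi⟩ := h3
        left
        exact ⟨pderiv i (dh f0), hi, Ideal.mul_mem_right _ _ (Ideal.subset_span ⟨i, rfl⟩)⟩
  · intro h hh hs
    have hh' : ∀ i, h i = ∑ j, C (coeff (Finsupp.single j 1) (h i)) * X j :=
      fun i => coneStokes_linear (h i) (hh i)
    have h1 := hV (Matrix.of fun i j => coeff (Finsupp.single j 1) (h i)) (by
      simp only [Matrix.of_apply]
      rw [← hs]
      exact Finset.sum_congr rfl fun i _ => by rw [← hh' i])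
    have h2 : ∀ i, pderiv i (h i) = C (coeff (Finsupp.single i 1) (h i)) := by
      intro i
      conv_lhs => rw [hh' i]
      rw [map_sum, Finset.sum_eq_single i]
      · rw [pderiv_C_mul, pderiv_X_self, mul_one]
      · intro j _ hj
        rw [pderiv_C_mul, pderiv_X_of_ne hj, mul_zero]
      · intro h3
        exact absurd (Finset.mem_univ i) h3
    rw [Finset.sum_congr rfl fun i _ => h2 i, ← map_sum]
    have h3 : ∑ i, coeff (Finsupp.single i 1) (h i) = 0 := by
      simpa [Matrix.trace] using h1
    rw [h3, C_0]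

end Pool.Agent.helper92.LC
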