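import Mathlib
import Pool.Agent.helper92.LC.Defs
import Pool.Agent.helper92.LC.ConeStokes
import Pool.Agent.helper92.LC.PointRoot
import Pool.Agent.helper67.LY.Fin

/-!
# Project LC, module Final: assembly

Imports the others through their stubs.
-/

set_option autoImplicit false

namespace Pool.Agent.helper92.LC

open MvPolynomial Filter Topology Asymptotics
open Pool.Agent.helper67.ND Pool.Agent.helper67.IF

variable {m : ℕ}

/-- **The root `- n / d`, `n = m + 1`.**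
PROOF.  `initial_form` (`Pool.Agent.helper67.IF.Main`) with weights `1` and `hasStokes_cone`; `HasInitialForm` as in
`tangentCone` of `Pool.Agent.Results.MP_6163c8_ag.InitialForms` (`isBigO_scal`, `eval_scal_homog`). -/
theorem cone_root (hm : 1 ≤ m) {d : ℕ} (hd : 2 ≤ d) {f0 : MvPolynomial (Fin (m + 1)) ℂ}
    (hf0 : f0.IsHomogeneous d)
    (hsec : ∀ z : Fin (m + 1) → ℂ, z (Fin.last m) = 0 →
      (∀ i : Fin m, eval z (pderiv i.castSucc f0) = 0) → z = 0)
    (hloc : ∀ q : Fin m → ℂ, Sing f0 q → ∃ (a : Fin m → ℕ) (N : ℕ) (g : MvPolynomial (Fin m) ℂ),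
      WH (dh f0) q a N g ∧ NR (m + 1) d a N g)
    (hV : ∀ A : Matrix (Fin (m + 1)) (Fin (m + 1)) ℂ,
      ∑ i, (∑ j, C (A i j) * X j) * pderiv i f0 = 0 → A.trace = 0)
    {f : (Fin (m + 1) → ℂ) → ℂ} (hf : AnalyticAt ℂ f 0)
    (hO : (fun z => f z - eval z f0) =O[𝓝 0] (fun z : Fin (m + 1) → ℂ => ‖z‖ ^ (d + 1)))
    {b : Polynomial ℂ} (hb : IsBernstein f b) : b.eval (-((m + 1 : ℕ) : ℂ) / d) = 0 := by
  have hst := hasStokes_cone hm hd hf0 hsec hloc hV
  have hhom : f0.IsWeightedHomogeneous (fun _ => 1) d := hf0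
  have hin : HasInitialForm (fun _ => 1) d f f0 := by
    intro z
    have h1 := isBigO_scal (a := fun _ : Fin (m + 1) => 1) (fun _ => le_rfl) hO z
    refine h1.congr_left fun t => ?_
    rw [eval_scal_homog hhom]
    rfl
  have h := initial_form (by omega) (a := fun _ : Fin (m + 1) => 1) (fun _ => le_rfl) hf hhom hin
    hst hb
  simpa using h

/-- **The root `-1`.**
PROOF.  `eval_neg_one` in `Pool.Agent.helper67.LY.Gamma`; `f 0 = 0` and `f` is not identically zero near `0`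
because `f0 ≠ 0` (see `frequently_ne` in `Pool.Agent.helper67.LY.Fin`). -/
theorem neg_one_root {d : ℕ} (hd : 2 ≤ d) {f0 : MvPolynomial (Fin (m + 1)) ℂ} (hf00 : f0 ≠ 0)
    (hf0 : f0.IsHomogeneous d)
    {f : (Fin (m + 1) → ℂ) → ℂ} (hf : AnalyticAt ℂ f 0)
    (hO : (fun z => f z - eval z f0) =O[𝓝 0] (fun z : Fin (m + 1) → ℂ => ‖z‖ ^ (d + 1)))
    {b : Polynomial ℂ} (hb : IsBernstein f b) : b.eval (-1) = 0 := by
  have hhom : f0.IsWeightedHomogeneous (fun _ => 1) d := hf0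
  have hf0z : f 0 = 0 := by
    obtain ⟨C, hC⟩ := hO.bound
    have h1 := hC.self_of_nhds
    have h2 : eval (0 : Fin (m + 1) → ℂ) f0 = 0 := by
      have h3 := eval_scal_homog hhom 0 0
      have h4 : scal (fun _ : Fin (m + 1) => 1) (0 : ℂ) 0 = 0 := by
        funext i; simp [scal]
      rw [h4, zero_pow (by omega), zero_mul] at h3
      exact h3
    rw [h2, norm_zero, zero_pow (by omega), norm_zero, mul_zero, sub_zero] at h1
    exact norm_le_zero_iff.1 h1
  refine Pool.Agent.helper67.LY.eval_neg_one hf hf0z ?_ b hb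
  intro hcon
  have hcon' : ∀ᶠ z in 𝓝 (0 : Fin (m + 1) → ℂ), f z = 0 := by
    filter_upwards [hcon] with z hz
    exact not_not.1 hz
  have h1 : (fun z => eval z f0) =O[𝓝 0] (fun z : Fin (m + 1) → ℂ => ‖z‖ ^ (d + 1)) := by
    refine hO.neg_left.congr' ?_ EventuallyEq.rfl
    filter_upwards [hcon'] with z hz
    rw [hz]; ring
  have h2 : Ge (fun _ => 1) (d + 1) f0 := by
    refine Ge_of_scal (d + 1) _ fun z => ?_
    exact isBigO_scal (a := fun _ : Fin (m + 1) => 1) (fun _ => le_rfl) h1 z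
  apply hf00
  ext u
  rw [coeff_zero]
  by_contra hu
  have h3 := h2 u (mem_support_iff.2 hu)
  have h4 := hhom hu
  omega

/-- **Lê-Yomdin germs.**  `f = f0 + h + O(|z|^(d+k+1))`, `f0` homogeneous of degree `d` with the
section `x_m = 0` smooth, `dh f0` weighted homogeneous at its singular points `q` with data
`a q`, `N q`, `g q` satisfying the nonresonance condition `NR`, `h` homogeneous of degree `d + k`, nonzero at the
singular points, no linear vector field killing `f0` has nonzero divergence.  Then the candidate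
poles `-1`, `-n/d` and `-(n + k |w_q|)/(d + k)` (`n = m + 1`, `|w_q| = ∑ a_i / N`) are roots of every
Bernstein polynomial, the last one if `(n - d |w_q|)/(d + k)` is not a positive integer.
PROOF.  `neg_one_root`, `cone_root`, `point_root`.  `f0 ≠ 0` by `hsec` and `1 ≤ m`.  -/
theorem le_yomdin (hm : 1 ≤ m) {d k : ℕ} (hd : 2 ≤ d) (hk : 1 ≤ k)
    {f0 h : MvPolynomial (Fin (m + 1)) ℂ} (hf0 : f0.IsHomogeneous d)
    (hsec : ∀ z : Fin (m + 1) → ℂ, z (Fin.last m) = 0 →
      (∀ i : Fin m, eval z (pderiv i.castSucc f0) = 0) → z = 0)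
    (a : (Fin m → ℂ) → Fin m → ℕ) (N : (Fin m → ℂ) → ℕ)
    (g : (Fin m → ℂ) → MvPolynomial (Fin m) ℂ)
    (hW : ∀ q, Sing f0 q → WH (dh f0) q (a q) (N q) (g q))
    (hNR : ∀ q, Sing f0 q → NR (m + 1) d (a q) (N q) (g q))
    (hV : ∀ A : Matrix (Fin (m + 1)) (Fin (m + 1)) ℂ,
      ∑ i, (∑ j, C (A i j) * X j) * pderiv i f0 = 0 → A.trace = 0)
    (hh : h.IsHomogeneous (d + k)) (hq : ∀ q, Sing f0 q → eval (pt q) h ≠ 0)
    {f : (Fin (m + 1) → ℂ) → ℂ} (hf : AnalyticAt ℂ f 0)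
    (hO : (fun z => f z - (eval z f0 + eval z h)) =O[𝓝 0]
      (fun z : Fin (m + 1) → ℂ => ‖z‖ ^ (d + k + 1)))
    {b : Polynomial ℂ} (hb : IsBernstein f b) :
    b.eval (-1) = 0 ∧ b.eval (-((m + 1 : ℕ) : ℂ) / d) = 0 ∧
      ∀ q, Sing f0 q →
        (∀ j : ℕ, 1 ≤ j → (m + 1) * N q ≠ d * (∑ i, a q i) + j * ((d + k) * N q)) →
        b.eval (-(((m + 1) * N q + k * ∑ i, a q i : ℕ) : ℂ) / ((d + k) * N q : ℕ)) = 0 := by
  have hf00 : f0 ≠ 0 := by
    rintro rfl
    have h1 := hsec (Pi.single (Fin.castSucc ⟨0, hm⟩) 1) (by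
      rw [Pi.single_eq_of_ne]
      exact (Fin.castSucc_lt_last _).ne') (fun i => by simp)
    have h2 := congrFun h1 (Fin.castSucc ⟨0, hm⟩)
    simp at h2
  have hhO : (fun z => eval z h) =O[𝓝 0] (fun z : Fin (m + 1) → ℂ => ‖z‖ ^ (d + 1)) :=
    (Pool.Agent.helper67.LY.isBigO_homog hh).trans
      (isBigO_norm_pow_mono (by omega : d + 1 ≤ d + k))
  have hO' : (fun z => f z - eval z f0) =O[𝓝 0]
      (fun z : Fin (m + 1) → ℂ => ‖z‖ ^ (d + 1)) := by
    have h2 := hO.trans (isBigO_norm_pow_mono (n := m + 1) (by omega : d + 1 ≤ d + k + 1))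
    refine (h2.add hhO).congr_left fun z => ?_
    ring
  refine ⟨neg_one_root hd hf00 hf0 hf hO' hb, cone_root hm hd hf0 hsec
    (fun q hs => ⟨a q, N q, g q, hW q hs, hNR q hs⟩) hV hf hO' hb, fun q hs hex => ?_⟩
  exact point_root hm hk hf0 hh hf hO (hW q hs) (hq q hs) hex hb

end Pool.Agent.helper92.LC
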